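import Pool.Agent.H93.BX.Df
import Pool.Agent.H35.CF.Defs

/-!
# [H93 OW MIS] MP_b39724_nt, THEOREM OW: functions of a part of the variables, factors, cells (generic)

* `Dp T g`: `g : (Fin m → V) → β` depends on the variables with index in `T` only. `mis_prod`, `mis_ind`: a finite product of functions which miss a variable is a product of factors `Mis`.
* `ldk D x g lab`: the letters of the places: `g k` at `x k`, `k ∈ D`, `lab` at the other places. `Dp D`. `ldk_hom`: image of the full evaluation under a homomorphism which kills `g k`, `k ∉ D`.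
* `cnt_cel`: the number of configurations with cells and a given support. `cnt_log`: it is at most a power of `log Y`.
-/

set_option autoImplicit false

open scoped Classical

noncomputable section

namespace H93.OW

open H93.BX H35.CF

section dp

variable {m : ℕ} {V β γ : Type}

/-- `g` depends on the variables with index in `T` only -/
def Dp (T : Finset (Fin m)) (g : (Fin m → V) → β) : Prop := ∀ x y, (∀ k ∈ T, x k = y k) → g x = g y

theorem dp_mono {T T' : Finset (Fin m)} (h : T ⊆ T') {g : (Fin m → V) → β} (hg : Dp T g) : Dp T' g :=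
  fun x y hxy => hg x y fun k hk => hxy k (h hk)

theorem dp_comp {T : Finset (Fin m)} {g : (Fin m → V) → β} (hg : Dp T g) (f : β → γ) :
    Dp T fun x => f (g x) := fun x y hxy => congrArg f (hg x y hxy)

theorem dp_const (T : Finset (Fin m)) (b : β) : Dp T fun _ : Fin m → V => b := fun _ _ _ => rfl

theorem dp_pair {T T' : Finset (Fin m)} {g : (Fin m → V) → β} {g' : (Fin m → V) → γ} (hg : Dp T g)
    (hg' : Dp T' g') : Dp (T ∪ T') fun x => (g x, g' x) := fun x y hxy =>
  Prod.ext (hg x y fun k hk => hxy k (Finset.mem_union_left _ hk))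
    (hg' x y fun k hk => hxy k (Finset.mem_union_right _ hk))

theorem dp_pi {ι : Type} {T : Finset (Fin m)} {g : ι → (Fin m → V) → β} (hg : ∀ i, Dp T (g i)) :
    Dp T fun x i => g i x := fun x y hxy => funext fun i => hg i x y hxy

theorem dp_coord (k : Fin m) : Dp {k} fun x : Fin m → V => x k := fun _ _ hxy =>
  hxy k (Finset.mem_singleton_self k)

theorem dp_at {T : Finset (Fin m)} {g : (Fin m → V) → V → β} (hg : Dp T g) (k : Fin m) :
    Dp (insert k T) fun x => g x (x k) := fun x y hxy => by
  have h1 : g x = g y := hg x y fun j hj => hxy j (Finset.mem_insert_of_mem hj)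
  have h2 : x k = y k := hxy k (Finset.mem_insert_self k T)
  show g x (x k) = g y (y k)
  rw [h1, h2]

theorem dp_eq {T : Finset (Fin m)} {g : (Fin m → V) → β} (hg : Dp T g) (c : β) :
    Dp T fun x => g x = c := dp_comp hg fun b => b = c

/-- a product of functions which miss a variable -/
theorem mis_prod {ι : Type} (s : Finset ι) (T : ι → Finset (Fin m)) (g : ι → (Fin m → V) → ℂ)
    (hT : ∀ i ∈ s, T i ≠ Finset.univ) (hg : ∀ i ∈ s, Dp (T i) (g i))
    (h1 : ∀ i ∈ s, ∀ x, ‖g i x‖ ≤ 1) :
    ∃ h : Fin m → (Fin m → V) → ℂ, Mis h ∧ ∀ x, ∏ k, h k x = ∏ i ∈ s, g i x := by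
  have hex : ∀ i ∈ s, ∃ k, k ∉ T i := fun i hi => by
    by_contra hc
    push Not at hc
    exact hT i hi (Finset.eq_univ_iff_forall.2 hc)
  refine ⟨fun k x => ∏ i ∈ s.filter (fun i => ∃ h : ∃ k, k ∉ T i, h.choose = k), g i x,
    ⟨fun k x => ?_, fun k x u => ?_⟩, fun x => ?_⟩
  · rw [norm_prod]
    exact Finset.prod_le_one (fun _ _ => norm_nonneg _) fun i hi => h1 i (Finset.mem_filter.1 hi).1 x
  · refine Finset.prod_congr rfl fun i hi => ?_
    obtain ⟨h2, h3, h4⟩ := Finset.mem_filter.1 hi
    refine hg i h2 _ _ fun j hj => ?_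
    have h5 : j ≠ k := by
      rintro rfl
      have h6 := h3.choose_spec
      rw [h4] at h6
      exact h6 hj
    exact Function.update_of_ne h5 u x
  · rw [← Finset.prod_fiberwise_of_maps_to (s := s) (t := Finset.univ)
      (g := fun i => if h : ∃ k, k ∉ T i then (some h.choose : Option (Fin m)) else none)
      (fun _ _ => Finset.mem_univ _) fun i => g i x, Fintype.prod_option]
    have h2 : (s.filter fun i => (if h : ∃ k, k ∉ T i then (some h.choose : Option (Fin m)) else none) =
        none) = ∅ := by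
      refine Finset.filter_eq_empty_iff.2 fun i hi => ?_
      rw [dif_pos (hex i hi)]
      exact Option.some_ne_none _
    rw [h2, Finset.prod_empty, one_mul]
    refine Finset.prod_congr rfl fun k _ => Finset.prod_congr ?_ fun _ _ => rfl
    refine Finset.filter_congr fun i hi => ?_
    rw [dif_pos (hex i hi), Option.some_inj]
    exact ⟨fun ⟨_, h⟩ => h, fun h => ⟨hex i hi, h⟩⟩

/-- the indicator of finitely many conditions which miss a variable -/
theorem mis_ind {ι : Type} (s : Finset ι) (T : ι → Finset (Fin m)) (R : ι → (Fin m → V) → Prop)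
    (hT : ∀ i ∈ s, T i ≠ Finset.univ) (hR : ∀ i ∈ s, Dp (T i) (R i)) :
    ∃ h : Fin m → (Fin m → V) → ℂ, Mis h ∧ ∀ x, ∏ k, h k x = if ∀ i ∈ s, R i x then 1 else 0 := by
  obtain ⟨h, hh, hp⟩ := mis_prod s T (fun i x => if R i x then (1 : ℂ) else 0) hT
    (fun i hi => dp_comp (hR i hi) fun q => if q then (1 : ℂ) else 0) (fun i _ x => by
      split_ifs
      · rw [norm_one]
      · rw [norm_zero]
        exact zero_le_one)
  refine ⟨h, hh, fun x => ?_⟩
  rw [hp x]
  by_cases hx : ∀ i ∈ s, R i x
  · rw [if_pos hx]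
    exact Finset.prod_eq_one fun i hi => if_pos (hx i hi)
  · rw [if_neg hx]
    push Not at hx
    obtain ⟨i, hi, h2⟩ := hx
    exact Finset.prod_eq_zero hi (if_neg h2)

theorem mis_one : Mis (fun (_ : Fin m) (_ : Fin m → V) => (1 : ℂ)) :=
  ⟨fun _ _ => by rw [norm_one], fun _ _ _ => rfl⟩

theorem mis_mul {h h' : Fin m → (Fin m → V) → ℂ} (hh : Mis h) (hh' : Mis h') :
    Mis fun k x => h k x * h' k x := ⟨fun k x => by
  rw [norm_mul]
  exact mul_le_one₀ (hh.le k x) (norm_nonneg _) (hh'.le k x), fun k x u => by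
  show h k (Function.update x k u) * h' k (Function.update x k u) = h k x * h' k x
  rw [hh.upd, hh'.upd]⟩

end dp

section ldk

variable {m : ℕ} {V G G' : Type}

/-- the value at an index with the property `q` -/
def pick (q : Fin m → Prop) (g : Fin m → G) (c : G) : G := if h : ∃ k, q k then g h.choose else c

/-- the letters of the places: `g k` at `x k`, `k ∈ D`, `lab` at the other places -/
def ldk (D : Finset (Fin m)) (x : Fin m → V) (g : Fin m → G) (lab : V → G) (w : V) : G :=
  pick (fun k => k ∈ D ∧ x k = w) g (lab w)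

theorem ldk_dp (D : Finset (Fin m)) (g : Fin m → G) (lab : V → G) :
    Dp D fun x : Fin m → V => ldk D x g lab := fun x y hxy => by
  have h1 : ∀ w, (fun k => k ∈ D ∧ x k = w) = fun k => k ∈ D ∧ y k = w := fun w =>
    funext fun k => propext ⟨fun h => ⟨h.1, (hxy k h.1).symm.trans h.2⟩,
      fun h => ⟨h.1, (hxy k h.1).trans h.2⟩⟩
  funext w
  exact congrArg (fun q => pick q g (lab w)) (h1 w)

theorem ldk_of {D : Finset (Fin m)} {x : Fin m → V} (hx : Function.Injective x) (g : Fin m → G)
    (lab : V → G) {k : Fin m} (hk : k ∈ D) : ldk D x g lab (x k) = g k := by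
  have h : ∃ j, j ∈ D ∧ x j = x k := ⟨k, hk, rfl⟩
  unfold ldk pick
  rw [dif_pos h, hx h.choose_spec.2]

theorem ldk_ne {D : Finset (Fin m)} {x : Fin m → V} (g : Fin m → G) (lab : V → G) {w : V}
    (hw : ∀ k ∈ D, x k ≠ w) : ldk D x g lab w = lab w := by
  unfold ldk pick
  rw [dif_neg]
  rintro ⟨k, h1, h2⟩
  exact hw k h1 h2

/-- the image of the full evaluation -/
theorem ldk_hom [Monoid G] [Monoid G'] (f : G →* G') (D : Finset (Fin m)) {x : Fin m → V}
    (hx : Function.Injective x) (g : Fin m → G) (lab : V → G) (h1 : ∀ k ∉ D, f (g k) = 1)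
    (h2 : ∀ k, lab (x k) = 1) (w : V) :
    f (ldk Finset.univ x g lab w) = ldk D x (fun k => f (g k)) (fun v => f (lab v)) w := by
  by_cases h : ∃ k, x k = w
  · obtain ⟨k, rfl⟩ := h
    rw [ldk_of hx g lab (Finset.mem_univ k)]
    by_cases hk : k ∈ D
    · rw [ldk_of hx _ _ hk]
    · rw [h1 k hk, ldk_ne]
      · rw [h2 k, map_one]
      · intro j hj hjk
        rw [hx hjk] at hj
        exact hk hj
  · push Not at h
    rw [ldk_ne g lab fun k _ => h k, ldk_ne _ _ fun k _ => h k]

/-- evaluation of words -/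
theorem lift_dp [Group G] {J : Type} (D : Finset (Fin m)) (g : Fin m → G) (lab : V → G) (al : J → G)
    (w : FreeGroup (V ⊕ J)) :
    Dp D fun x : Fin m → V => FreeGroup.lift (Sum.elim (ldk D x g lab) al) w :=
  dp_comp (ldk_dp D g lab) fun f => FreeGroup.lift (Sum.elim f al) w

/-- evaluation of the word of a variable place -/
theorem lift_dp_at [Group G] {J : Type} (D : Finset (Fin m)) (g : Fin m → G) (lab : V → G)
    (al : J → G) (W : V → FreeGroup (V ⊕ J)) (k : Fin m) :
    Dp (insert k D) fun x : Fin m → V => FreeGroup.lift (Sum.elim (ldk D x g lab) al) (W (x k)) :=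
  dp_at (g := fun (x : Fin m → V) v => FreeGroup.lift (Sum.elim (ldk D x g lab) al) (W v))
    (dp_comp (ldk_dp D g lab) fun f v => FreeGroup.lift (Sum.elim f al) (W v)) k

theorem pair_ne (hm : 3 ≤ m) (i j : Fin m) : ({i, j} : Finset (Fin m)) ≠ Finset.univ := by
  intro h
  have h1 := congrArg Finset.card h
  rw [Finset.card_univ, Fintype.card_fin] at h1
  have h2 : ({i, j} : Finset (Fin m)).card ≤ 2 := Finset.card_le_two
  omega

/-- the order of two variables in a list -/
theorem ord_dp (l : List V) (i j : Fin m) :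
    Dp {i, j} fun x : Fin m → V => l.idxOf (x i) < l.idxOf (x j) := fun x y hxy => by
  have h1 : x i = y i := hxy i (by simp)
  have h2 : x j = y j := hxy j (by simp)
  show (l.idxOf (x i) < l.idxOf (x j)) = (l.idxOf (y i) < l.idxOf (y j))
  rw [h1, h2]

/-- the order of a place and a variable in a list -/
theorem ordf_dp (l : List V) (w : V) (i : Fin m) :
    Dp {i} fun x : Fin m → V => l.idxOf w < l.idxOf (x i) := fun x y hxy => by
  have h1 : x i = y i := hxy i (by simp)
  show (l.idxOf w < l.idxOf (x i)) = (l.idxOf w < l.idxOf (y i))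
  rw [h1]

end ldk

section cnt

variable {V Λ γ J : Type}

/-- the number of configurations with cells and a given support: cells at the letters `U`, a default value at the other letters -/
theorem cnt_cel [Fintype Λ] [Fintype γ] (Z : Finset V) (s : Finset V) (U : Finset J) (c₀ : γ)
    (I : Finset ((V → Option Λ) × (J → γ)))
    (hI : ∀ i ∈ I, i.1 ∈ Cf Z Λ ∧ sp Z i.1 = s ∧ ∀ j, j ∉ U → i.2 j = c₀) :
    I.card ≤ (Fintype.card Λ + 1) ^ s.card * Fintype.card γ ^ U.card := by
  have h1 : (Finset.univ : Finset ((s → Option Λ) × (U → γ))).card =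
      (Fintype.card Λ + 1) ^ s.card * Fintype.card γ ^ U.card := by
    rw [Finset.card_univ, Fintype.card_prod, Fintype.card_fun, Fintype.card_fun,
      Fintype.card_option, Fintype.card_coe, Fintype.card_coe]
  rw [← h1]
  refine Finset.card_le_card_of_injOn (fun i => (fun v => i.1 v, fun j => i.2 j))
    (fun _ _ => Finset.mem_univ _) ?_
  rintro ⟨b, e⟩ hb ⟨b', e'⟩ hb' h
  have h2 : (fun v : s => b v) = fun v : s => b' v := congrArg Prod.fst h
  have h3 : (fun j : U => e j) = fun j : U => e' j := congrArg Prod.snd h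
  have hb1 := hI _ hb
  have hb2 := hI _ hb'
  refine Prod.ext (funext fun v => ?_) (funext fun j => ?_)
  · show b v = b' v
    by_cases hv : v ∈ s
    · exact congrFun h2 ⟨v, hv⟩
    · have key : ∀ a : V → Option Λ, a ∈ Cf Z Λ → sp Z a = s → a v = none := by
        intro a ha1 ha2
        by_contra hc
        refine hv ?_
        rw [← ha2, mem_sp]
        refine ⟨?_, hc⟩
        by_contra h4
        exact hc (mem_cf.1 ha1 v h4)
      rw [key b hb1.1 hb1.2.1, key b' hb2.1 hb2.2.1]
  · show e j = e' j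
    by_cases hj : j ∈ U
    · exact congrFun h3 ⟨j, hj⟩
    · exact (hb1.2.2 j hj).trans (hb2.2.2 j hj).symm

/-- it is at most a power of `log Y` -/
theorem cnt_log (L G C₁ : ℝ) (hL : 1 ≤ L) (hG : 1 ≤ G) (Y : ℝ) (hY : Real.exp (Real.exp 1) ≤ Y)
    (k e g : ℕ) (hk : (k : ℝ) ≤ C₁ * (1 + Real.log (Real.log Y))) (he : (2 : ℝ) ^ e ≤ Real.log Y) :
    L ^ k * G ^ (k + e + g) ≤
      Real.log Y ^ (2 * |C₁| * Real.log L + (2 * |C₁| + 2 + g) * Real.log G) := by
  have hY0 : 0 < Y := lt_of_lt_of_le (Real.exp_pos _) hY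
  have h1 : Real.exp 1 ≤ Real.log Y := (Real.le_log_iff_exp_le hY0).2 hY
  have hl0 : 0 < Real.log Y := lt_of_lt_of_le (Real.exp_pos _) h1
  have h4 : 1 ≤ Real.log (Real.log Y) := (Real.le_log_iff_exp_le hl0).2 h1
  have hLl : 0 ≤ Real.log L := Real.log_nonneg hL
  have hGl : 0 ≤ Real.log G := Real.log_nonneg hG
  have h9 : (k : ℝ) ≤ 2 * |C₁| * Real.log (Real.log Y) := by
    refine hk.trans ?_
    calc C₁ * (1 + Real.log (Real.log Y)) ≤ |C₁| * (1 + Real.log (Real.log Y)) :=
          mul_le_mul_of_nonneg_right (le_abs_self _) (by linarith)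
      _ ≤ |C₁| * (2 * Real.log (Real.log Y)) :=
          mul_le_mul_of_nonneg_left (by linarith) (abs_nonneg _)
      _ = _ := by ring
  have h10 : (e : ℝ) * Real.log 2 ≤ Real.log (Real.log Y) := by
    rw [← Real.log_pow]
    exact Real.log_le_log (by positivity) he
  have h11 : (e : ℝ) ≤ 2 * Real.log (Real.log Y) := by
    have := Real.log_two_gt_d9
    have he0 : (0 : ℝ) ≤ e := Nat.cast_nonneg _
    nlinarith
  have h12 : (g : ℝ) ≤ g * Real.log (Real.log Y) :=
    le_mul_of_one_le_right (Nat.cast_nonneg _) h4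
  have hp1 : 0 < L ^ k := pow_pos (by linarith) _
  have hp2 : 0 < G ^ (k + e + g) := pow_pos (by linarith) _
  rw [← Real.log_le_log_iff (mul_pos hp1 hp2) (Real.rpow_pos_of_pos hl0 _),
    Real.log_mul hp1.ne' hp2.ne', Real.log_pow, Real.log_pow, Real.log_rpow hl0]
  push_cast
  have h13 : (k : ℝ) * Real.log L ≤ 2 * |C₁| * Real.log (Real.log Y) * Real.log L :=
    mul_le_mul_of_nonneg_right h9 hLl
  have h14 : ((k : ℝ) + e + g) * Real.log G ≤
      (2 * |C₁| * Real.log (Real.log Y) + 2 * Real.log (Real.log Y) +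
        g * Real.log (Real.log Y)) * Real.log G :=
    mul_le_mul_of_nonneg_right (by linarith) hGl
  calc (k : ℝ) * Real.log L + ((k : ℝ) + e + g) * Real.log G
      ≤ 2 * |C₁| * Real.log (Real.log Y) * Real.log L +
        (2 * |C₁| * Real.log (Real.log Y) + 2 * Real.log (Real.log Y) +
          g * Real.log (Real.log Y)) * Real.log G := add_le_add h13 h14
    _ = _ := by ring

end cnt

end H93.OW
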