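import Pool.Agent.H48.OW.Ch
import Pool.Agent.H35.OW.Lab
import Pool.Agent.H73.S3.Rem

/-!
# [H93 OW RC] MP_b39724_nt, THEOREM OW, (s3) of module F: recolouring

`ixv v w`: the own index of the place `w` for the tuple `v` (`some k` at `v k`, `none` elsewhere). `rc f v`: the configuration with the letters of the class list `cO hp c M` of `P × Ci p M`:
letter `f w`, own index `ixv v w`.
-/

set_option autoImplicit false

open scoped Classical

noncomputable section

namespace H93.OW

open H77.PC3 H35.CF H35.UB H73.S3 H48.OW

section ix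

variable {m : ℕ} {V : Type}

/-- the own index of a place -/
def ixv (v : Fin m → V) (w : V) : Option (Fin m) := if h : ∃ k, v k = w then some h.choose else none

theorem ixv_of {v : Fin m → V} (hv : Function.Injective v) (k : Fin m) : ixv v (v k) = some k := by
  have h : ∃ j, v j = v k := ⟨k, rfl⟩
  unfold ixv
  rw [dif_pos h, hv h.choose_spec]

theorem ixv_ne {v : Fin m → V} {w : V} (h : ∀ k, v k ≠ w) : ixv v w = none := by
  unfold ixv
  rw [dif_neg]
  rintro ⟨k, hk⟩
  exact h k hk

theorem ixv_some {v : Fin m → V} {w : V} {k : Fin m} (h : ixv v w = some k) : v k = w := by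
  unfold ixv at h
  by_cases h1 : ∃ k, v k = w
  · rw [dif_pos h1] at h
    rw [← Option.some_injective _ h]
    exact h1.choose_spec
  · rw [dif_neg h1] at h
    exact absurd h (by simp)

theorem ixv_none {v : Fin m → V} {w : V} (h : ixv v w = none) (k : Fin m) : v k ≠ w := fun hk => by
  have h1 : ∃ k, v k = w := ⟨k, hk⟩
  unfold ixv at h
  rw [dif_pos h1] at h
  exact absurd h (by simp)

end ix

section rc

variable {p N : ℕ} {P : Type} [Group P] {hp : p.Prime} {c : CL p N P} {M : ℕ} {V : Type}

/-- the recoloured configuration -/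
def rc (f : V → Option (Px c)) (v : Fin M → V) (w : V) : Option (Px (cO hp c M)) :=
  (f w).map fun a => mkx a (ixv v w)

theorem rc_of {f : V → Option (Px c)} {v : Fin M → V} (hv : Function.Injective v) (k : Fin M) :
    rc (hp := hp) f v (v k) = (f (v k)).map fun a => mkx a (some k) := by
  unfold rc
  rw [ixv_of hv]

theorem rc_ne {f : V → Option (Px c)} {v : Fin M → V} {w : V} (h : ∀ k, v k ≠ w) :
    rc (hp := hp) f v w = (f w).map fun a => mkx a none := by
  unfold rc
  rw [ixv_ne h]

theorem rc_fs (f : V → Option (Px c)) (v : Fin M → V) (w : V) :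
    (rc (hp := hp) f v w).map fs = f w := by
  unfold rc
  rw [Option.map_map]
  cases f w with
  | none => rfl
  | some a => rfl

theorem rc_ow {f : V → Option (Px c)} {v : Fin M → V} {w : V} {x : Px (cO hp c M)}
    (h : rc (hp := hp) f v w = some x) : ow x = ixv v w := by
  unfold rc at h
  cases hf : f w with
  | none =>
    rw [hf] at h
    exact absurd h (by simp)
  | some a =>
    rw [hf] at h
    have h1 : mkx a (ixv v w) = x := Option.some_injective _ h
    rw [← h1, ow_mkx]

theorem rc_none {f : V → Option (Px c)} {v : Fin M → V} {w : V} :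
    rc (hp := hp) f v w = none ↔ f w = none := Option.map_eq_none_iff

theorem sp_rc (Z : Finset V) (f : V → Option (Px c)) (v : Fin M → V) :
    sp Z (rc (hp := hp) f v) = sp Z f := by
  ext w
  rw [mem_sp, mem_sp]
  exact and_congr_right fun _ => not_congr rc_none

theorem rc_cf [Fintype (Px c)] [Fintype (Px (cO hp c M))] {Z : Finset V} {f : V → Option (Px c)}
    (hf : f ∈ Cf Z (Px c)) (v : Fin M → V) : rc (hp := hp) f v ∈ Cf Z (Px (cO hp c M)) := by
  rw [mem_cf] at hf ⊢
  intro w hw
  exact rc_none.2 (hf w hw)

theorem rc_up (f : V → Option (Px c)) {v : Fin M → V} (hv : Function.Injective v)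
    (a : Fin M → Px c) :
    rc (hp := hp) (up f v a) v = up (fun w => (f w).map fun a => mkx a none) v fun k => mkx (a k) (some k) := by
  funext w
  by_cases h : ∃ k, v k = w
  · obtain ⟨k, rfl⟩ := h
    rw [rc_of hv, up_of f v a hv k, up_of _ v _ hv k]
    rfl
  · push Not at h
    rw [rc_ne h, up_ne f v a w h, up_ne _ v _ w h]

end rc

end H93.OW
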