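import Pool.Agent.H93.OW.Bxs
import Pool.Agent.H35.OW.Pat

/-!
# [H93 OW BXT] MP_b39724_nt, THEOREM OW, (b7): `BxF2` from the cell identity

`bxf2_ci`: `G₁`, `X₁` the data with own letters (group `P₁`, class list `c₁`, group `S₁`), `X₁.E = X.E`, the same large split primes; if the summand of `BxF2` has a cell identity (`CI` of H93/OW/Bxs) for every
fixed part `b`, then `BxF2` holds, from BLG.
-/

set_option autoImplicit false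

open scoped NumberField commutatorElement
open IsDedekindDomain
open scoped Classical

noncomputable section

namespace H93.OW

open H63.MA H38.BB H38.BG H57.PC H57.BRA H77.WD H77.WE H77.PC3 H35.CF H35.UB H77.S3 H71.S3 H1.S3
  H93.BY H24.RK H73.S3 H73.OW H35.OW

attribute [local instance 50] Fintype.ofFinite

variable {K : Type} [Field K] [NumberField K] {Ω : Type} [Field Ω] [Algebra K Ω]
  {p N : ℕ} {ζ : K} {D : RD0 K p ζ} {Q : DP K Ω} {A : GS D Ω} {P : Type} [Group P]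
  {c : CL p N P} {S : Type} [Group S] [MulDistribMulAction P S] {d n : ℕ}
  {N' : ℕ} {P₁ : Type} [Group P₁] {c' : CL p N' P₁} {S₁ : Type} [Group S₁]
  [MulDistribMulAction P₁ S₁]

/-- the summand of `BxF2` for the fixed part `b` and the labels `l` -/
def sm2 (G : SG c S) (B : SD D Q A) (X : FD A P S) (W : WF A) {q : ℕ} (T : ℝ) (Zc : Finset (Pl K))
    (hx : ∀ f : Pl K → Option (Px c), (adf G B X W T Zc f).Jf → Du S q (d + 1) × Du S q (d + 1 + 1))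
    (Bf : ∀ i j : ℕ, Gr S i →+ Gr S j →+ ZMod q) (a : Fin n → Px c) (M : ℕ)
    (τ₀ : V0 B X → S) (e₀ : H73.S3.J0 X → El2 S P q d) (l : Fin n → Elb2 c S q d)
    (b : Pl K → Option (Elb2 c S q d)) (v : Fin n → Pl K) : ℂ :=
  if Rp G B X W T Zc a (xeG ((0, 0), 1) X e₀) (up b v l) v ∧
      Cn2 G B X W T Zc hx M (xeG ((0, 0), 1) X e₀) (up b v l) then
    FX2 G B X W T Zc hx Bf (xt0 B X τ₀) (xeG ((0, 0), 1) X e₀) (up b v l) else 0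

theorem bxf2_ci [IsAlgClosure K Ω] [Fintype S] [Fintype P] [Finite S₁] [Finite P₁] (hp : p.Prime)
    (hζ : IsPrimitiveRoot ζ p) {κ mm c₁ N₁ : ℕ} {z : K} [NeZero (p ^ κ)] (B : SD D Q A)
    (hB : BLG D Ω Q A B κ mm c₁ N₁ z) (G : SG c S) (G₁ : SG c' S₁) (hS : IsPGroup p S₁)
    (hP : IsPGroup p P₁) (hq : ∀ s : S₁, s ^ p ^ κ = 1) (hn : n + 1 ≤ mm) (hg : A.g ≤ c₁)
    (h1 : Nat.card S₁ * (Nat.card P₁ * Nat.card (Du S₁ (p ^ κ) (n + 1 + 1))) ≤ mm)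
    (h2 : Nat.card (Px c') * Nat.card (Du S₁ (p ^ κ) (n + 1)) ≤ mm) (g : ℕ) (L C₁ A' ε : ℝ)
    (hL : 1 ≤ L) (hε : 0 < ε) :
    ∃ C₂ : ℕ, ∀ C' : ℕ, ∃ Y₀ : ℝ, ∀ Y : ℝ, Y₀ ≤ Y → ∀ (k Mw : ℕ) (X₁ : FD A P₁ S₁) (W : WF A)
      (T : ℝ), BxH G₁ B X₁ W κ mm N₁ z C₁ C₂ C' ε Y k Mw T → ∀ X : FD A P S, X.E = X₁.E →
      (∀ v, PPc X W T v ↔ PPc X₁ W T v) →
      ∀ (hx : ∀ f : Pl K → Option (Px c), (adf G B X W T (Zg D W.Z X.E) f).Jf →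
          Du S (p ^ κ) (d + 1) × Du S (p ^ κ) (d + 1 + 1))
        (Bf : ∀ i j : ℕ, Gr S i →+ Gr S j →+ ZMod (p ^ κ)) (a : Fin (n + 1 + 1) → Px c) (M : ℕ),
      (∀ (τ₀ : V0 B X → S) (e₀ : H73.S3.J0 X → El2 S P (p ^ κ) d)
        (l : Fin (n + 1 + 1) → Elb2 c S (p ^ κ) d),
        ∀ b ∈ (Cf (Zg D W.Z X.E) (Elb2 c S (p ^ κ) d)).filter (fun b =>
          nr (sp (Zg D W.Z X.E) b) ≤ Y ^ C₁ ∧
          ((sp (Zg D W.Z X.E) b).card : ℝ) ≤ C₁ * (1 + Real.log (Real.log Y))),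
        CI G₁ B X₁ W T (Zg D W.Z X.E) (p ^ κ) n L g b
          (sm2 G B X W T (Zg D W.Z X.E) hx Bf a M τ₀ e₀ l b)) →
      BxF2 G B X W T (Zg D W.Z X.E) hx Bf a M C₁ A' Y := by
  obtain ⟨C₂, hC₂⟩ := bxs hp hζ B hB G₁ hS hP hq hn hg h1 h2
    (Fintype.card (Elb2 c S (p ^ κ) d)) g L C₁ A' ε hL hε
  refine ⟨C₂, fun C' => ?_⟩
  obtain ⟨Y₀, hY₀⟩ := hC₂ C'
  refine ⟨Y₀, fun Y hY k Mw X₁ W T hH X hE hpp hx Bf a M hCI => ?_⟩
  unfold BxF2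
  intro τ₀ e₀ l lo hi hlh
  have h3 := hCI τ₀ e₀ l
  have hpe : PPc X W T = PPc X₁ W T := funext fun v => propext (hpp v)
  have hmain := hY₀ Y hY k Mw X₁ W T hH (Elb2 c S (p ^ κ) d) le_rfl
    (sm2 G B X W T (Zg D W.Z X.E) hx Bf a M τ₀ e₀ l) (by
      rw [← hE]
      exact h3) lo hi hlh
  rw [← hE, ← hpe] at hmain
  exact hmain

end H93.OW
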