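import Pool.Agent.H93.OW.Obt
import Pool.Agent.H48.OW.Cls
import Pool.Agent.H70.OW.Cfx
import Pool.Agent.H1.OW.Cel

/-!
# [H93 OW COD] MP_b39724_nt, THEOREM OW, S4: the code of a tuple of places

`f = up b v l`, `xq` the values of the words of the configuration with own letters (H48/OW/Cls).
* `cod .. v`: the order type and the killed values (`KL {k}ᶜ`), at the fixed letters and at the places `v i` (`k ≠ i`). `cod_iff`: equal codes = same class `Cel`.
* `cod_card`: the number of codes. `cod_mis`: the indicator of a class is a product of factors which miss a variable.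
* `gq_up`, `tq_v`, `tq_f`: the letters with own index and the conjugators.
-/

set_option autoImplicit false

open scoped NumberField commutatorElement
open IsDedekindDomain
open scoped Classical

noncomputable section

namespace H93.OW

open H63.MA H38.BB H38.BG H57.PC H57.BRA H77.WD H77.WE H77.PC3 H35.CF H35.UB H77.S3 H71.S3 H1.S3
  H73.S3 H73.OW H35.OW H82.S3 H12.OW H48.OW
open H93.BX (Mis)

attribute [local instance 50] Fintype.ofFinite

variable {K : Type} [Field K] [NumberField K] {Ω : Type} [Field Ω] [Algebra K Ω]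
  {p N : ℕ} {ζ : K} {D : RD0 K p ζ} {Q : DP K Ω} {A : GS D Ω} {P : Type} [Group P] {hp : p.Prime}
  {c : CL p N P} {Pa : Par} {q d : ℕ}

theorem lf2_up {S : Type} [Group S] [MulDistribMulAction P S] {V : Type} {m : ℕ}
    (b : V → Option (Elb2 c S q d)) (v : Fin m → V) (l : Fin m → Elb2 c S q d) :
    (fun w => (up b v l w).map fun a => a.1) = up (fun w => (b w).map fun a => a.1) v
      fun k => (l k).1 := funext fun _ => H70.OW.map_up _ _ _ _ _

/-- the letters with own index -/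
theorem gq_up (b : Pl K → Option (Elb2 c (Sp Pa (Px c)) q d)) {v : Fin (d + 1) → Pl K}
    (hv : Function.Injective v) (l : Fin (d + 1) → Elb2 c (Sp Pa (Px c)) q d) :
    gq hp (up b v l) v = up (r0 hp c (d + 1) (lf2 b)) v fun k => mkx (l k).1 (some k) := by
  have h1 : lf2 (up b v l) = up (lf2 b) v fun k => (l k).1 := lf2_up b v l
  unfold gq
  rw [h1]
  exact rc_up (hp := hp) (lf2 b) hv fun k => (l k).1

theorem tq_v (τ₀ : Pl K → Sp Pa (Px c)) (b : Pl K → Option (Elb2 c (Sp Pa (Px c)) q d))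
    {v : Fin (d + 1) → Pl K} (hv : Function.Injective v)
    (l : Fin (d + 1) → Elb2 c (Sp Pa (Px c)) q d) (k : Fin (d + 1)) :
    tq hp τ₀ (up b v l) (v k) = (owl hp c (d + 1)).inc Pa (l k).2.1 := by
  unfold tq tf2
  rw [up_of b v l hv k]
  rfl

theorem tq_f (τ₀ : Pl K → Sp Pa (Px c)) (b : Pl K → Option (Elb2 c (Sp Pa (Px c)) q d))
    {v : Fin (d + 1) → Pl K} (l : Fin (d + 1) → Elb2 c (Sp Pa (Px c)) q d) {w : Pl K}
    (hw : ∀ k, v k ≠ w) :
    tq hp τ₀ (up b v l) w = (owl hp c (d + 1)).inc Pa (tf2 τ₀ b w) := by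
  unfold tq tf2
  rw [H35.CF.up_ne b v l w hw]

theorem sp_b1 (Zc : Finset (Pl K)) (b : Pl K → Option (Elb2 c (Sp Pa (Px c)) q d)) :
    sp Zc (r0 hp c (d + 1) (lf2 b)) = sp Zc b := by
  rw [sp_r0]
  ext w
  rw [mem_sp, mem_sp]
  refine and_congr_right fun _ => not_congr ?_
  show (b w).map _ = none ↔ _
  rw [Option.map_eq_none_iff]

variable (G' : SG (cO hp c (d + 1)) (So hp c (d + 1) Pa)) (B : SD D Q A)
  (X : FD A P (Sp Pa (Px c))) (W : WF A) (T : ℝ) (Zc : Finset (Pl K)) (τ₀ : Pl K → Sp Pa (Px c))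
  (b : Pl K → Option (Elb2 c (Sp Pa (Px c)) q d)) (l : Fin (d + 1) → Elb2 c (Sp Pa (Px c)) q d)

/-- the fixed letters -/
def Jx (A : GS D Ω) {Λ : Type} (E Zc : Finset (Pl K)) (b : Pl K → Option Λ) :
    Finset (Pl K ⊕ Fin A.g) := (sp Zc b ∪ E).disjSum Finset.univ

/-- the codes -/
abbrev Cdo (hp : p.Prime) (A : GS D Ω) (c : CL p N P) (Pa : Par) (E Zc : Finset (Pl K)) (d : ℕ)
    {Λ : Type} (b : Pl K → Option Λ) : Type :=
  ((Fx D E Zc b → Fin (d + 1) → Prop) × (Fin (d + 1) → Fin (d + 1) → Prop)) ×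
    ((Jx A E Zc b → Fin (d + 1) → SP (So hp c (d + 1) Pa) (P × Ci p (d + 1))) ×
      (Fin (d + 1) → Fin (d + 1) → SP (So hp c (d + 1) Pa) (P × Ci p (d + 1))))

/-- the code of a tuple -/
def cod (v : Fin (d + 1) → Pl K) : Cdo hp A c Pa X.E Zc d b :=
  (oc W.l (Fx D X.E Zc b) v,
    fun j k => KL hp c (d + 1) Pa {k}ᶜ (xq G' B X W T Zc τ₀ (up b v l) v j),
    fun i k => if k ≠ i then
      KL hp c (d + 1) Pa {k}ᶜ (xq G' B X W T Zc τ₀ (up b v l) v (Sum.inl (v i))) else 1)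

/-- equal codes: the same class -/
theorem cod_iff (v v' : Fin (d + 1) → Pl K) :
    cod G' B X W T Zc τ₀ b l v' = cod G' B X W T Zc τ₀ b l v ↔
      Cel (hp := hp) G' B X W T Zc τ₀ b l v v' := by
  constructor
  · intro h
    have h1 := congrArg Prod.fst h
    have h2 := congrArg (fun x : Cdo hp A c Pa X.E Zc d b => x.2.1) h
    have h3 := congrArg (fun x : Cdo hp A c Pa X.E Zc d b => x.2.2) h
    refine ⟨⟨fun w hw k => ?_, fun k j => ?_⟩, fun j hj k => ?_, fun i k hik => ?_⟩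
    · exact (oc_fix h1 (mem_fx.2 hw) k).symm
    · exact (oc_var h1 k j).symm
    · exact (congrFun (congrFun h2 ⟨j, hj⟩) k).symm
    · have h4 := congrFun (congrFun h3 i) k
      simp only [cod, if_pos hik] at h4
      exact h4.symm
  · intro h
    unfold cod
    refine Prod.ext ?_ (Prod.ext ?_ ?_)
    · refine Prod.ext (funext fun w => funext fun k => propext ?_)
        (funext fun i => funext fun j => propext ?_)
      · exact (h.ob.1 w (mem_fx.1 w.2) k).symm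
      · exact (h.ob.2 i j).symm
    · exact funext fun j => funext fun k => (h.fx j j.2 k).symm
    · refine funext fun i => funext fun k => ?_
      show (if k ≠ i then _ else _) = (if k ≠ i then _ else _)
      by_cases hik : k ≠ i
      · rw [if_pos hik, if_pos hik]
        exact (h.vr i k hik).symm
      · rw [if_neg hik, if_neg hik]

/-- equal codes, the order -/
theorem cel_oc {G' : SG (cO hp c (d + 1)) (So hp c (d + 1) Pa)} {B : SD D Q A}
    {X : FD A P (Sp Pa (Px c))} {W : WF A} {T : ℝ} {Zc : Finset (Pl K)} {τ₀ : Pl K → Sp Pa (Px c)}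
    {b : Pl K → Option (Elb2 c (Sp Pa (Px c)) q d)} {l : Fin (d + 1) → Elb2 c (Sp Pa (Px c)) q d}
    {v v' : Fin (d + 1) → Pl K} (h : Cel (hp := hp) G' B X W T Zc τ₀ b l v v') :
    oc W.l (Fx D X.E Zc b) v = oc W.l (Fx D X.E Zc b) v' :=
  congrArg Prod.fst ((cod_iff G' B X W T Zc τ₀ b l v v').2 h).symm

theorem cel_refl (v : Fin (d + 1) → Pl K) : Cel (hp := hp) G' B X W T Zc τ₀ b l v v :=
  (cod_iff G' B X W T Zc τ₀ b l v v).1 rfl

/-- the indicator of a class -/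
theorem cod_mis (hG' : ∀ x, G'.y x = sy Pa x) (hd : 2 ≤ d) (hZE : Disjoint Zc X.E)
    (h0 : ∀ v ∈ Zc, v ∉ D.S0) (v₀ : Fin (d + 1) → Pl K) :
    ∃ h : Fin (d + 1) → (Fin (d + 1) → Pl K) → ℂ, Mis h ∧
      ∀ v ∈ H35.CF.Fr Zc (PPc X W T) b (d + 1),
        ∏ k, h k v = if cod G' B X W T Zc τ₀ b l v = cod G' B X W T Zc τ₀ b l v₀ then 1 else 0 := by
  obtain ⟨h1, m1, e1⟩ := oc_mis (by omega : 3 ≤ d + 1) W.l (Fx D X.E Zc b)
    (oc W.l (Fx D X.E Zc b) v₀)
  have hfr : H35.CF.Fr Zc (PPc X W T) (r0 hp c (d + 1) (lf2 b)) (d + 1) =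
      H35.CF.Fr Zc (PPc X W T) b (d + 1) := fr_sps Zc (PPc X W T) _ _ (sp_b1 Zc b) (d + 1)
  obtain ⟨h2, m2, e2⟩ := H1.OW.cel_mis (G' := G') (B := B) (X' := fdo hp c (d + 1) X) (W := W)
    (T := T) (Zc := Zc) hG' hZE h0 (PPc X W T) (r0 hp c (d + 1) (lf2 b))
    (fun k => mkx (l k).1 (some k)) (fun k => ow_mkx _ _)
    (fun w => (owl hp c (d + 1)).inc Pa (tf2 τ₀ b w)) (fun k => (owl hp c (d + 1)).inc Pa (l k).2.1)
    (fun v => tq hp τ₀ (up b v l))
    (fun v hv k => tq_v τ₀ b (mem_fr.1 hv).2 l k)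
    (fun v hv w hw => tq_f τ₀ b l hw)
    (xq G' B X W T Zc τ₀ (up b v₀ l) v₀)
    (fun i => xq G' B X W T Zc τ₀ (up b v₀ l) v₀ (Sum.inl (v₀ i)))
  rw [hfr] at e2
  refine ⟨fun k x => h1 k x * h2 k x, mis_mul m1 m2, fun v hv => ?_⟩
  have hvi := (mem_fr.1 hv).2
  have hY : adf G' B (fdo hp c (d + 1) X) W T Zc
      (up (r0 hp c (d + 1) (lf2 b)) v fun k => mkx (l k).1 (some k)) =
      Yq G' B X W T Zc (up b v l) v := by
    show _ = adf G' B (fdo hp c (d + 1) X) W T Zc (gq hp (up b v l) v)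
    rw [gq_up b hvi l]
  have hJ : (adf G' B (fdo hp c (d + 1) X) W T Zc (r0 hp c (d + 1) (lf2 b))).Jf =
      Jx A X.E Zc b := by
    show (sp Zc (r0 hp c (d + 1) (lf2 b)) ∪ X.E).disjSum Finset.univ = _
    rw [sp_b1]
    rfl
  rw [Finset.prod_mul_distrib, e1, e2 v hv, hY, H1.OW.ind]
  by_cases h3 : Cel (hp := hp) G' B X W T Zc τ₀ b l v₀ v
  · have h4 : cod G' B X W T Zc τ₀ b l v = cod G' B X W T Zc τ₀ b l v₀ :=
      (cod_iff G' B X W T Zc τ₀ b l v₀ v).2 h3
    have h5 : oc W.l (Fx D X.E Zc b) v = oc W.l (Fx D X.E Zc b) v₀ := congrArg Prod.fst h4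
    rw [if_pos h4, if_pos h5, if_pos, one_mul]
    unfold H1.OW.Icl
    rw [hJ]
    exact ⟨fun j hj k => (h3.fx j hj k).symm, fun i k hik => (h3.vr i k hik).symm⟩
  · have h4 : ¬cod G' B X W T Zc τ₀ b l v = cod G' B X W T Zc τ₀ b l v₀ := fun h =>
      h3 ((cod_iff G' B X W T Zc τ₀ b l v₀ v).1 h)
    rw [if_neg h4]
    by_cases h5 : oc W.l (Fx D X.E Zc b) v = oc W.l (Fx D X.E Zc b) v₀
    · rw [if_pos h5, if_neg, mul_zero]
      unfold H1.OW.Icl
      rw [hJ]
      rintro ⟨h6, h7⟩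
      refine h3 ⟨⟨fun w hw k => ?_, fun k j => ?_⟩, fun j hj k => (h6 j hj k).symm,
        fun i k hik => (h7 i k hik).symm⟩
      · exact (oc_fix h5 (mem_fx.2 hw) k).symm
      · exact (oc_var h5 k j).symm
    · rw [if_neg h5, zero_mul]

/-- the number of codes -/
theorem cod_card [Finite (SP (So hp c (d + 1) Pa) (P × Ci p (d + 1)))] (U : ℝ) (hU : 1 ≤ U) :
    (Fintype.card (Cdo hp A c Pa X.E Zc d b) : ℝ) * (U ^ (sp Zc b).card * U ^ (d + 1)) ≤
      (2 ^ (d + 1) * (Nat.card (SP (So hp c (d + 1) Pa) (P × Ci p (d + 1))) : ℝ) ^ (d + 1) * U) ^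
        ((sp Zc b).card + X.E.card + (D.S0.card + A.g + (d + 1))) := by
  obtain ⟨C, hC⟩ : ∃ C : ℝ, C = Nat.card (SP (So hp c (d + 1) Pa) (P × Ci p (d + 1))) := ⟨_, rfl⟩
  have hC1 : 1 ≤ C := by
    rw [hC]
    exact_mod_cast Nat.card_pos
  have h1 : (Fintype.card (Cdo hp A c Pa X.E Zc d b) : ℝ) =
      ((2 ^ (d + 1)) ^ (Fx D X.E Zc b).card * (2 ^ (d + 1)) ^ (d + 1)) *
        ((C ^ (d + 1)) ^ (Jx A X.E Zc b).card * (C ^ (d + 1)) ^ (d + 1)) := by
    rw [hC, Nat.card_eq_fintype_card]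
    simp only [Fintype.card_prod, Fintype.card_fun, Fintype.card_prop, Fintype.card_coe,
      Fintype.card_fin]
    push_cast
    rfl
  have h2 : (Fx D X.E Zc b).card + (d + 1) ≤
      (sp Zc b).card + X.E.card + (D.S0.card + A.g + (d + 1)) := by
    have := fx_card (D := D) (E := X.E) (Zc := Zc) (b := b)
    omega
  have h3 : (Jx A X.E Zc b).card + (d + 1) ≤
      (sp Zc b).card + X.E.card + (D.S0.card + A.g + (d + 1)) := by
    unfold Jx
    rw [Finset.card_disjSum, Finset.card_univ, Fintype.card_fin]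
    have := Finset.card_union_le (sp Zc b) X.E
    omega
  have h4 : (sp Zc b).card + (d + 1) ≤
      (sp Zc b).card + X.E.card + (D.S0.card + A.g + (d + 1)) := by omega
  have p2 : (1 : ℝ) ≤ 2 ^ (d + 1) := one_le_pow₀ (by norm_num)
  have pC : (1 : ℝ) ≤ C ^ (d + 1) := one_le_pow₀ hC1
  rw [h1, ← hC, ← pow_add, ← pow_add, ← pow_add, mul_pow, mul_pow]
  exact mul_le_mul (mul_le_mul (pow_le_pow_right₀ p2 h2) (pow_le_pow_right₀ pC h3)
    (by positivity) (by positivity)) (pow_le_pow_right₀ hU h4) (by positivity) (by positivity)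

end H93.OW
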