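import Pool.Agent.H93.OW.Cig
import Pool.Agent.H93.OW.Bxt
import Pool.Agent.H93.OW.Cod
import Pool.Agent.H86.OW.Rsy
import Pool.Agent.H35.OW.Sy2

/-!
# [H93 OW CIA] MP_b39724_nt, THEOREM OW, S4: the cell identity `CI` of the summand `sm2` (sum over the classes of H48/OW/Cls)

`f = up b v l`. `trp v₀ v F`: the data `F` of the tuple `v₀` at the letters of the tuple `v`. `Eq0 .. f v`: the family `etq` and the classes `rp` of the values at `v`.
* `cn2_syg`, `cl_sym`, `rhc_cl`, `y_cl`: what is the same for the tuples of a class. `eq0_f`, `eq0_v`: the data `E`, `E'` of `cel_fx` (H70/OW/Cfx).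
* `ci_cel`: `CI` for `sm2`, from: `hfx` the cell identity (conclusion of `cel_fx` at `v` in the class of `v₀`, with `x0 = x0q v₀ v`, `η = trp v₀ v (etq v₀)`, `O2` = condition (O)),
  `hkx` existence of the crossed homomorphism, `hul` the tuple is not unlinked.
-/

set_option autoImplicit false

open scoped NumberField commutatorElement
open IsDedekindDomain
open scoped Classical

noncomputable section

namespace H93.OW

open H63.MA H38.BB H38.BG H57.PC H57.BRA H77.WD H77.WE H77.PC3 H35.CF H35.UB H77.S3 H71.S3 H1.S3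
  H93.BY H24.RK H73.S3 H73.OW H35.OW H82.S3 H12.OW H48.OW
open H70.OW (bO lO rhc)
open H93.BX (Mis)

attribute [local instance 50] Fintype.ofFinite

section tr

variable {V α : Type} {m g : ℕ}

/-- data at the letters for the tuple `v`, from data for the tuple `v₀` -/
def trp (v₀ v : Fin m → V) (F : V ⊕ Fin g → α) : V ⊕ Fin g → α :=
  Sum.elim (fun w => (ixv v w).elim (F (Sum.inl w)) fun k => F (Sum.inl (v₀ k)))
    fun i => F (Sum.inr i)

theorem trp_v {v₀ v : Fin m → V} (hv : Function.Injective v) (F : V ⊕ Fin g → α) (k : Fin m) :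
    trp v₀ v F (Sum.inl (v k)) = F (Sum.inl (v₀ k)) := by
  show (ixv v (v k)).elim _ _ = _
  rw [ixv_of hv]
  rfl

theorem trp_n {v₀ v : Fin m → V} (F : V ⊕ Fin g → α) {j : V ⊕ Fin g}
    (h : ∀ k, Sum.inl (v k) ≠ j) : trp v₀ v F j = F j := by
  rcases j with w | i
  · show (ixv v w).elim _ _ = _
    rw [ixv_ne fun k hk => h k (congrArg Sum.inl hk)]
    rfl
  · rfl

theorem trp_self {v : Fin m → V} (hv : Function.Injective v) (F : V ⊕ Fin g → α) :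
    trp v v F = F := by
  funext j
  by_cases h : ∃ k, Sum.inl (v k) = j
  · obtain ⟨k, rfl⟩ := h
    exact trp_v hv F k
  · exact trp_n F fun k hk => h ⟨k, hk⟩

end tr

section ks

variable {S P : Type} [Group S] [Group P] [MulDistribMulAction P S] {J V : Type} {q m : ℕ}

theorem kx_cast {X₁ X₂ : AD S P J V} (h : X₁ = X₂) (η : J → Du S q m × Du S q (m + 1))
    {k : FreeGroup J → Du S q (m + 1)} (hk : X₁.Kx (fun j : X₁.Jf => η j) k) :
    X₂.Kx (fun j : X₂.Jf => η j) k := by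
  subst h
  exact hk

end ks

section cn

variable {K : Type} [Field K] [NumberField K] {Ω : Type} [Field Ω] [Algebra K Ω]
  {p N : ℕ} {ζ : K} {D : RD0 K p ζ} {Q : DP K Ω} {A : GS D Ω} {P : Type} [Group P]
  {c : CL p N P} {S : Type} [Group S] [MulDistribMulAction P S] {q d n : ℕ}

/-- data which correspond -/
theorem trp_cor {E Zc : Finset (Pl K)} (hZE : Disjoint Zc E) {Λ : Type} {R : Pl K → Prop}
    {b : Pl K → Option Λ} {v₀ v : Fin n → Pl K} (hv : v ∈ H35.CF.Fr Zc R b n) {α : Type}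
    (F : Pl K ⊕ Fin A.g → α) : H86.OW.Cor A Zc E b v₀ v F (trp v₀ v F) where
  k k := trp_v (mem_fr.1 hv).2 F k
  f w hw := trp_n F fun k hk => by
    have h1 := (mem_fr.1 hv).1 k
    rw [Sum.inl_injective hk] at h1
    rcases hw with hw | hw
    · exact (mem_sp.1 hw).2 h1.2.2
    · exact Finset.disjoint_left.1 hZE h1.1 hw
  r _ := rfl

theorem cor_sp {E Zc : Finset (Pl K)} {Λ Λ' : Type} {b : Pl K → Option Λ} {b' : Pl K → Option Λ'}
    (h : sp Zc b = sp Zc b') {v₀ v : Fin n → Pl K} {α : Type} {F F' : Pl K ⊕ Fin A.g → α}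
    (hc : H86.OW.Cor A Zc E b v₀ v F F') : H86.OW.Cor A Zc E b' v₀ v F F' where
  k := hc.k
  f w hw := hc.f w (by rw [h]; exact hw)
  r := hc.r

variable {X : FD A P S} {W : WF A} {T : ℝ} {Zc : Finset (Pl K)}
  {f₁ f₂ : Pl K → Option (Elb2 c S q d)} {s : Equiv.Perm (Pl K)}

/-- the conditions on the labels are preserved -/
theorem cn2_syg (h : SyG X W T Zc f₁ f₂ s) (G : SG c S) (B : SD D Q A)
    (hx : ∀ f : Pl K → Option (Px c), (adf G B X W T Zc f).Jf → Du S q (d + 1) × Du S q (d + 1 + 1))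
    (hh : Hxn G B X W T Zc hx) (M : ℕ) (e₀ : Pl K ⊕ Fin A.g → El2 S P q d) :
    Cn2 G B X W T Zc hx M e₀ f₁ ↔ Cn2 G B X W T Zc hx M e₀ f₂ := by
  have ht : TrG (adx2 G B X W T Zc f₁) (adx2 G B X W T Zc f₂) (sgG A s) (tf2 (fun _ => 1) f₁)
      (tf2 (fun _ => 1) f₂) := h.trl G B fun _ => 1
  have hef : ∀ j ∈ (adx2 G B X W T Zc f₁).Jf, ef2 e₀ f₂ (sgG A s j) = ef2 e₀ f₁ j :=
    fun j hj => h.ef G B e₀ j hj
  have hζ : ∀ j, (adx2 G B X W T Zc f₂).et2 (ef2 e₀ f₂) (ejG ht j) =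
      (adx2 G B X W T Zc f₁).et2 (ef2 e₀ f₁) j := by
    intro j
    show (ef2 e₀ f₂ (sgG A s j)).1 = (ef2 e₀ f₁ j).1
    rw [hef j j.2]
  have c1 := ht.ff2 hζ
  have c2 : (adx2 G B X W T Zc f₂).rz ((adx2 G B X W T Zc f₂).et2 (ef2 e₀ f₂)) = hx (lf2 f₂) ↔
      (adx2 G B X W T Zc f₁).rz ((adx2 G B X W T Zc f₁).et2 (ef2 e₀ f₁)) = hx (lf2 f₁) := by
    have hn : ∀ j : (adx2 G B X W T Zc f₁).Jf, hx (lf2 f₂) (ejG ht j) = hx (lf2 f₁) j :=
      fun j => hh (lf2 f₁) (lf2 f₂) s h.lf j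
    constructor
    · intro h1
      funext j
      rw [← ht.rz hζ j, h1, hn j]
    · intro h1
      funext j
      obtain ⟨j, rfl⟩ := (ejG ht).surjective j
      rw [ht.rz hζ j, h1, hn j]
  have c3 : Rich X W T Zc M (lf2 f₁) ↔ Rich X W T Zc M (lf2 f₂) := h.lf.rich M
  unfold Cn2
  exact and_congr c1.symm (and_congr c2.symm c3)

end cn

variable {K : Type} [Field K] [NumberField K] {Ω : Type} [Field Ω] [Algebra K Ω]
  {p N : ℕ} {ζ : K} {D : RD0 K p ζ} {Q : DP K Ω} {A : GS D Ω} {P : Type} [Group P] {hp : p.Prime}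
  {c : CL p N P} {Pa : Par} {q d n : ℕ}

section cls

variable {G : SG c (Sp Pa (Px c))} {G' : SG (cO hp c (d + 1)) (So hp c (d + 1) Pa)} {B : SD D Q A}
  {X : FD A P (Sp Pa (Px c))} {W : WF A} {T : ℝ} {Zc : Finset (Pl K)}
  {b : Pl K → Option (Elb2 c (Sp Pa (Px c)) q d)} {l : Fin (d + 1) → Elb2 c (Sp Pa (Px c)) q d}
  {v₀ v : Fin (d + 1) → Pl K}

theorem x0q_trp (τ₀ : Pl K → Sp Pa (Px c)) : x0q G' B X W T Zc τ₀ b l v₀ v =
    trp v₀ v (xq G' B X W T Zc τ₀ (up b v₀ l) v₀) := by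
  funext j
  rcases j with w | i
  · rfl
  · rfl

/-- the symmetries of a class -/
theorem cl_sym (hZc : Zc ⊆ W.Z) (hZs : ∀ v ∈ W.Z, v ∉ D.S0) (hnd : W.l.Nodup)
    (hlz : ∀ v, v ∈ W.l ↔ v ∈ W.Z ∨ v ∈ D.S0) (hZE : Disjoint Zc X.E)
    (hv₀ : v₀ ∈ H35.CF.Fr Zc (PPc X W T) b (d + 1)) (hv : v ∈ H35.CF.Fr Zc (PPc X W T) b (d + 1))
    (ho : oc W.l (Fx D X.E Zc b) v₀ = oc W.l (Fx D X.E Zc b) v) :
    ∃ s : Equiv.Perm (Pl K), (∀ k, s (v₀ k) = v k) ∧ (∀ w ∈ sp Zc b, s w = w) ∧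
      SyG X W T Zc (up b v₀ l) (up b v l) s ∧
      SyG X W T Zc (up (r0 hp c (d + 1) (lf2 b)) v₀ fun k => mkx (l k).1 (some k))
        (up (r0 hp c (d + 1) (lf2 b)) v fun k => mkx (l k).1 (some k)) s := by
  obtain ⟨h1, h2⟩ := mem_fr.1 hv₀
  obtain ⟨h3, h4⟩ := mem_fr.1 hv
  obtain ⟨s, hs⟩ := sps_ex v₀ v h2 h4
  refine ⟨s, hs.k, fun w hw => ?_, sy_bit X W T Zc hZc hZs hnd hlz hZE l b v₀ v hv₀ hv ho hs, ?_⟩
  · refine hs.o w (fun k hk => ?_) fun k hk => ?_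
    · exact (mem_sp.1 hw).2 (hk ▸ (h1 k).2.2)
    · exact (mem_sp.1 hw).2 (hk ▸ (h3 k).2.2)
  · have hsp : sp Zc b = sp Zc (r0 hp c (d + 1) (lf2 b)) := (sp_b1 Zc b).symm
    rw [fr_sps Zc (PPc X W T) _ _ hsp (d + 1)] at hv hv₀
    rw [fx_sp (D := D) (E := X.E) hsp] at ho
    exact sy_bit X W T Zc hZc hZs hnd hlz hZE _ _ v₀ v hv₀ hv ho hs

/-- the data of the letters correspond -/
theorem ef2_cor (hZE : Disjoint Zc X.E) (hv₀ : v₀ ∈ H35.CF.Fr Zc (PPc X W T) b (d + 1))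
    (hv : v ∈ H35.CF.Fr Zc (PPc X W T) b (d + 1)) (e : Pl K ⊕ Fin A.g → El2 (Sp Pa (Px c)) P q d) :
    H86.OW.Cor A Zc X.E b v₀ v (ef2 e (up b v₀ l)) (ef2 e (up b v l)) where
  k k := by
    show (up b v l (v k)).elim _ _ = (up b v₀ l (v₀ k)).elim _ _
    rw [up_of b v l (mem_fr.1 hv).2 k, up_of b v₀ l (mem_fr.1 hv₀).2 k]
    rfl
  f w hw := by
    have hne : ∀ v ∈ H35.CF.Fr Zc (PPc X W T) b (d + 1), ∀ k, v k ≠ w := by
      intro v hv k hk
      have h1 := (mem_fr.1 hv).1 k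
      rw [hk] at h1
      rcases hw with hw | hw
      · exact (mem_sp.1 hw).2 h1.2.2
      · exact Finset.disjoint_left.1 hZE h1.1 hw
    show (up b v l w).elim _ _ = (up b v₀ l w).elim _ _
    rw [H35.CF.up_ne b v l w (hne v hv), H35.CF.up_ne b v₀ l w (hne v₀ hv₀)]
  r _ := rfl

/-- the constant of a class -/
theorem rhc_cl (hZc : Zc ⊆ W.Z) (hZs : ∀ v ∈ W.Z, v ∉ D.S0) (hnd : W.l.Nodup)
    (hlz : ∀ v, v ∈ W.l ↔ v ∈ W.Z ∨ v ∈ D.S0) (hZE : Disjoint Zc X.E)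
    (hv₀ : v₀ ∈ H35.CF.Fr Zc (PPc X W T) b (d + 1)) (hv : v ∈ H35.CF.Fr Zc (PPc X W T) b (d + 1))
    (ho : oc W.l (Fx D X.E Zc b) v₀ = oc W.l (Fx D X.E Zc b) v)
    (psi : So hp c (d + 1) Pa → ZMod q) (τ : Pl K → Sp Pa (Px c))
    (e : Pl K ⊕ Fin A.g → El2 (Sp Pa (Px c)) P q d)
    (η : Pl K ⊕ Fin A.g → Du (So hp c (d + 1) Pa) q d × Du (So hp c (d + 1) Pa) q (d + 1)) :
    rhc (adx2 G B X W T Zc (up b v l)) (Yq G' B X W T Zc (up b v l) v) (EV hp c (d + 1) Pa) psi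
      (tq hp τ (up b v l)) (x0q G' B X W T Zc τ b l v₀ v) (ef2 e (up b v l)) (trp v₀ v η) =
    rhc (adx2 G B X W T Zc (up b v₀ l)) (Yq G' B X W T Zc (up b v₀ l) v₀) (EV hp c (d + 1) Pa) psi
      (tq hp τ (up b v₀ l)) (xq G' B X W T Zc τ (up b v₀ l) v₀) (ef2 e (up b v₀ l)) η := by
  obtain ⟨s, s1, s2, h1, h2⟩ := cl_sym (hp := hp) (l := l) hZc hZs hnd hlz hZE hv₀ hv ho
  have hsp : sp Zc b = sp Zc (r0 hp c (d + 1) (lf2 b)) := (sp_b1 Zc b).symm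
  have hne : ∀ v ∈ H35.CF.Fr Zc (PPc X W T) b (d + 1), ∀ w, (w ∈ sp Zc b ∨ w ∈ X.E ∨ w ∈ D.S0) →
      ∀ k, v k ≠ w := by
    intro v hv w hw k hk
    have h1 := (mem_fr.1 hv).1 k
    rw [hk] at h1
    rcases hw with hw | hw | hw
    · exact (mem_sp.1 hw).2 h1.2.2
    · exact Finset.disjoint_left.1 hZE h1.1 hw
    · exact hZs w (hZc h1.1) hw
  refine H86.OW.rhc_syg h2 s1 (by rw [← hsp]; exact s2) psi (fun k => ?_) (fun w hw => ?_)
    (by rw [x0q_trp]; exact cor_sp hsp (trp_cor hZE hv _)) (cor_sp hsp (ef2_cor hZE hv₀ hv e))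
    (cor_sp hsp (trp_cor hZE hv η)) (gq_up b (mem_fr.1 hv₀).2 l) (gq_up b (mem_fr.1 hv).2 l)
    (fe_gq _ _).symm (fe_gq _ _).symm
  · rw [tq_v τ b (mem_fr.1 hv).2 l, tq_v τ b (mem_fr.1 hv₀).2 l]
  · rw [← hsp] at hw
    rw [tq_f τ b l (hne v hv w hw), tq_f τ b l (hne v₀ hv₀ w hw)]

/-- the letter of a place of the tuple -/
theorem y_v (hZE : Disjoint Zc X.E) (hv : v ∈ H35.CF.Fr Zc (PPc X W T) b (d + 1))
    (k : Fin (d + 1)) : (Yq G' B X W T Zc (up b v l) v).y (Sum.inl (v k)) =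
      G'.y (mkx (l k).1 (some k)) := by
  obtain ⟨h1, h2⟩ := mem_fr.1 hv
  have h3 : (Yq G' B X W T Zc (up b v l) v).t (Sum.inl (v k)) =
      il (G'.y (mkx (l k).1 (some k))) := by
    show (if v k ∈ X.E then (⟨(fdo hp c (d + 1) X).sv (v k), (fdo hp c (d + 1) X).φ
        (W.L.t (v k))⟩ : SP (So hp c (d + 1) Pa) (P × Ci p (d + 1))) else
      (if v k ∈ Zc then gq hp (up b v l) v (v k) else none).elim 1 fun s => il (G'.y s)) = _
    rw [if_neg (Finset.disjoint_left.1 hZE (h1 k).1), if_pos (h1 k).1, gq_up b h2 l, up_of _ _ _ h2]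
    rfl
  unfold AD.y
  rw [h3]
  rfl

/-- the letter of a fixed place -/
theorem y_f (hv₀ : v₀ ∈ H35.CF.Fr Zc (PPc X W T) b (d + 1))
    (hv : v ∈ H35.CF.Fr Zc (PPc X W T) b (d + 1)) {w : Pl K} (hw : w ∈ sp Zc b) :
    (Yq G' B X W T Zc (up b v l) v).y (Sum.inl w) =
      (Yq G' B X W T Zc (up b v₀ l) v₀).y (Sum.inl w) := by
  have hne : ∀ v ∈ H35.CF.Fr Zc (PPc X W T) b (d + 1), ∀ k, v k ≠ w := fun v hv k hk =>
    (mem_sp.1 hw).2 (hk ▸ ((mem_fr.1 hv).1 k).2.2)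
  have h3 : gq hp (up b v l) v w = gq hp (up b v₀ l) v₀ w := by
    rw [gq_up b (mem_fr.1 hv).2 l, gq_up b (mem_fr.1 hv₀).2 l,
      H35.CF.up_ne _ _ _ w (hne v hv), H35.CF.up_ne _ _ _ w (hne v₀ hv₀)]
  unfold AD.y
  congr 1
  show (if w ∈ X.E then (⟨(fdo hp c (d + 1) X).sv w, (fdo hp c (d + 1) X).φ (W.L.t w)⟩ :
      SP (So hp c (d + 1) Pa) (P × Ci p (d + 1))) else
      (if w ∈ Zc then gq hp (up b v l) v w else none).elim 1 fun s => il (G'.y s)) =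
    (if w ∈ X.E then (⟨(fdo hp c (d + 1) X).sv w, (fdo hp c (d + 1) X).φ (W.L.t w)⟩ :
      SP (So hp c (d + 1) Pa) (P × Ci p (d + 1))) else
      (if w ∈ Zc then gq hp (up b v₀ l) v₀ w else none).elim 1 fun s => il (G'.y s))
  rw [h3]

/-- `pp` at the places of the tuple -/
theorem pp_v (hv : v ∈ H35.CF.Fr Zc (PPc X W T) b (d + 1)) (k : Fin (d + 1)) :
    (Yq G' B X W T Zc (up b v l) v).pp (Sum.inl (v k)) := by
  obtain ⟨h1, h2⟩ := mem_fr.1 hv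
  refine ⟨?_, (ppo X W T _).2 (h1 k).2.1⟩
  rw [mem_sp, gq_up b h2 l, up_of _ _ _ h2]
  exact ⟨(h1 k).1, Option.some_ne_none _⟩

/-- `pp` at the fixed letters -/
theorem pp_f (hv : v ∈ H35.CF.Fr Zc (PPc X W T) b (d + 1)) {j : Pl K ⊕ Fin A.g}
    (hj : ∀ k, Sum.inl (v k) ≠ j) : (Yq G' B X W T Zc (up b v l) v).pp j ↔
      (adf G' B (fdo hp c (d + 1) X) W T Zc (r0 hp c (d + 1) (lf2 b))).pp j := by
  rcases j with w | i
  · show w ∈ sp Zc (gq hp (up b v l) v) ∧ _ ↔ w ∈ sp Zc (r0 hp c (d + 1) (lf2 b)) ∧ _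
    refine and_congr_left fun _ => ?_
    rw [mem_sp, mem_sp, gq_up b (mem_fr.1 hv).2 l,
      H35.CF.up_ne _ _ _ w fun k hk => hj k (congrArg Sum.inl hk)]
  · exact Iff.rfl

end cls

/-- the data of the letters of the class of `v₀` -/
def Eq0 (G' : SG (cO hp c (n + 1 + 1)) (So hp c (n + 1 + 1) Pa)) (B : SD D Q A)
    (X : FD A P (Sp Pa (Px c))) (W : WF A) (T : ℝ) (Zc : Finset (Pl K))
    (psi : So hp c (n + 1 + 1) Pa → ZMod q) (τ₀ : Pl K → Sp Pa (Px c))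
    (e₀ : Pl K ⊕ Fin A.g → El2 (Sp Pa (Px c)) P q (n + 1))
    (f : Pl K → Option (Elb2 c (Sp Pa (Px c)) q (n + 1))) (v : Fin (n + 1 + 1) → Pl K)
    (j : Pl K ⊕ Fin A.g) : El (So hp c (n + 1 + 1) Pa) (P × Ci p (n + 1 + 1)) q (n + 1) :=
  (etq G' B X W T Zc psi τ₀ e₀ f v j,
    rp (if (Yq G' B X W T Zc f v).pp j then n + 1 else n + 1 + 1) (xq G' B X W T Zc τ₀ f v j))

section eq

variable {G' : SG (cO hp c (n + 1 + 1)) (So hp c (n + 1 + 1) Pa)} {B : SD D Q A}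
  {X : FD A P (Sp Pa (Px c))} {W : WF A} {T : ℝ} {Zc : Finset (Pl K)}
  {psi : So hp c (n + 1 + 1) Pa → ZMod q} {τ : Pl K → Sp Pa (Px c)}
  {e : Pl K ⊕ Fin A.g → El2 (Sp Pa (Px c)) P q (n + 1)}
  {b : Pl K → Option (Elb2 c (Sp Pa (Px c)) q (n + 1))}
  {l : Fin (n + 1 + 1) → Elb2 c (Sp Pa (Px c)) q (n + 1)}
  {v₀ v : Fin (n + 1 + 1) → Pl K}

/-- the living letters outside of the tuple are fixed -/
theorem jf_fix (hZE : Disjoint Zc X.E) (hv₀ : v₀ ∈ H35.CF.Fr Zc (PPc X W T) b (n + 1 + 1))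
    (hv : v ∈ H35.CF.Fr Zc (PPc X W T) b (n + 1 + 1)) {j : Pl K ⊕ Fin A.g}
    (hj : j ∈ (Yq G' B X W T Zc (up b v l) v).Jf) (hk : ∀ k, Sum.inl (v k) ≠ j) :
    ∀ k, Sum.inl (v₀ k) ≠ j := by
  rintro k rfl
  have h0 := (mem_fr.1 hv₀).1 k
  have h1 : (Sum.inl (v₀ k) : Pl K ⊕ Fin A.g) ∈
      (sp Zc (gq hp (up b v l) v) ∪ X.E).disjSum (Finset.univ : Finset (Fin A.g)) := hj
  rw [Finset.inl_mem_disjSum, Finset.mem_union, mem_sp, gq_up b (mem_fr.1 hv).2 l,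
    H35.CF.up_ne _ _ _ _ fun i hi => hk i (congrArg Sum.inl hi)] at h1
  rcases h1 with h1 | h1
  · refine h1.2 ?_
    rw [r0_none]
    show (b (v₀ k)).map _ = none
    rw [h0.2.2]
    rfl
  · exact Finset.disjoint_left.1 hZE h0.1 h1

/-- the data `E` of `cel_fx` -/
theorem eq0_f (hZE : Disjoint Zc X.E) (hv₀ : v₀ ∈ H35.CF.Fr Zc (PPc X W T) b (n + 1 + 1))
    (hv : v ∈ H35.CF.Fr Zc (PPc X W T) b (n + 1 + 1)) {j : Pl K ⊕ Fin A.g}
    (hj : j ∈ (Yq G' B X W T Zc (up b v l) v).Jf) (hk : ∀ k, Sum.inl (v k) ≠ j) :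
    Eq0 G' B X W T Zc psi τ e (up b v₀ l) v₀ j =
      (trp v₀ v (etq G' B X W T Zc psi τ e (up b v₀ l) v₀) j,
        rp (if (Yq G' B X W T Zc (up b v l) v).pp j then n + 1 else n + 1 + 1)
          (x0q G' B X W T Zc τ b l v₀ v j)) := by
  have hk0 := jf_fix hZE hv₀ hv hj hk
  rw [x0q_trp, trp_n _ hk, trp_n _ hk]
  unfold Eq0
  simp only [pp_f hv hk, pp_f hv₀ hk0]

/-- the data `E'` of `cel_fx` -/
theorem eq0_v (hv₀ : v₀ ∈ H35.CF.Fr Zc (PPc X W T) b (n + 1 + 1))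
    (hv : v ∈ H35.CF.Fr Zc (PPc X W T) b (n + 1 + 1)) (k : Fin (n + 1 + 1)) :
    Eq0 G' B X W T Zc psi τ e (up b v₀ l) v₀ (Sum.inl (v₀ k)) =
      (trp v₀ v (etq G' B X W T Zc psi τ e (up b v₀ l) v₀) (Sum.inl (v k)),
        rp (n + 1) (x0q G' B X W T Zc τ b l v₀ v (Sum.inl (v k)))) := by
  rw [x0q_trp, trp_v (mem_fr.1 hv).2, trp_v (mem_fr.1 hv).2]
  unfold Eq0
  rw [if_pos (pp_v hv₀ k)]

/-- the crossed homomorphism of the configuration with own letters -/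
theorem gdb_bl [NeZero q] (hZE : Disjoint Zc X.E) (hv₀ : v₀ ∈ H35.CF.Fr Zc (PPc X W T) b (n + 1 + 1))
    (hk : ∃ k, (Yq G' B X W T Zc (up b v₀ l) v₀).Kx
      (fun j => etq G' B X W T Zc psi τ e (up b v₀ l) v₀ j) k)
    (κ : Pl K → Du (So hp c (n + 1 + 1) Pa) q (n + 1 + 1))
    (κ' : Fin (n + 1 + 1) → Du (So hp c (n + 1 + 1) Pa) q (n + 1 + 1))
    (E : Pl K ⊕ Fin A.g → El (So hp c (n + 1 + 1) Pa) (P × Ci p (n + 1 + 1)) q (n + 1))
    (hE : E = Eq0 G' B X W T Zc psi τ e (up b v₀ l) v₀)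
    (E' : Fin (n + 1 + 1) → El (So hp c (n + 1 + 1) Pa) (P × Ci p (n + 1 + 1)) q (n + 1))
    (hE' : ∀ k, E' k = E (Sum.inl (v₀ k)))
    {τ' : Pl K → So hp c (n + 1 + 1) Pa}
    (hv : v ∈ H35.CF.Fr Zc (PPc X W T) b (n + 1 + 1))
    (hne : FX G' B (fdo hp c (n + 1 + 1) X) W T Zc τ' E
      (up (bO hp c (n + 1 + 1) Pa b E κ) v (lO hp c (n + 1 + 1) Pa l E' κ')) ≠ 0) :
    Gdb G' B (fdo hp c (n + 1 + 1) X) W T Zc E
      ((adx G' B (fdo hp c (n + 1 + 1) X) W T Zc (bO hp c (n + 1 + 1) Pa b E κ)).Qp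
        (kx G' B (fdo hp c (n + 1 + 1) X) W T Zc E (bO hp c (n + 1 + 1) Pa b E κ)))
      (bO hp c (n + 1 + 1) Pa b E κ) := by
  obtain ⟨b', hb'⟩ : ∃ b', b' = bO hp c (n + 1 + 1) Pa b E κ := ⟨_, rfl⟩
  obtain ⟨l', hl'⟩ : ∃ l', l' = lO hp c (n + 1 + 1) Pa l E' κ' := ⟨_, rfl⟩
  have hsp : sp Zc b = sp Zc b' := by
    ext w
    rw [mem_sp, mem_sp, hb']
    refine and_congr_right fun _ => not_congr ?_
    unfold bO
    exact Option.map_eq_none_iff.symm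
  have hPP : PPc (fdo hp c (n + 1 + 1) X) W T = PPc X W T := funext fun w => propext (ppo X W T w)
  have hfr : H35.CF.Fr Zc (PPc X W T) b (n + 1 + 1) =
      H35.CF.Fr Zc (PPc (fdo hp c (n + 1 + 1) X) W T) b' (n + 1 + 1) := by
    rw [hPP]
    exact fr_sps Zc (PPc X W T) _ _ hsp _
  have hv' := hv
  have hv₀' := hv₀
  rw [hfr] at hv' hv₀'
  have hvi := (mem_fr.1 hv).2
  have hvi₀ := (mem_fr.1 hv₀).2
  -- the crossed homomorphism at `v₀`
  obtain ⟨η, hη⟩ : ∃ η, η = etq G' B X W T Zc psi τ e (up b v₀ l) v₀ := ⟨_, rfl⟩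
  have hlf : lf (up b' v₀ l') = gq hp (up b v₀ l) v₀ := by
    rw [hb', hl']
    exact H70.OW.lf_bl b E κ hvi₀ l E' κ'
  have hef : ∀ j, (ef E (up b' v₀ l') j).1 = η j := by
    intro j
    rw [hb', hl']
    by_cases h : ∃ k, Sum.inl (v₀ k) = j
    · obtain ⟨k, rfl⟩ := h
      rw [H70.OW.ef_v b E κ hvi₀ l E' κ', hE', hE, hη]
      rfl
    · rw [H70.OW.ef_b b E κ l E' κ' j fun k hk => h ⟨k, hk⟩, hE, hη]
      rfl
  have hkx0 : kx G' B (fdo hp c (n + 1 + 1) X) W T Zc E (up b' v₀ l') =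
      (Yq G' B X W T Zc (up b v₀ l) v₀).kk fun j => η j :=
    H70.OW.kx_eq G' B (fdo hp c (n + 1 + 1) X) W T Zc E hlf fun j _ => hef j
  have hK0 : (adx G' B (fdo hp c (n + 1 + 1) X) W T Zc (up b' v₀ l')).Kx
      ((adx G' B (fdo hp c (n + 1 + 1) X) W T Zc (up b' v₀ l')).et (ef E (up b' v₀ l')))
      (kx G' B (fdo hp c (n + 1 + 1) X) W T Zc E (up b' v₀ l')) := by
    have h1 : ∃ k, (adx G' B (fdo hp c (n + 1 + 1) X) W T Zc (up b' v₀ l')).Kx
        ((adx G' B (fdo hp c (n + 1 + 1) X) W T Zc (up b' v₀ l')).et (ef E (up b' v₀ l'))) k := by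
      obtain ⟨k, hk⟩ := hk
      refine ⟨k, ?_⟩
      have h2 : (adx G' B (fdo hp c (n + 1 + 1) X) W T Zc (up b' v₀ l')).et
          (ef E (up b' v₀ l')) =
          fun j : (adx G' B (fdo hp c (n + 1 + 1) X) W T Zc (up b' v₀ l')).Jf => η j :=
        funext fun j => hef j
      have h3 : Yq G' B X W T Zc (up b v₀ l) v₀ =
          adx G' B (fdo hp c (n + 1 + 1) X) W T Zc (up b' v₀ l') := by
        show _ = adf _ _ _ _ _ _ (lf _)
        rw [hlf]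
      rw [h2, hη]
      exact kx_cast h3 _ hk
    unfold kx AD.kk
    rw [dif_pos h1]
    exact h1.choose_spec
  have hK1 := (kx_iff G' B (fdo hp c (n + 1 + 1) X) W T Zc hZE E l' b' v₀ hv₀' _).1 hK0
  rw [kx_up G' B (fdo hp c (n + 1 + 1) X) W T Zc hZE E l' b' v₀ hv₀'] at hK1
  rw [← hb', ← hl'] at hne
  rw [← hb']
  refine ⟨hK1, ?_, ?_, rfl⟩
  · have h1 : ∀ w ∈ W.l, kx G' B (fdo hp c (n + 1 + 1) X) W T Zc E (up b' v l') (wd FreeGroup.of
        (adx G' B (fdo hp c (n + 1 + 1) X) W T Zc (up b' v l')).W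
        ((adx G' B (fdo hp c (n + 1 + 1) X) W T Zc (up b' v l')).bl w)) = 0 := by
      by_contra hc
      refine hne ?_
      unfold FX
      rw [if_neg]
      exact fun hh => hc hh.1
    rw [kx_up G' B (fdo hp c (n + 1 + 1) X) W T Zc hZE E l' b' v hv'] at h1
    exact h1
  · have h1 : ∀ w ∈ sp Zc (up b' v l'), H73.S3.kf (up b' v l') w =
        if PPc (fdo hp c (n + 1 + 1) X) W T w then
          kx G' B (fdo hp c (n + 1 + 1) X) W T Zc E (up b' v l') (W.Wv w) else 0 := by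
      by_contra hc
      refine hne ?_
      unfold FX
      rw [if_neg]
      exact fun hh => hc hh.2
    intro w hw hpp
    have hne' : ∀ k, v k ≠ w := by
      rintro k rfl
      exact (mem_sp.1 hw).2 ((mem_fr.1 hv').1 k).2.2
    have h2 : up b' v l' w = b' w := H35.CF.up_ne b' v l' w hne'
    have h3 := h1 w (by
      rw [mem_sp, h2]
      exact mem_sp.1 hw)
    rw [if_neg hpp] at h3
    unfold H73.S3.kf at h3 ⊢
    rw [h2] at h3
    exact h3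

end eq

/-- the cell identity of `sm2` -/
theorem ci_cel [Finite P] [NeZero q] [Finite (So hp c (n + 1 + 1) Pa)] {G : SG c (Sp Pa (Px c))}
    {G' : SG (cO hp c (n + 1 + 1)) (So hp c (n + 1 + 1) Pa)}
    (hG' : ∀ x, G'.y x = sy Pa x) (hn : 1 ≤ n) (B : SD D Q A)
    (X : FD A P (Sp Pa (Px c))) (W : WF A) (T : ℝ) (Zc : Finset (Pl K)) (hZc : Zc ⊆ W.Z)
    (hZs : ∀ v ∈ W.Z, v ∉ D.S0) (hnd : W.l.Nodup) (hlz : ∀ v, v ∈ W.l ↔ v ∈ W.Z ∨ v ∈ D.S0)
    (hZE : Disjoint Zc X.E)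
    (hx : ∀ f : Pl K → Option (Px c), (adf G B X W T Zc f).Jf →
      Du (Sp Pa (Px c)) q (n + 1 + 1) × Du (Sp Pa (Px c)) q (n + 1 + 1 + 1))
    (hxn : Hxn G B X W T Zc hx)
    (Bf : ∀ i j : ℕ, Gr (Sp Pa (Px c)) i →+ Gr (Sp Pa (Px c)) j →+ ZMod q)
    (a : Fin (n + 1 + 1) → Px c) (M : ℕ) (psi : So hp c (n + 1 + 1) Pa → ZMod q)
    (τ₀ : V0 B X → Sp Pa (Px c)) (e₀ : H73.S3.J0 X → El2 (Sp Pa (Px c)) P q (n + 1))
    (l : Fin (n + 1 + 1) → Elb2 c (Sp Pa (Px c)) q (n + 1))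
    (b : Pl K → Option (Elb2 c (Sp Pa (Px c)) q (n + 1)))
    (τ : Pl K → Sp Pa (Px c)) (hτ : τ = xt0 B X τ₀)
    (e : Pl K ⊕ Fin A.g → El2 (Sp Pa (Px c)) P q (n + 1)) (he : e = xeG ((0, 0), 1) X e₀)
    (hfx : ∀ v₀ ∈ H35.CF.Fr Zc (PPc X W T) b (n + 1 + 1),
      ∀ v ∈ H35.CF.Fr Zc (PPc X W T) b (n + 1 + 1),
      Cel (hp := hp) G' B X W T Zc τ b l v₀ v →
      Rp G B X W T Zc a e (up b v l) v → Cn2 G B X W T Zc hx M e (up b v l) →
      FX2 G B X W T Zc hx Bf τ e (up b v l) =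
        ∑ κ : sp Zc b → Du (So hp c (n + 1 + 1) Pa) q (n + 1 + 1),
          ∑ κ' : Fin (n + 1 + 1) → Du (So hp c (n + 1 + 1) Pa) q (n + 1 + 1),
          (if (adx2 G B X W T Zc (up b v l)).rz
                ((adx2 G B X W T Zc (up b v l)).et2 (ef2 e (up b v l))) = hx (lf2 (up b v l)) ∧
              (∀ w : sp Zc b, PPc X W T w → ∀ z : Gr (So hp c (n + 1 + 1) Pa) (n + 1),
                (κ w).ap (br (n + 1) ((Yq G' B X W T Zc (up b v l) v).y (Sum.inl w)) z) = 0) ∧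
              ∀ k, ∀ z : Gr (So hp c (n + 1 + 1) Pa) (n + 1),
                (κ' k).ap (br (n + 1) ((Yq G' B X W T Zc (up b v l) v).y (Sum.inl (v k))) z) = 0
            then rhc (adx2 G B X W T Zc (up b v l)) (Yq G' B X W T Zc (up b v l) v)
              (EV hp c (n + 1 + 1) Pa) psi (tq hp τ (up b v l))
              (x0q G' B X W T Zc τ b l v₀ v) (ef2 e (up b v l))
              (trp v₀ v (etq G' B X W T Zc psi τ e (up b v₀ l) v₀)) else 0) *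
          FX G' B (fdo hp c (n + 1 + 1) X) W T Zc (fun w => (owl hp c (n + 1 + 1)).inc Pa (τ w))
            (Eq0 G' B X W T Zc psi τ e (up b v₀ l) v₀)
            (up (bO hp c (n + 1 + 1) Pa b (Eq0 G' B X W T Zc psi τ e (up b v₀ l) v₀)
              (k0 (sp Zc b) κ)) v
              (lO hp c (n + 1 + 1) Pa l (fun k => Eq0 G' B X W T Zc psi τ e (up b v₀ l) v₀
                (Sum.inl (v₀ k))) κ')))
    (hkx : ∀ v ∈ H35.CF.Fr Zc (PPc X W T) b (n + 1 + 1),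
      Rp G B X W T Zc a e (up b v l) v → Cn2 G B X W T Zc hx M e (up b v l) →
      ∃ k, (Yq G' B X W T Zc (up b v l) v).Kx
        (fun j => etq G' B X W T Zc psi τ e (up b v l) v j) k)
    (hul : ∀ v ∈ H35.CF.Fr Zc (PPc X W T) b (n + 1 + 1),
      Rp G B X W T Zc a e (up b v l) v → Cn2 G B X W T Zc hx M e (up b v l) →
      ∀ Qs : Subgroup (Sd (P × Ci p (n + 1 + 1)) (Du (So hp c (n + 1 + 1) Pa) q (n + 1 + 1))),
        ¬Ulk Qs (fun k => G'.y (mkx (l k).1 (some k)))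
          fun k => (etq G' B X W T Zc psi τ e (up b v l) v (Sum.inl (v k))).1) :
    CI G' B (fdo hp c (n + 1 + 1) X) W T Zc q n
      (2 ^ (n + 1 + 1) *
        (Nat.card (SP (So hp c (n + 1 + 1) Pa) (P × Ci p (n + 1 + 1))) : ℝ) ^ (n + 1 + 1) *
        Nat.card (Du (So hp c (n + 1 + 1) Pa) q (n + 1 + 1))) (D.S0.card + A.g + (n + 1 + 1)) b
      (sm2 G B X W T Zc hx Bf a M τ₀ e₀ l b) := by
  have hpn : NeZero p := ⟨hp.ne_zero⟩
  have hfin : Finite (SP (So hp c (n + 1 + 1) Pa) (P × Ci p (n + 1 + 1))) :=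
    Finite.of_injective (fun x => (x.left, x.right)) fun x y h =>
      SemidirectProduct.ext (congrArg Prod.fst h) (congrArg Prod.snd h)
  have hPP : PPc (fdo hp c (n + 1 + 1) X) W T = PPc X W T := funext fun w => propext (ppo X W T w)
  refine ci_gen G' B (fdo hp c (n + 1 + 1) X) W T Zc q n _ _ b _
    (Cdo (D := D) hp A c Pa X.E Zc (n + 1) b)
    ((sp Zc b → Du (So hp c (n + 1 + 1) Pa) q (n + 1 + 1)) ×
      (Fin (n + 1 + 1) → Du (So hp c (n + 1 + 1) Pa) q (n + 1 + 1)))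
    (cod G' B X W T Zc τ b l) ?_ ?_ ?_
  · have h1 := cod_card (hp := hp) (D := D) (A := A) (c := c) (Pa := Pa) X Zc (d := n + 1) b
      (Nat.card (Du (So hp c (n + 1 + 1) Pa) q (n + 1 + 1)) : ℝ) (by exact_mod_cast Nat.card_pos)
    refine le_trans (le_of_eq ?_) h1
    congr 1
    rw [Nat.card_eq_fintype_card]
    simp only [Fintype.card_prod, Fintype.card_fun, Fintype.card_coe, Fintype.card_fin]
    push_cast
    rfl
  · rw [hPP]
    intro v₀ _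
    obtain ⟨h, h1, h2⟩ := cod_mis G' B X W T Zc τ b l hG' (by omega) hZE
      (fun v hv => hZs v (hZc hv)) v₀
    refine ⟨h, h1, fun v hv => ?_⟩
    rw [h2 v hv]
    by_cases h3 : cod G' B X W T Zc τ b l v = cod G' B X W T Zc τ b l v₀
    · rw [if_pos h3, if_pos h3]
    · rw [if_neg h3, if_neg h3]
  · rw [hPP]
    intro v₀ hv₀
    obtain ⟨E, hE⟩ : ∃ E, E = Eq0 G' B X W T Zc psi τ e (up b v₀ l) v₀ := ⟨_, rfl⟩
    obtain ⟨E', hE'⟩ : ∃ E' : Fin (n + 1 + 1) → _, E' = fun k => E (Sum.inl (v₀ k)) := ⟨_, rfl⟩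
    obtain ⟨R0, hR0⟩ : ∃ R0 : ℂ, R0 = rhc (adx2 G B X W T Zc (up b v₀ l))
      (Yq G' B X W T Zc (up b v₀ l) v₀) (EV hp c (n + 1 + 1) Pa) psi (tq hp τ (up b v₀ l))
      (xq G' B X W T Zc τ (up b v₀ l) v₀) (ef2 e (up b v₀ l))
      (etq G' B X W T Zc psi τ e (up b v₀ l) v₀) := ⟨_, rfl⟩
    obtain ⟨Ok, hOk⟩ : ∃ Ok : (sp Zc b → Du (So hp c (n + 1 + 1) Pa) q (n + 1 + 1)) ×
      (Fin (n + 1 + 1) → Du (So hp c (n + 1 + 1) Pa) q (n + 1 + 1)) → Prop, ∀ κ, Ok κ ↔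
        (∀ w : sp Zc b, PPc X W T w → ∀ z : Gr (So hp c (n + 1 + 1) Pa) (n + 1),
          (κ.1 w).ap (br (n + 1) ((Yq G' B X W T Zc (up b v₀ l) v₀).y (Sum.inl w)) z) = 0) ∧
        ∀ k, ∀ z : Gr (So hp c (n + 1 + 1) Pa) (n + 1),
          (κ.2 k).ap (br (n + 1) (G'.y (mkx (l k).1 (some k))) z) = 0 := ⟨_, fun _ => Iff.rfl⟩
    refine ⟨fun κ =>
      { ρ := if (Rp G B X W T Zc a e (up b v₀ l) v₀ ∧ Cn2 G B X W T Zc hx M e (up b v₀ l)) ∧ Ok κ
          then R0 else 0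
        l := lO hp c (n + 1 + 1) Pa l E' κ.2
        b' := bO hp c (n + 1 + 1) Pa b E (k0 (sp Zc b) κ.1)
        τ := fun w => (owl hp c (n + 1 + 1)).inc Pa (τ w)
        e := E
        Qs := (adx G' B (fdo hp c (n + 1 + 1) X) W T Zc
          (bO hp c (n + 1 + 1) Pa b E (k0 (sp Zc b) κ.1))).Qp
            (kx G' B (fdo hp c (n + 1 + 1) X) W T Zc E
              (bO hp c (n + 1 + 1) Pa b E (k0 (sp Zc b) κ.1))) }, ?_, ?_⟩
    · intro κ
      constructor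
      · show ‖if _ then R0 else 0‖ ≤ 1
        split_ifs
        · rw [hR0]
          exact H70.OW.rhc_le _ _ _ _ _ _ _ _
        · rw [norm_zero]
          exact zero_le_one
      · intro h1 h2
        change (if _ then R0 else 0) ≠ 0 at h1
        obtain ⟨v, hv, -, hne⟩ := h2
        have h3 : (Rp G B X W T Zc a e (up b v₀ l) v₀ ∧ Cn2 G B X W T Zc hx M e (up b v₀ l)) ∧
            Ok κ := by
          by_contra hc
          exact h1 (if_neg hc)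
        obtain ⟨⟨h4, h5⟩, h6⟩ := h3
        refine ⟨?_, ?_, ?_, ?_⟩
        · show sp Zc (bO hp c (n + 1 + 1) Pa b E (k0 (sp Zc b) κ.1)) = sp Zc b
          ext w
          rw [mem_sp, mem_sp]
          refine and_congr_right fun _ => not_congr ?_
          unfold bO
          exact Option.map_eq_none_iff
        · exact gdb_bl hZE hv₀ (hkx v₀ hv₀ h4 h5) _ _ E hE E' (fun k => by rw [hE']) hv hne
        · have h7 := hul v₀ hv₀ h4 h5 ((adx G' B (fdo hp c (n + 1 + 1) X) W T Zc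
            (bO hp c (n + 1 + 1) Pa b E (k0 (sp Zc b) κ.1))).Qp
            (kx G' B (fdo hp c (n + 1 + 1) X) W T Zc E
              (bO hp c (n + 1 + 1) Pa b E (k0 (sp Zc b) κ.1))))
          rw [hE', hE] at *
          exact h7
        · exact ((hOk κ).1 h6).2
    · intro v hv hvc
      have hcel : Cel (hp := hp) G' B X W T Zc τ b l v₀ v :=
        (cod_iff G' B X W T Zc τ b l v₀ v).1 hvc
      obtain ⟨s, s1, s2, g1, g2⟩ := cl_sym (hp := hp) (l := l) hZc hZs hnd hlz hZE hv₀ hv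
        (cel_oc hcel)
      have hRp : Rp G B X W T Zc a e (up b v₀ l) v₀ ↔ Rp G B X W T Zc a e (up b v l) v := by
        have h1 := g1.rp G B a e v₀ fun k => by
          rw [mem_sp, up_of b v₀ l (mem_fr.1 hv₀).2 k]
          exact ⟨((mem_fr.1 hv₀).1 k).1, Option.some_ne_none _⟩
        rw [show (fun k => s (v₀ k)) = v from funext s1] at h1
        exact h1
      have hCn : Cn2 G B X W T Zc hx M e (up b v₀ l) ↔ Cn2 G B X W T Zc hx M e (up b v l) :=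
        cn2_syg g1 G B hx hxn M e
      show (if Rp G B X W T Zc a (xeG ((0, 0), 1) X e₀) (up b v l) v ∧
          Cn2 G B X W T Zc hx M (xeG ((0, 0), 1) X e₀) (up b v l) then
        FX2 G B X W T Zc hx Bf (xt0 B X τ₀) (xeG ((0, 0), 1) X e₀) (up b v l) else 0) = _
      rw [← he, ← hτ]
      by_cases hc : Rp G B X W T Zc a e (up b v l) v ∧ Cn2 G B X W T Zc hx M e (up b v l)
      · have hc0 : Rp G B X W T Zc a e (up b v₀ l) v₀ ∧ Cn2 G B X W T Zc hx M e (up b v₀ l) :=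
          ⟨hRp.2 hc.1, hCn.2 hc.2⟩
        rw [if_pos hc, hfx v₀ hv₀ v hv hcel hc.1 hc.2, Fintype.sum_prod_type]
        refine Finset.sum_congr rfl fun κ _ => Finset.sum_congr rfl fun κ' _ => ?_
        rw [rhc_cl hZc hZs hnd hlz hZE hv₀ hv (cel_oc hcel) psi τ e, ← hR0, ← hE]
        have hiff : ((adx2 G B X W T Zc (up b v l)).rz
            ((adx2 G B X W T Zc (up b v l)).et2 (ef2 e (up b v l))) = hx (lf2 (up b v l)) ∧
              (∀ w : sp Zc b, PPc X W T w → ∀ z : Gr (So hp c (n + 1 + 1) Pa) (n + 1),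
                (κ w).ap (br (n + 1) ((Yq G' B X W T Zc (up b v l) v).y (Sum.inl w)) z) = 0) ∧
              ∀ k, ∀ z : Gr (So hp c (n + 1 + 1) Pa) (n + 1),
                (κ' k).ap (br (n + 1) ((Yq G' B X W T Zc (up b v l) v).y (Sum.inl (v k))) z) = 0) ↔
            ((Rp G B X W T Zc a e (up b v₀ l) v₀ ∧ Cn2 G B X W T Zc hx M e (up b v₀ l)) ∧
              Ok (κ, κ')) := by
          rw [hOk]
          constructor
          · rintro ⟨-, h1, h2⟩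
            refine ⟨hc0, fun w hw z => ?_, fun k z => ?_⟩
            · have h3 := h1 w hw z
              rw [y_f hv₀ hv w.2] at h3
              exact h3
            · have h3 := h2 k z
              rw [y_v hZE hv k] at h3
              exact h3
          · rintro ⟨-, h1, h2⟩
            refine ⟨hc.2.2.1, fun w hw z => ?_, fun k z => ?_⟩
            · rw [y_f hv₀ hv w.2]
              exact h1 w hw z
            · rw [y_v hZE hv k]
              exact h2 k z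
        rw [hE']
        congr 1
        exact if_congr hiff rfl rfl
      · rw [if_neg hc]
        symm
        refine Finset.sum_eq_zero fun κ _ => ?_
        show (if _ then R0 else 0) * _ = 0
        rw [if_neg, zero_mul]
        exact fun h => hc ⟨hRp.1 h.1.1, hCn.1 h.1.2⟩

end H93.OW
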