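import Pool.Agent.H35.OW.Syg
import Pool.Agent.H93.OW.Rc
import Pool.Agent.H93.OW.Mis

/-!
# [H93 OW OBT] MP_b39724_nt, THEOREM OW: order types by positions

Norms may coincide, so the order type is read off the positions in the list of the places.
* `Sps v v' s`: the permutation `s` takes `v` to `v'` and fixes the places outside of `v`, `v'`. `sps_ex`: it exists.
* `oc l F v`: the order type of `v` in the list `l`, relative to the places of `F`. `oc_card`, `oc_mis`.
* `sy_bit`: equal order types relative to `Fx Zc b X` (the places of the support of `b`, of `E` and of `S0`) give a symmetry, for any labels.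
* `sy_rc`: the same for the recoloured configurations.
-/

set_option autoImplicit false

open scoped NumberField commutatorElement
open IsDedekindDomain
open scoped Classical

noncomputable section

namespace H93.OW

open H63.MA H38.BB H38.BG H57.PC H57.BRA H77.WD H77.WE H77.PC3 H35.CF H35.UB H77.S3 H71.S3 H1.S3
open H73.S3 H35.OW H48.OW
open H93.BX (Mis)

attribute [local instance 50] Fintype.ofFinite

section gen

variable {V : Type} {n : ℕ}

/-- the permutation takes `v` to `v'` and fixes the places outside -/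
structure Sps (v v' : Fin n → V) (s : Equiv.Perm V) : Prop where
  k : ∀ k, s (v k) = v' k
  o : ∀ w, (∀ k, v k ≠ w) → (∀ k, v' k ≠ w) → s w = w
  r : ∀ w, ((∃ k, v k = w) ∨ ∃ k, v' k = w) → ((∃ k, v k = s w) ∨ ∃ k, v' k = s w)

theorem sps_ex (v v' : Fin n → V) (hv : Function.Injective v) (hv' : Function.Injective v') :
    ∃ s, Sps v v' s := by
  obtain ⟨p, hp⟩ : ∃ p : V → Prop, ∀ w, p w ↔ ((∃ k, v k = w) ∨ ∃ k, v' k = w) :=
    ⟨_, fun w => Iff.rfl⟩
  let x : Fin n ↪ {w // p w} :=
    ⟨fun k => ⟨v k, (hp _).2 (Or.inl ⟨k, rfl⟩)⟩, fun i j hij => hv (congrArg Subtype.val hij)⟩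
  let y : Fin n ↪ {w // p w} :=
    ⟨fun k => ⟨v' k, (hp _).2 (Or.inr ⟨k, rfl⟩)⟩, fun i j hij => hv' (congrArg Subtype.val hij)⟩
  obtain ⟨g, hg⟩ := MulAction.isMultiplyPretransitive_iff.1
    (Equiv.Perm.isMultiplyPretransitive {w // p w} n) x y
  refine ⟨Equiv.Perm.ofSubtype g, fun k => ?_, fun w h1 h2 => ?_, fun w h => ?_⟩
  · show Equiv.Perm.ofSubtype g ((x k : {w // p w}) : V) = v' k
    rw [Equiv.Perm.ofSubtype_apply_of_mem g (x k).2]
    have h1 := DFunLike.congr_fun hg k
    exact congrArg Subtype.val h1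
  · refine Equiv.Perm.ofSubtype_apply_of_not_mem g fun h3 => ?_
    rcases (hp w).1 h3 with ⟨k, hk⟩ | ⟨k, hk⟩
    · exact h1 k hk
    · exact h2 k hk
  · rw [← hp] at h ⊢
    rw [Equiv.Perm.ofSubtype_apply_of_mem g h]
    exact (g ⟨w, h⟩).2

/-- the order type of `v` in the list `l` relative to the places of `F` -/
def oc (l : List V) (F : Finset V) (v : Fin n → V) : (F → Fin n → Prop) × (Fin n → Fin n → Prop) :=
  (fun w k => l.idxOf (w : V) < l.idxOf (v k), fun i j => l.idxOf (v i) < l.idxOf (v j))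

theorem oc_fix {l : List V} {F : Finset V} {v v' : Fin n → V} (h : oc l F v = oc l F v') {w : V}
    (hw : w ∈ F) (k : Fin n) : l.idxOf w < l.idxOf (v k) ↔ l.idxOf w < l.idxOf (v' k) :=
  iff_of_eq (congrFun (congrFun (congrArg Prod.fst h) ⟨w, hw⟩) k)

theorem oc_var {l : List V} {F : Finset V} {v v' : Fin n → V} (h : oc l F v = oc l F v')
    (i j : Fin n) : l.idxOf (v i) < l.idxOf (v j) ↔ l.idxOf (v' i) < l.idxOf (v' j) :=
  iff_of_eq (congrFun (congrFun (congrArg Prod.snd h) i) j)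

theorem oc_card (F : Finset V) (n : ℕ) :
    Fintype.card ((F → Fin n → Prop) × (Fin n → Fin n → Prop)) =
      (2 ^ n) ^ F.card * (2 ^ n) ^ n := by
  rw [Fintype.card_prod, Fintype.card_fun, Fintype.card_fun, Fintype.card_fun, Fintype.card_fun,
    Fintype.card_prop, Fintype.card_coe, Fintype.card_fin]

/-- the indicator of an order type is a product of factors which miss a variable -/
theorem oc_mis (hn : 3 ≤ n) (l : List V) (F : Finset V)
    (o : (F → Fin n → Prop) × (Fin n → Fin n → Prop)) :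
    ∃ h : Fin n → (Fin n → V) → ℂ, Mis h ∧
      ∀ x, ∏ k, h k x = if oc l F x = o then 1 else 0 := by
  obtain ⟨h, h1, h2⟩ := mis_ind (Finset.univ : Finset ((F × Fin n) ⊕ (Fin n × Fin n)))
    (Sum.elim (fun a => {a.2}) fun a => {a.1, a.2})
    (Sum.elim (fun a (x : Fin n → V) => (l.idxOf (a.1 : V) < l.idxOf (x a.2)) = o.1 a.1 a.2)
      fun a x => (l.idxOf (x a.1) < l.idxOf (x a.2)) = o.2 a.1 a.2)
    (by
      rintro (a | a) _
      · intro h
        exact pair_ne hn a.2 a.2 (by rw [Finset.pair_eq_singleton]; exact h)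
      · exact pair_ne hn a.1 a.2)
    (by
      rintro (a | a) _
      · exact dp_comp (ordf_dp l (a.1 : V) a.2) fun q => q = o.1 a.1 a.2
      · exact dp_comp (ord_dp l a.1 a.2) fun q => q = o.2 a.1 a.2)
  refine ⟨h, h1, fun x => ?_⟩
  rw [h2 x]
  by_cases h3 : oc l F x = o
  · rw [if_pos h3, if_pos]
    subst h3
    rintro (a | a) _
    · rfl
    · rfl
  · rw [if_neg h3, if_neg]
    intro h4
    refine h3 (Prod.ext (funext fun w => funext fun k => ?_)
      (funext fun i => funext fun j => ?_))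
    · exact h4 (Sum.inl (w, k)) (Finset.mem_univ _)
    · exact h4 (Sum.inr (i, j)) (Finset.mem_univ _)

private theorem ob_list (l : List V) (hl : l.Nodup) (p₁ p₂ : V → Prop)
    [DecidablePred p₁] [DecidablePred p₂] (s : Equiv.Perm V) (hp : ∀ w, p₂ (s w) ↔ p₁ w)
    (hm : ∀ w, p₁ w → (s w ∈ l ↔ w ∈ l))
    (hc : ∀ a ∈ l, ∀ b ∈ l, p₁ a → p₁ b → l.idxOf a < l.idxOf b → l.idxOf (s a) < l.idxOf (s b)) :
    (l.filter fun v => decide (p₂ v)) = (l.filter fun v => decide (p₁ v)).map s := by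
  have hi : l.Pairwise fun a b => l.idxOf a < l.idxOf b := by
    rw [List.pairwise_iff_getElem]
    intro i j hi hj hij
    rw [hl.idxOf_getElem, hl.idxOf_getElem]
    exact hij
  have hirr : Std.Irrefl fun a b : V => l.idxOf a < l.idxOf b := ⟨fun a => lt_irrefl _⟩
  have hant : Std.Antisymm fun a b : V => l.idxOf a < l.idxOf b :=
    ⟨fun a b h1 h2 => absurd h2 (lt_asymm h1)⟩
  refine List.Pairwise.eq_of_mem_iff (r := fun a b : V => l.idxOf a < l.idxOf b) (hi.filter _) ?_ ?_
  · rw [List.pairwise_map]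
    refine (hi.filter (fun v => decide (p₁ v))).imp_of_mem ?_
    intro a b ha hb hab
    rw [List.mem_filter, decide_eq_true_eq] at ha hb
    exact hc a ha.1 b hb.1 ha.2 hb.2 hab
  · intro a
    rw [List.mem_map]
    constructor
    · intro h
      rw [List.mem_filter, decide_eq_true_eq] at h
      have h1 : p₁ (s.symm a) := by
        rw [← hp, Equiv.apply_symm_apply]
        exact h.2
      refine ⟨s.symm a, ?_, s.apply_symm_apply a⟩
      rw [List.mem_filter, decide_eq_true_eq]
      refine ⟨?_, h1⟩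
      rw [← hm _ h1, Equiv.apply_symm_apply]
      exact h.1
    · rintro ⟨b, hb, rfl⟩
      rw [List.mem_filter, decide_eq_true_eq] at hb ⊢
      exact ⟨(hm b hb.2).2 hb.1, (hp b).2 hb.2⟩

end gen

theorem fr_sps {V Λ Λ' : Type} (Z : Finset V) (W : V → Prop) (b : V → Option Λ)
    (b' : V → Option Λ') (h : H35.CF.sp Z b = H35.CF.sp Z b') (m : ℕ) :
    H35.CF.Fr Z W b m = H35.CF.Fr Z W b' m := by
  have h1 : ∀ w ∈ Z, (b w = none ↔ b' w = none) := by
    intro w hw
    have h2 : w ∈ H35.CF.sp Z b ↔ w ∈ H35.CF.sp Z b' := by rw [h]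
    rw [mem_sp, mem_sp] at h2
    constructor
    · intro h3
      by_contra h4
      exact (h2.2 ⟨hw, h4⟩).2 h3
    · intro h3
      by_contra h4
      exact (h2.1 ⟨hw, h4⟩).2 h3
  unfold H35.CF.Fr
  congr 2
  funext _
  refine Finset.filter_congr fun w hw => ?_
  exact and_congr_right fun _ => h1 w hw

variable {K : Type} [Field K] [NumberField K] {Ω : Type} [Field Ω] [Algebra K Ω]
  {p N : ℕ} {ζ : K} {D : RD0 K p ζ} {A : GS D Ω} {P : Type} [Group P]
  {S : Type} [Group S] [MulDistribMulAction P S]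

/-- the fixed places: support of `b`, `E`, `S0` -/
def Fx {Λ : Type} (D : RD0 K p ζ) (E : Finset (Pl K)) (Zc : Finset (Pl K)) (b : Pl K → Option Λ) :
    Finset (Pl K) := H35.CF.sp Zc b ∪ E ∪ D.S0

theorem mem_fx {Λ : Type} {E Zc : Finset (Pl K)} {b : Pl K → Option Λ} {w : Pl K} :
    w ∈ Fx D E Zc b ↔ w ∈ H35.CF.sp Zc b ∨ w ∈ E ∨ w ∈ D.S0 := by
  unfold Fx
  rw [Finset.mem_union, Finset.mem_union, or_assoc]

theorem fx_sp {Λ Λ' : Type} {E Zc : Finset (Pl K)} {b : Pl K → Option Λ} {b' : Pl K → Option Λ'}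
    (h : H35.CF.sp Zc b = H35.CF.sp Zc b') : Fx D E Zc b = Fx D E Zc b' := by
  unfold Fx
  rw [h]

theorem fx_card {Λ : Type} {E Zc : Finset (Pl K)} {b : Pl K → Option Λ} :
    (Fx D E Zc b).card ≤ (H35.CF.sp Zc b).card + E.card + D.S0.card := by
  unfold Fx
  exact (Finset.card_union_le _ _).trans (Nat.add_le_add_right (Finset.card_union_le _ _) _)

omit [MulDistribMulAction P S] in
/-- equal order types give a symmetry -/
theorem sy_bit {Λ : Type} {n : ℕ}
    (X : FD A P S) (W : WF A) (T : ℝ) (Zc : Finset (Pl K)) (hZc : Zc ⊆ W.Z)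
    (hZs : ∀ v ∈ W.Z, v ∉ D.S0) (hnd : W.l.Nodup) (hlz : ∀ v, v ∈ W.l ↔ v ∈ W.Z ∨ v ∈ D.S0)
    (hZE : Disjoint Zc X.E)
    (l : Fin n → Λ)
    (b : Pl K → Option Λ) (v v' : Fin n → Pl K)
    (hv : v ∈ H35.CF.Fr Zc (PPc X W T) b n) (hv' : v' ∈ H35.CF.Fr Zc (PPc X W T) b n)
    (ho : oc W.l (Fx D X.E Zc b) v = oc W.l (Fx D X.E Zc b) v') {s : Equiv.Perm (Pl K)}
    (hs : Sps v v' s) : SyG X W T Zc (up b v l) (up b v' l) s := by
  have hfr : ∀ v ∈ H35.CF.Fr Zc (PPc X W T) b n, (∀ k, v k ∈ Zc ∧ PPc X W T (v k) ∧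
      b (v k) = none) ∧ Function.Injective v := by
    intro v hv
    unfold H35.CF.Fr at hv
    rw [Finset.mem_filter, Fintype.mem_piFinset] at hv
    exact ⟨fun k => Finset.mem_filter.1 (hv.1 k), hv.2⟩
  obtain ⟨a1, a2⟩ := hfr v hv
  obtain ⟨b1, b2⟩ := hfr v' hv'
  obtain ⟨s1, s2, s3⟩ := hs
  -- the places in `T`
  have hT : ∀ w, ((∃ k, v k = w) ∨ ∃ k, v' k = w) → w ∈ Zc ∧ PPc X W T w ∧ b w = none := by
    rintro w (⟨k, rfl⟩ | ⟨k, rfl⟩)
    · exact a1 k
    · exact b1 k
  have hF : ∀ w, ¬(w ∈ Zc ∧ PPc X W T w ∧ b w = none) → s w = w := by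
    intro w hw
    refine s2 w (fun k hk => hw (hT w (Or.inl ⟨k, hk⟩))) fun k hk => hw (hT w (Or.inr ⟨k, hk⟩))
  have hup : ∀ w, up b v' l (s w) = up b v l w := by
    intro w
    by_cases h1 : ∃ k, v k = w
    · obtain ⟨k, rfl⟩ := h1
      rw [s1, up_of b v' l b2 k, up_of b v l a2 k]
    · push Not at h1
      have h2 : ∀ k, v' k ≠ s w := fun k hk => h1 k (s.injective ((s1 k).trans hk))
      rw [up_ne b v' l _ h2, up_ne b v l _ h1]
      by_cases h3 : ∃ k, v' k = w
      · have h4 := hT w (Or.inr h3)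
        have h5 := hT (s w) (s3 w (Or.inr h3))
        rw [h4.2.2, h5.2.2]
      · push Not at h3
        rw [s2 w h1 h3]
  have hsz : ∀ w, (s w ∈ Zc ↔ w ∈ Zc) := by
    intro w
    by_cases h1 : (∃ k, v k = w) ∨ ∃ k, v' k = w
    · exact iff_of_true (hT _ (s3 w h1)).1 (hT w h1).1
    · push Not at h1
      rw [s2 w h1.1 h1.2]
  have hsp : ∀ w, w ∈ H35.CF.sp Zc (up b v l) → (∃ k, v k = w) ∨ w ∈ H35.CF.sp Zc b := by
    intro w hw
    by_cases h1 : ∃ k, v k = w
    · exact Or.inl h1
    · push Not at h1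
      rw [mem_sp, up_ne b v l _ h1] at hw
      exact Or.inr (mem_sp.2 hw)
  have hspb : ∀ w ∈ H35.CF.sp Zc b, s w = w := fun w hw =>
    hF w fun h1 => (mem_sp.1 hw).2 h1.2.2
  have hEf : ∀ w ∈ X.E, s w = w := fun w hw =>
    hF w fun h1 => Finset.disjoint_left.1 hZE h1.1 hw
  have hSf : ∀ w ∈ D.S0, s w = w := fun w hw => hF w fun h1 => hZs w (hZc h1.1) hw
  exact
    { f := hup
      z := hsz
      e := hEf
      s0 := hSf
      n := by
        intro w hw h1
        rcases hsp w hw with ⟨k, rfl⟩ | h2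
        · exact absurd (a1 k).2.1 h1
        · exact hspb w h2
      p := by
        intro w hw
        rcases hsp w hw with ⟨k, rfl⟩ | h2
        · rw [s1]
          exact iff_of_true (b1 k).2.1 (a1 k).2.1
        · rw [hspb w h2]
      l := by
        refine ob_list W.l hnd (fun w => w ∈ H35.CF.sp Zc (up b v l) ∨ w ∈ X.E ∨ w ∈ D.S0)
          (fun w => w ∈ H35.CF.sp Zc (up b v' l) ∨ w ∈ X.E ∨ w ∈ D.S0) s ?_ ?_ ?_
        · intro w
          refine or_congr ?_ (or_congr ?_ ?_)
          · rw [mem_sp, mem_sp, hsz, hup]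
          · constructor
            · intro h1
              have h2 := s.injective (hEf _ h1)
              rwa [h2] at h1
            · intro h1
              rw [hEf w h1]
              exact h1
          · constructor
            · intro h1
              have h2 := s.injective (hSf _ h1)
              rwa [h2] at h1
            · intro h1
              rw [hSf w h1]
              exact h1
        · rintro w (h1 | h1 | h1)
          · have h2 := (mem_sp.1 h1).1
            exact iff_of_true ((hlz _).2 (Or.inl (hZc ((hsz w).2 h2)))) ((hlz _).2 (Or.inl (hZc h2)))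
          · rw [hEf w h1]
          · rw [hSf w h1]
        · intro x hx y hy px py hxy
          have cs : ∀ w, (w ∈ H35.CF.sp Zc (up b v l) ∨ w ∈ X.E ∨ w ∈ D.S0) →
              (∃ k, v k = w) ∨ (w ∈ Fx D X.E Zc b ∧ s w = w) := by
            rintro w (h1 | h1 | h1)
            · rcases hsp w h1 with h2 | h2
              · exact Or.inl h2
              · exact Or.inr ⟨mem_fx.2 (Or.inl h2), hspb w h2⟩
            · exact Or.inr ⟨mem_fx.2 (Or.inr (Or.inl h1)), hEf w h1⟩
            · exact Or.inr ⟨mem_fx.2 (Or.inr (Or.inr h1)), hSf w h1⟩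
          rcases cs x px with ⟨i, rfl⟩ | ⟨h1, h2⟩
          · rcases cs y py with ⟨j, rfl⟩ | ⟨h3, h4⟩
            · rw [s1, s1]
              exact (oc_var ho i j).1 hxy
            · rw [s1, h4]
              have h5 := oc_fix ho h3 i
              have h6 : ¬W.l.idxOf y < W.l.idxOf (v' i) := fun h7 => by
                have h8 := h5.2 h7
                omega
              rcases lt_or_eq_of_le (not_lt.1 h6) with h7 | h7
              · exact h7
              · exfalso
                have h8 : v' i = y := (List.idxOf_inj ((hlz _).2 (Or.inl (hZc (b1 i).1)))).1 h7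
                rcases mem_fx.1 h3 with h9 | h9 | h9
                · exact (mem_sp.1 h9).2 (h8 ▸ (b1 i).2.2)
                · exact Finset.disjoint_left.1 hZE (b1 i).1 (h8 ▸ h9)
                · exact hZs _ (hZc (b1 i).1) (h8 ▸ h9)
          · rcases cs y py with ⟨j, rfl⟩ | ⟨h3, h4⟩
            · rw [s1, h2]
              exact (oc_fix ho h1 j).1 hxy
            · rw [h2, h4]
              exact hxy
      ze := hZE }

omit [MulDistribMulAction P S] in
/-- equal order types give a symmetry of the recoloured configurations -/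
theorem sy_rc {p' N' : ℕ} {P' : Type} [Group P'] {hp : p'.Prime} {c : CL p' N' P'} {M : ℕ}
    (X : FD A P S) (W : WF A) (T : ℝ) (Zc : Finset (Pl K)) (hZc : Zc ⊆ W.Z)
    (hZs : ∀ v ∈ W.Z, v ∉ D.S0) (hnd : W.l.Nodup) (hlz : ∀ v, v ∈ W.l ↔ v ∈ W.Z ∨ v ∈ D.S0)
    (hZE : Disjoint Zc X.E) (l : Fin M → Px c) (b : Pl K → Option (Px c)) (v v' : Fin M → Pl K)
    (hv : v ∈ H35.CF.Fr Zc (PPc X W T) b M) (hv' : v' ∈ H35.CF.Fr Zc (PPc X W T) b M)
    (ho : oc W.l (Fx D X.E Zc b) v = oc W.l (Fx D X.E Zc b) v') {s : Equiv.Perm (Pl K)}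
    (hs : Sps v v' s) :
    SyG X W T Zc (rc (hp := hp) (up b v l) v) (rc (hp := hp) (up b v' l) v') s := by
  have hvi : Function.Injective v := by
    unfold H35.CF.Fr at hv
    exact (Finset.mem_filter.1 hv).2
  have hvi' : Function.Injective v' := by
    unfold H35.CF.Fr at hv'
    exact (Finset.mem_filter.1 hv').2
  have h1 : H35.CF.sp Zc b =
      H35.CF.sp Zc (fun w => (b w).map fun a => (mkx a none : Px (H48.OW.cO hp c M))) := by
    ext w
    rw [mem_sp, mem_sp]
    exact and_congr_right fun _ => not_congr Option.map_eq_none_iff.symm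
  rw [rc_up b hvi l, rc_up b hvi' l]
  rw [fr_sps Zc (PPc X W T) _ _ h1 M] at hv hv'
  rw [fx_sp (D := D) (E := X.E) h1] at ho
  exact sy_bit X W T Zc hZc hZs hnd hlz hZE _ _ v v' hv hv' ho hs

end H93.OW
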