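import Pool.Agent.H93.OW.Qbl
import Pool.Agent.H93.OW.Mis

/-!
# [H93 OW BXS] MP_b39724_nt, THEOREM OW, (b7): the box inequality from a cell identity

Frame: any `P`, `c`, `S`, `X` (to be used for `P × C`, own letters), `n + 2` variables. `Λ` the labels of the configurations `b`, `F b v` the summand.
* `CI G B X W T Zc L g b F`: cell identity for one fixed part `b`: a finite family `I` of cells, at most `L ^ (|sp b| + |E| + g)`, for every cell a fixed part `b'` with the same support, labels `l`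
  of the variables, data `τ`, `e`, a constant `ρ` of norm at most `1`, factors `h` (`Mis`), good (`Gdb`), (O), not unlinked, and `F v = ∑ γ, ρ γ * FX (up (b' γ) v (l γ)) * ∏ k, h γ k v`.
* `bxs`: the box inequality for `F`, from BLG.
-/

set_option autoImplicit false

open scoped NumberField commutatorElement
open IsDedekindDomain
open scoped Classical

noncomputable section

namespace H93.OW

open H63.MA H38.BB H38.BG H57.PC H57.BRA H77.WD H77.WE H77.PC3 H35.CF H35.UB H77.S3 H71.S3 H1.S3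
  H93.BY H24.RK H73.S3
open H93.BX (Mis)

attribute [local instance 50] Fintype.ofFinite

theorem fr_sp {V Λ Λ' : Type} (Z : Finset V) (W : V → Prop) (b : V → Option Λ) (b' : V → Option Λ')
    (h : sp Z b = sp Z b') (m : ℕ) : H35.CF.Fr Z W b m = H35.CF.Fr Z W b' m := by
  have h1 : ∀ w ∈ Z, (b w = none ↔ b' w = none) := by
    intro w hw
    have h2 : w ∈ sp Z b ↔ w ∈ sp Z b' := by rw [h]
    rw [mem_sp, mem_sp] at h2
    constructor
    · intro h3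
      by_contra h4
      exact (h2.2 ⟨hw, h4⟩).2 h3
    · intro h3
      by_contra h4
      exact (h2.1 ⟨hw, h4⟩).2 h3
  ext v
  rw [mem_fr, mem_fr]
  refine and_congr_left fun _ => forall_congr' fun k => ?_
  exact and_congr_right fun h3 => and_congr_right fun _ => h1 _ h3

variable {K : Type} [Field K] [NumberField K] {Ω : Type} [Field Ω] [Algebra K Ω]
  {p N : ℕ} {ζ : K} {D : RD0 K p ζ} {Q : DP K Ω} {A : GS D Ω} {P : Type} [Group P]
  {c : CL p N P} {S : Type} [Group S] [MulDistribMulAction P S] {n : ℕ}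

/-- the cell identity for the fixed part `b` -/
def CI (G : SG c S) (B : SD D Q A) (X : FD A P S) (W : WF A) (T : ℝ) (Zc : Finset (Pl K)) (q n : ℕ)
    (L : ℝ) (g : ℕ) {Λ : Type} (b : Pl K → Option Λ) (F : (Fin (n + 1 + 1) → Pl K) → ℂ) : Prop :=
  ∃ (Γ : Type) (I : Finset Γ) (ρ : Γ → ℂ) (l : Γ → Fin (n + 1 + 1) → Elb c S q (n + 1))
    (b' : Γ → Pl K → Option (Elb c S q (n + 1))) (τ : Γ → Pl K → S)
    (e : Γ → Pl K ⊕ Fin A.g → El S P q (n + 1)) (Qs : Γ → Subgroup (Sd P (Du S q (n + 1 + 1))))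
    (h : Γ → Fin (n + 1 + 1) → (Fin (n + 1 + 1) → Pl K) → ℂ),
    (I.card : ℝ) ≤ L ^ ((sp Zc b).card + X.E.card + g) ∧
    (∀ γ ∈ I, ‖ρ γ‖ ≤ 1 ∧ sp Zc (b' γ) = sp Zc b ∧ Gdb G B X W T Zc (e γ) (Qs γ) (b' γ) ∧
      Mis (h γ) ∧ ¬Ulk (Qs γ) (fun k => G.y (l γ k).1) (fun k => (l γ k).2.2.1.1.1) ∧
      ∀ k, ∀ z : Gr S (n + 1), ((l γ k).2.2.2).ap (br (n + 1) (G.y (l γ k).1) z) = 0) ∧
    ∀ v ∈ H35.CF.Fr Zc (PPc X W T) b (n + 1 + 1),
      F v = ∑ γ ∈ I, ρ γ * (FX G B X W T Zc (τ γ) (e γ) (up (b' γ) v (l γ)) * ∏ k, h γ k v)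

private theorem bs_two (E : Finset (Pl K)) : (2 : ℝ) ^ E.card ≤ nr E := by
  unfold nr
  rw [← Finset.prod_const]
  refine Finset.prod_le_prod (fun _ _ => by norm_num) fun v _ => ?_
  exact_mod_cast one_lt_nm v

private theorem bs_card {V Λ : Type} [Fintype Λ] (Z : Finset V) (s : Finset V)
    (I : Finset (V → Option Λ)) (hI : ∀ b ∈ I, b ∈ Cf Z Λ ∧ sp Z b = s) :
    I.card ≤ (Fintype.card Λ + 1) ^ s.card := by
  have h1 := cnt_cel (γ := Unit) Z s (∅ : Finset Unit) () (I.map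
    ⟨fun b => (b, fun _ => ()), fun b b' h => congrArg Prod.fst h⟩) (fun i hi => by
      obtain ⟨b, hb, rfl⟩ := Finset.mem_map.1 hi
      exact ⟨(hI b hb).1, (hI b hb).2, fun _ _ => rfl⟩)
  rw [Finset.card_map, Finset.card_empty, pow_zero, mul_one] at h1
  exact h1

/-- the box inequality from a cell identity -/
theorem bxs [IsAlgClosure K Ω] [Finite S] [Finite P] (hp : p.Prime) (hζ : IsPrimitiveRoot ζ p)
    {κ mm c₁ N₁ : ℕ} {z : K} [NeZero (p ^ κ)] (B : SD D Q A) (hB : BLG D Ω Q A B κ mm c₁ N₁ z)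
    (G : SG c S) (hS : IsPGroup p S) (hP : IsPGroup p P) (hq : ∀ s : S, s ^ p ^ κ = 1)
    (hn : n + 1 ≤ mm) (hg : A.g ≤ c₁)
    (h1 : Nat.card S * (Nat.card P * Nat.card (Du S (p ^ κ) (n + 1 + 1))) ≤ mm)
    (h2 : Nat.card (Px c) * Nat.card (Du S (p ^ κ) (n + 1)) ≤ mm) (L₀ g : ℕ) (L C₁ A' ε : ℝ)
    (hL : 1 ≤ L) (hε : 0 < ε) :
    ∃ C₂ : ℕ, ∀ C' : ℕ, ∃ Y₀ : ℝ, ∀ Y : ℝ, Y₀ ≤ Y → ∀ (k Mw : ℕ) (X : FD A P S) (W : WF A)
      (T : ℝ), BxH G B X W κ mm N₁ z C₁ C₂ C' ε Y k Mw T → ∀ (Λ : Type) [Fintype Λ],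
      Fintype.card Λ ≤ L₀ → ∀ F : (Pl K → Option Λ) → (Fin (n + 1 + 1) → Pl K) → ℂ,
      (∀ b ∈ (Cf (Zg D W.Z X.E) Λ).filter (fun b => nr (sp (Zg D W.Z X.E) b) ≤ Y ^ C₁ ∧
        ((sp (Zg D W.Z X.E) b).card : ℝ) ≤ C₁ * (1 + Real.log (Real.log Y))),
        CI G B X W T (Zg D W.Z X.E) (p ^ κ) n L g b (F b)) →
      ∀ lo hi : Fin (n + 1 + 1) → ℝ,
        (∀ k, T ≤ lo k ∧ lo k ≤ hi k ∧ hi k ≤ 2 * lo k ∧ hi k ≤ Y ^ C₁) →
      ∑ b ∈ (Cf (Zg D W.Z X.E) Λ).filter (fun b => nr (sp (Zg D W.Z X.E) b) ≤ Y ^ C₁ ∧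
        ((sp (Zg D W.Z X.E) b).card : ℝ) ≤ C₁ * (1 + Real.log (Real.log Y))),
        (nr (sp (Zg D W.Z X.E) b))⁻¹ * (∏ k, lo k)⁻¹ *
          ‖∑ v ∈ (H35.CF.Fr (Zg D W.Z X.E) (PPc X W T) b (n + 1 + 1)).filter
            (fun v => ∀ k, lo k < nm (v k) ∧ (nm (v k) : ℝ) ≤ hi k), F b v‖ ≤
      Real.log Y ^ (-A') := by
  obtain ⟨R, hRd⟩ : ∃ R : ℝ, R = (L₀ : ℝ) + 1 := ⟨_, rfl⟩
  have hR : 1 ≤ R := by
    rw [hRd]
    have := Nat.cast_nonneg (α := ℝ) L₀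
    linarith
  obtain ⟨C₂, hqb⟩ := bxm hp hζ B hB G hS hP hq hn hg h1 h2 C₁
    (2 * |C₁| * Real.log R + (2 * |C₁| + 2 + g) * Real.log L) (A' + 1) ε hε
  refine ⟨C₂, fun C' => ?_⟩
  obtain ⟨Y₀, hY₀⟩ := hqb C'
  obtain ⟨NL, hNL⟩ : ∃ NL : ℕ, NL = Fintype.card (Fin (n + 1 + 1) → Elb c S (p ^ κ) (n + 1)) :=
    ⟨_, rfl⟩
  refine ⟨max Y₀ (max (Real.exp (Real.exp 1)) (Real.exp (NL + 1))), fun Y hY k Mw X W T hH Λ _ hΛ F
    hCI lo hi hlh => ?_⟩
  have hYa := le_trans (le_max_left _ _) hY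
  have hYb := le_trans (le_trans (le_max_left _ _) (le_max_right _ _)) hY
  have hYc := le_trans (le_trans (le_max_right _ _) (le_max_right _ _)) hY
  have hY0 : 0 < Y := lt_of_lt_of_le (Real.exp_pos _) hYb
  have hlN : (NL : ℝ) + 1 ≤ Real.log Y := (Real.le_log_iff_exp_le hY0).2 hYc
  have hN0 : (0 : ℝ) ≤ NL := Nat.cast_nonneg _
  have hl0 : 0 < Real.log Y := by linarith
  obtain ⟨J, hJ⟩ : ∃ J, J = ((Cf (Zg D W.Z X.E) Λ).filter (fun b =>
      nr (sp (Zg D W.Z X.E) b) ≤ Y ^ C₁ ∧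
        ((sp (Zg D W.Z X.E) b).card : ℝ) ≤ C₁ * (1 + Real.log (Real.log Y)))) := ⟨_, rfl⟩
  rw [← hJ] at hCI ⊢
  have hJ1 : ∀ b ∈ J, b ∈ Cf (Zg D W.Z X.E) Λ ∧ nr (sp (Zg D W.Z X.E) b) ≤ Y ^ C₁ ∧
      ((sp (Zg D W.Z X.E) b).card : ℝ) ≤ C₁ * (1 + Real.log (Real.log Y)) := by
    intro b hb
    rw [hJ, Finset.mem_filter] at hb
    exact hb
  have hCI' : ∀ b : Pl K → Option Λ, ∃ (Γ : Type) (I : Finset Γ) (ρ : Γ → ℂ)
      (l : Γ → Fin (n + 1 + 1) → Elb c S (p ^ κ) (n + 1))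
      (b' : Γ → Pl K → Option (Elb c S (p ^ κ) (n + 1))) (τ : Γ → Pl K → S)
      (e : Γ → Pl K ⊕ Fin A.g → El S P (p ^ κ) (n + 1))
      (Qs : Γ → Subgroup (Sd P (Du S (p ^ κ) (n + 1 + 1))))
      (h : Γ → Fin (n + 1 + 1) → (Fin (n + 1 + 1) → Pl K) → ℂ), b ∈ J →
      (I.card : ℝ) ≤ L ^ ((sp (Zg D W.Z X.E) b).card + X.E.card + g) ∧
      (∀ γ ∈ I, ‖ρ γ‖ ≤ 1 ∧ sp (Zg D W.Z X.E) (b' γ) = sp (Zg D W.Z X.E) b ∧
        Gdb G B X W T (Zg D W.Z X.E) (e γ) (Qs γ) (b' γ) ∧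
        Mis (h γ) ∧ ¬Ulk (Qs γ) (fun k => G.y (l γ k).1) (fun k => (l γ k).2.2.1.1.1) ∧
        ∀ k, ∀ z : Gr S (n + 1), ((l γ k).2.2.2).ap (br (n + 1) (G.y (l γ k).1) z) = 0) ∧
      ∀ v ∈ H35.CF.Fr (Zg D W.Z X.E) (PPc X W T) b (n + 1 + 1),
        F b v = ∑ γ ∈ I, ρ γ * (FX G B X W T (Zg D W.Z X.E) (τ γ) (e γ) (up (b' γ) v (l γ)) *
          ∏ k, h γ k v) := by
    intro b
    by_cases hb : b ∈ J
    · obtain ⟨Γ, I, ρ, l, b', τ, e, Qs, h, h3⟩ := hCI b hb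
      exact ⟨Γ, I, ρ, l, b', τ, e, Qs, h, fun _ => h3⟩
    · exact ⟨Empty, ∅, fun x => x.elim, fun x => x.elim, fun x => x.elim, fun x => x.elim,
        fun x => x.elim, fun x => x.elim, fun x => x.elim, fun h => absurd h hb⟩
  choose Γ I ρ l b' τ e Qs h hall using hCI'
  have hcard := fun b hb => (hall b hb).1
  have hgood := fun b hb => (hall b hb).2.1
  have hid := fun b hb => (hall b hb).2.2
  obtain ⟨II, hII⟩ : ∃ II : Finset (Σ b : Pl K → Option Λ, Γ b), II = J.sigma fun b => I b :=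
    ⟨_, rfl⟩
  have hI1 : ∀ i ∈ II, i.1 ∈ J ∧ i.2 ∈ I i.1 := by
    intro i hi
    rw [hII, Finset.mem_sigma] at hi
    exact hi
  -- one tuple of labels of the variables
  have hone : ∀ l₀ : Fin (n + 1 + 1) → Elb c S (p ^ κ) (n + 1),
      ∑ i ∈ II.filter (fun i => l i.1 i.2 = l₀),
        (nr (sp (Zg D W.Z X.E) (b' i.1 i.2)))⁻¹ * (∏ k, lo k)⁻¹ *
          ‖∑ v ∈ (H35.CF.Fr (Zg D W.Z X.E) (PPc X W T) (b' i.1 i.2) (n + 1 + 1)).filter
            (fun v => ∀ k, lo k < nm (v k) ∧ (nm (v k) : ℝ) ≤ hi k),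
            FX G B X W T (Zg D W.Z X.E) (τ i.1 i.2) (e i.1 i.2) (up (b' i.1 i.2) v l₀) *
              ∏ k, h i.1 i.2 k v‖ ≤ Real.log Y ^ (-(A' + 1)) := by
    intro l₀
    rcases Finset.eq_empty_or_nonempty (II.filter fun i : (Σ b : Pl K → Option Λ, Γ b) =>
      l i.1 i.2 = l₀) with he | ⟨i₀, hi₀⟩
    · rw [he, Finset.sum_empty]
      exact (Real.rpow_pos_of_pos hl0 _).le
    have hi1 := Finset.mem_filter.1 hi₀
    have hi2 := hI1 _ hi1.1
    have hO := (hgood _ hi2.1 _ hi2.2).2.2.2.2.2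
    rw [hi1.2] at hO
    refine hY₀ Y hYa k Mw X W T hH l₀ hO (Σ b : Pl K → Option Λ, Γ b)
      (II.filter fun i => l i.1 i.2 = l₀) (fun i => b' i.1 i.2) (fun i => τ i.1 i.2)
      (fun i => e i.1 i.2) (fun i => Qs i.1 i.2) (fun i => h i.1 i.2) lo hi ?_ ?_ hlh
    · refine ⟨fun i hi => ?_, fun i hi => ?_, fun i hi => ?_, fun s => ?_, fun i hi => ?_⟩
      · have h3 := hI1 i (Finset.mem_filter.1 hi).1
        rw [(hgood _ h3.1 _ h3.2).2.1]
        exact (hJ1 _ h3.1).2.1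
      · have h3 := hI1 i (Finset.mem_filter.1 hi).1
        rw [(hgood _ h3.1 _ h3.2).2.1]
        exact (hJ1 _ h3.1).2.2
      · have h3 := hI1 i (Finset.mem_filter.1 hi).1
        exact (hgood _ h3.1 _ h3.2).2.2.1
      · have h3 : ((II.filter fun i => l i.1 i.2 = l₀).filter fun i =>
            sp (Zg D W.Z X.E) (b' i.1 i.2) = s) ⊆
            (J.filter fun b => sp (Zg D W.Z X.E) b = s).sigma fun b => I b := by
          intro i hi
          rw [Finset.mem_filter, Finset.mem_filter] at hi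
          have h4 := hI1 i hi.1.1
          rw [Finset.mem_sigma, Finset.mem_filter]
          refine ⟨⟨h4.1, ?_⟩, h4.2⟩
          rw [← (hgood _ h4.1 _ h4.2).2.1]
          exact hi.2
        rcases (J.filter fun b => sp (Zg D W.Z X.E) b = s).eq_empty_or_nonempty with h5 | ⟨b₀, hb₀⟩
        · have h6 : ((J.filter fun b => sp (Zg D W.Z X.E) b = s).sigma fun b => I b) = ∅ := by
            rw [h5]
            rfl
          rw [h6, Finset.subset_empty] at h3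
          rw [h3, Finset.card_empty, Nat.cast_zero]
          exact (Real.rpow_pos_of_pos hl0 _).le
        · have hb1 := Finset.mem_filter.1 hb₀
          have h5 := (hJ1 b₀ hb1.1).2.2
          rw [hb1.2] at h5
          have h6 : ((J.filter fun b => sp (Zg D W.Z X.E) b = s).card : ℝ) ≤ R ^ s.card := by
            have h7 := bs_card (Zg D W.Z X.E) s (J.filter fun b => sp (Zg D W.Z X.E) b = s)
              fun b hb => ⟨(hJ1 b (Finset.mem_filter.1 hb).1).1, (Finset.mem_filter.1 hb).2⟩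
            refine le_trans (by exact_mod_cast h7 :
              ((J.filter fun b => sp (Zg D W.Z X.E) b = s).card : ℝ) ≤
                (((Fintype.card Λ + 1) ^ s.card : ℕ) : ℝ)) ?_
            rw [hRd]
            push_cast
            refine pow_le_pow_left₀ (by positivity) ?_ _
            have h8 : (Fintype.card Λ : ℝ) ≤ L₀ := by exact_mod_cast hΛ
            linarith
          have h7 := cnt_log R L C₁ hR hL Y hYb s.card X.E.card g h5
            ((bs_two X.E).trans hH.ne)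
          refine le_trans ?_ h7
          have h8 : ((((II.filter fun i => l i.1 i.2 = l₀).filter fun i =>
            sp (Zg D W.Z X.E) (b' i.1 i.2) = s).card : ℕ) : ℝ) ≤
              ∑ b ∈ J.filter (fun b => sp (Zg D W.Z X.E) b = s), ((I b).card : ℝ) := by
            have h9 := Finset.card_le_card h3
            rw [Finset.card_sigma] at h9
            exact_mod_cast h9
          refine h8.trans ?_
          have h9 : ∀ b ∈ J.filter (fun b => sp (Zg D W.Z X.E) b = s),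
              ((I b).card : ℝ) ≤ L ^ (s.card + X.E.card + g) := by
            intro b hb
            have h10 := hcard b (Finset.mem_filter.1 hb).1
            rw [(Finset.mem_filter.1 hb).2] at h10
            exact h10
          refine (Finset.sum_le_card_nsmul _ _ _ h9).trans ?_
          rw [nsmul_eq_mul]
          exact mul_le_mul_of_nonneg_right h6 (pow_nonneg (by linarith) _)
      · have h3 := hI1 i (Finset.mem_filter.1 hi).1
        exact (hgood _ h3.1 _ h3.2).2.2.2.1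
    · intro i hi
      have h3 := hI1 i (Finset.mem_filter.1 hi).1
      have h4 := (hgood _ h3.1 _ h3.2).2.2.2.2.1
      rw [(Finset.mem_filter.1 hi).2] at h4
      exact h4
  -- the sum over all cells
  have hnn : ∀ b : Pl K → Option Λ, 0 ≤ (nr (sp (Zg D W.Z X.E) b))⁻¹ * (∏ k, lo k)⁻¹ := fun b => by
    refine mul_nonneg (inv_nonneg.2 ?_) (inv_nonneg.2 (Finset.prod_nonneg fun k _ => ?_))
    · exact Finset.prod_nonneg fun _ _ => Nat.cast_nonneg _
    · exact ((Real.exp_pos _).le.trans hH.lT).trans (hlh k).1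
  calc ∑ b ∈ J, (nr (sp (Zg D W.Z X.E) b))⁻¹ * (∏ k, lo k)⁻¹ *
          ‖∑ v ∈ (H35.CF.Fr (Zg D W.Z X.E) (PPc X W T) b (n + 1 + 1)).filter
            (fun v => ∀ k, lo k < nm (v k) ∧ (nm (v k) : ℝ) ≤ hi k), F b v‖
      ≤ ∑ b ∈ J, ∑ γ ∈ I b, (nr (sp (Zg D W.Z X.E) (b' b γ)))⁻¹ * (∏ k, lo k)⁻¹ *
          ‖∑ v ∈ (H35.CF.Fr (Zg D W.Z X.E) (PPc X W T) (b' b γ) (n + 1 + 1)).filter
            (fun v => ∀ k, lo k < nm (v k) ∧ (nm (v k) : ℝ) ≤ hi k),
            FX G B X W T (Zg D W.Z X.E) (τ b γ) (e b γ) (up (b' b γ) v (l b γ)) *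
              ∏ k, h b γ k v‖ := by
        refine Finset.sum_le_sum fun b hb => ?_
        have h3 : ∑ v ∈ (H35.CF.Fr (Zg D W.Z X.E) (PPc X W T) b (n + 1 + 1)).filter
            (fun v => ∀ k, lo k < nm (v k) ∧ (nm (v k) : ℝ) ≤ hi k), F b v =
            ∑ γ ∈ I b, ρ b γ * ∑ v ∈ (H35.CF.Fr (Zg D W.Z X.E) (PPc X W T) b (n + 1 + 1)).filter
            (fun v => ∀ k, lo k < nm (v k) ∧ (nm (v k) : ℝ) ≤ hi k),
              (FX G B X W T (Zg D W.Z X.E) (τ b γ) (e b γ) (up (b' b γ) v (l b γ)) *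
                ∏ k, h b γ k v) := by
          rw [Finset.sum_congr rfl fun v hv => hid b hb v (Finset.mem_filter.1 hv).1,
            Finset.sum_comm]
          refine Finset.sum_congr rfl fun γ _ => ?_
          rw [Finset.mul_sum]
        rw [h3]
        refine (mul_le_mul_of_nonneg_left (norm_sum_le _ _) (hnn b)).trans ?_
        rw [Finset.mul_sum]
        refine Finset.sum_le_sum fun γ hγ => ?_
        have h4 := hgood b hb γ hγ
        rw [h4.2.1, fr_sp (Zg D W.Z X.E) (PPc X W T) (b' b γ) b h4.2.1]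
        refine mul_le_mul_of_nonneg_left ?_ (hnn b)
        rw [norm_mul]
        exact mul_le_of_le_one_left (norm_nonneg _) h4.1
    _ = ∑ i ∈ II, (nr (sp (Zg D W.Z X.E) (b' i.1 i.2)))⁻¹ * (∏ k, lo k)⁻¹ *
          ‖∑ v ∈ (H35.CF.Fr (Zg D W.Z X.E) (PPc X W T) (b' i.1 i.2) (n + 1 + 1)).filter
            (fun v => ∀ k, lo k < nm (v k) ∧ (nm (v k) : ℝ) ≤ hi k),
            FX G B X W T (Zg D W.Z X.E) (τ i.1 i.2) (e i.1 i.2) (up (b' i.1 i.2) v (l i.1 i.2)) *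
              ∏ k, h i.1 i.2 k v‖ := by
        rw [hII, Finset.sum_sigma]
    _ = ∑ l₀ : Fin (n + 1 + 1) → Elb c S (p ^ κ) (n + 1),
        ∑ i ∈ II.filter (fun i => l i.1 i.2 = l₀),
        (nr (sp (Zg D W.Z X.E) (b' i.1 i.2)))⁻¹ * (∏ k, lo k)⁻¹ *
          ‖∑ v ∈ (H35.CF.Fr (Zg D W.Z X.E) (PPc X W T) (b' i.1 i.2) (n + 1 + 1)).filter
            (fun v => ∀ k, lo k < nm (v k) ∧ (nm (v k) : ℝ) ≤ hi k),
            FX G B X W T (Zg D W.Z X.E) (τ i.1 i.2) (e i.1 i.2) (up (b' i.1 i.2) v l₀) *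
              ∏ k, h i.1 i.2 k v‖ := by
        rw [← Finset.sum_fiberwise _ fun i => l i.1 i.2]
        refine Finset.sum_congr rfl fun l₀ _ => Finset.sum_congr rfl fun i hi => ?_
        rw [(Finset.mem_filter.1 hi).2]
    _ ≤ NL * Real.log Y ^ (-(A' + 1)) := by
        refine (Finset.sum_le_card_nsmul _ _ _ fun l₀ _ => hone l₀).trans (le_of_eq ?_)
        rw [nsmul_eq_mul, Finset.card_univ, ← hNL]
    _ ≤ Real.log Y * Real.log Y ^ (-(A' + 1)) :=
        mul_le_mul_of_nonneg_right (by linarith) (Real.rpow_pos_of_pos hl0 _).le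
    _ = Real.log Y ^ (1 + -(A' + 1)) := by rw [Real.rpow_add hl0, Real.rpow_one]
    _ = Real.log Y ^ (-A') := by
        congr 1
        ring

end H93.OW
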