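import Pool.Agent.H93.OW.Cia
import Pool.Agent.H48.OW.Pid
import Pool.Agent.H57.OW.C6q
import Pool.Agent.H24.OW.Gdn

/-!
# [H93 OW CIF] MP_b39724_nt, THEOREM OW, S4: the cell identity `CI` of the summand `sm2` from `pt_id`

* `ci_pt`: `CI` for a summand `F` with an identity at every tuple of a class `Cel` (H48/OW/Cls): constants `rq`, data `E`, `E'` of the representative.
* `Lci`, `gci`: the constants of the count.
* `ci_sm2`: `d = 2 (h' + 1)`: `CI` for `sm2` with the pattern `pat r w`, from `Hy`, `Hq` (H48/OW/Hy) and `hbad`, by `pt_id` (H48/OW/Pid), `c6q` (H57/OW/C6q).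
-/

set_option autoImplicit false

open scoped NumberField commutatorElement
open IsDedekindDomain
open scoped Classical

noncomputable section

namespace H93.OW

open H63.MA H38.BB H38.BG H57.PC H57.BRA H77.WD H77.WE H77.PC3 H35.CF H35.UB H77.S3 H71.S3 H1.S3
  H93.BY H24.RK H73.S3 H73.OW H35.OW H82.S3 H12.OW H48.OW H88.OW
open H70.OW (bO lO rhc)
open H93.BX (Mis)

attribute [local instance 50] Fintype.ofFinite

/-- the constant of the count of the cells -/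
def Lci {p N : ℕ} {P : Type} [Group P] (hp : p.Prime) (c : CL p N P) (Pa : Par) (q d : ℕ) : ℝ :=
  2 ^ (d + 1) * (Nat.card (SP (So hp c (d + 1) Pa) (P × Ci p (d + 1))) : ℝ) ^ (d + 1) *
    Nat.card (Du (So hp c (d + 1) Pa) q (d + 1))

variable {K : Type} [Field K] [NumberField K] {Ω : Type} [Field Ω] [Algebra K Ω]
  {p N : ℕ} {ζ : K} {D : RD0 K p ζ} {Q : DP K Ω} {A : GS D Ω} {P : Type} [Group P] {hp : p.Prime}
  {c : CL p N P} {Pa : Par} {q n : ℕ}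

theorem sp_bO {d g M : ℕ} (Zc : Finset (Pl K)) (b : Pl K → Option (Elb2 c (Sp Pa (Px c)) q d))
    (E : Pl K ⊕ Fin g → El (So hp c M Pa) (P × Ci p M) q d)
    (κ : Pl K → Du (So hp c M Pa) q (d + 1)) : sp Zc (bO hp c M Pa b E κ) = sp Zc b := by
  ext w
  rw [mem_sp, mem_sp]
  refine and_congr_right fun _ => not_congr ?_
  unfold bO
  exact Option.map_eq_none_iff

/-- the cell identity from the identities at the tuples of a class -/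
theorem ci_pt [Finite P] [NeZero q] [Finite (So hp c (n + 1 + 1) Pa)]
    {G' : SG (cO hp c (n + 1 + 1)) (So hp c (n + 1 + 1) Pa)}
    (hG' : ∀ x, G'.y x = sy Pa x) (hn : 1 ≤ n) (B : SD D Q A)
    (X : FD A P (Sp Pa (Px c))) (W : WF A) (T : ℝ) (Zc : Finset (Pl K))
    (h0 : ∀ v ∈ Zc, v ∉ D.S0) (hZE : Disjoint Zc X.E) {k Mw : ℕ}
    (hok : ∀ f : Pl K → Option (Px (cO hp c (n + 1 + 1))),
      (adf G' B (fdo hp c (n + 1 + 1) X) W T Zc f).Okw p k Mw q)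
    (τ : Pl K → Sp Pa (Px c)) (b : Pl K → Option (Elb2 c (Sp Pa (Px c)) q (n + 1)))
    (l : Fin (n + 1 + 1) → Elb2 c (Sp Pa (Px c)) q (n + 1))
    (F : (Fin (n + 1 + 1) → Pl K) → ℂ) (τ' : Pl K → So hp c (n + 1 + 1) Pa)
    (E : (Fin (n + 1 + 1) → Pl K) →
      Pl K ⊕ Fin A.g → El (So hp c (n + 1 + 1) Pa) (P × Ci p (n + 1 + 1)) q (n + 1))
    (E' : (Fin (n + 1 + 1) → Pl K) →
      Fin (n + 1 + 1) → El (So hp c (n + 1 + 1) Pa) (P × Ci p (n + 1 + 1)) q (n + 1))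
    (rq : (Fin (n + 1 + 1) → Pl K) → (sp Zc b → Du (So hp c (n + 1 + 1) Pa) q (n + 1 + 1)) →
      (Fin (n + 1 + 1) → Du (So hp c (n + 1 + 1) Pa) q (n + 1 + 1)) → ℂ)
    (h1 : ∀ v₀ κ κ', ‖rq v₀ κ κ'‖ ≤ 1)
    (h2 : ∀ v₀ ∈ H35.CF.Fr Zc (PPc X W T) b (n + 1 + 1), ∀ κ κ', rq v₀ κ κ' ≠ 0 →
      (∀ Qs : Subgroup (Sd (P × Ci p (n + 1 + 1)) (Du (So hp c (n + 1 + 1) Pa) q (n + 1 + 1))),
        ¬Ulk Qs (fun k => G'.y (mkx (l k).1 (some k))) fun k => (E' v₀ k).1.1) ∧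
      ∀ k, ∀ z : Gr (So hp c (n + 1 + 1) Pa) (n + 1),
        (κ' k).ap (br (n + 1) (G'.y (mkx (l k).1 (some k))) z) = 0)
    (hid : ∀ v₀ ∈ H35.CF.Fr Zc (PPc X W T) b (n + 1 + 1),
      ∀ v ∈ H35.CF.Fr Zc (PPc X W T) b (n + 1 + 1), Cel (hp := hp) G' B X W T Zc τ b l v₀ v →
      F v = ∑ κ : sp Zc b → Du (So hp c (n + 1 + 1) Pa) q (n + 1 + 1),
        ∑ κ' : Fin (n + 1 + 1) → Du (So hp c (n + 1 + 1) Pa) q (n + 1 + 1),
          rq v₀ κ κ' * FX G' B (fdo hp c (n + 1 + 1) X) W T Zc τ' (E v₀)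
            (up (bO hp c (n + 1 + 1) Pa b (E v₀) (k0 (sp Zc b) κ)) v
              (lO hp c (n + 1 + 1) Pa l (E' v₀) κ'))) :
    CI G' B (fdo hp c (n + 1 + 1) X) W T Zc q n (Lci hp c Pa q (n + 1))
      (D.S0.card + A.g + (n + 1 + 1)) b F := by
  have hpn : NeZero p := ⟨hp.ne_zero⟩
  have hfin : Finite (SP (So hp c (n + 1 + 1) Pa) (P × Ci p (n + 1 + 1))) :=
    Finite.of_injective (fun x => (x.left, x.right)) fun x y h =>
      SemidirectProduct.ext (congrArg Prod.fst h) (congrArg Prod.snd h)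
  have hPP : PPc (fdo hp c (n + 1 + 1) X) W T = PPc X W T := funext fun w => propext (ppo X W T w)
  refine ci_gen G' B (fdo hp c (n + 1 + 1) X) W T Zc q n _ _ b _
    (Cdo (D := D) hp A c Pa X.E Zc (n + 1) b)
    ((sp Zc b → Du (So hp c (n + 1 + 1) Pa) q (n + 1 + 1)) ×
      (Fin (n + 1 + 1) → Du (So hp c (n + 1 + 1) Pa) q (n + 1 + 1)))
    (cod G' B X W T Zc τ b l) ?_ ?_ ?_
  · have h1 := cod_card (hp := hp) (D := D) (A := A) (c := c) (Pa := Pa) X Zc (d := n + 1) b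
      (Nat.card (Du (So hp c (n + 1 + 1) Pa) q (n + 1 + 1)) : ℝ) (by exact_mod_cast Nat.card_pos)
    refine le_trans (le_of_eq ?_) h1
    congr 1
    rw [Nat.card_eq_fintype_card]
    simp only [Fintype.card_prod, Fintype.card_fun, Fintype.card_coe, Fintype.card_fin]
    push_cast
    rfl
  · rw [hPP]
    intro v₀ _
    obtain ⟨h, h3, h4⟩ := cod_mis G' B X W T Zc τ b l hG' (by omega) hZE h0 v₀
    refine ⟨h, h3, fun v hv => ?_⟩
    rw [h4 v hv]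
    by_cases h5 : cod G' B X W T Zc τ b l v = cod G' B X W T Zc τ b l v₀
    · rw [if_pos h5, if_pos h5]
    · rw [if_neg h5, if_neg h5]
  · rw [hPP]
    intro v₀ hv₀
    refine ⟨fun κ =>
      { ρ := rq v₀ κ.1 κ.2
        l := lO hp c (n + 1 + 1) Pa l (E' v₀) κ.2
        b' := bO hp c (n + 1 + 1) Pa b (E v₀) (k0 (sp Zc b) κ.1)
        τ := τ'
        e := E v₀
        Qs := (adx G' B (fdo hp c (n + 1 + 1) X) W T Zc
          (bO hp c (n + 1 + 1) Pa b (E v₀) (k0 (sp Zc b) κ.1))).Qp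
            (kx G' B (fdo hp c (n + 1 + 1) X) W T Zc (E v₀)
              (bO hp c (n + 1 + 1) Pa b (E v₀) (k0 (sp Zc b) κ.1))) }, ?_, ?_⟩
    · intro κ
      refine ⟨h1 _ _ _, fun g1 g2 => ?_⟩
      obtain ⟨v, hv, -, hne⟩ := g2
      obtain ⟨g3, g4⟩ := h2 v₀ hv₀ κ.1 κ.2 g1
      have hsp : sp Zc (bO hp c (n + 1 + 1) Pa b (E v₀) (k0 (sp Zc b) κ.1)) = sp Zc b :=
        sp_bO Zc b (E v₀) _
      have hv2 : v ∈ H35.CF.Fr Zc (PPc (fdo hp c (n + 1 + 1) X) W T)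
          (bO hp c (n + 1 + 1) Pa b (E v₀) (k0 (sp Zc b) κ.1)) (n + 1 + 1) := by
        rw [hPP, fr_sps Zc (PPc X W T) _ _ hsp]
        exact hv
      refine ⟨hsp, H24.OW.gdb_okw hp G' B (fdo hp c (n + 1 + 1) X) W T Zc hZE τ' (E v₀) _ _ v hv2
        (hok _) hne, g3 _, g4⟩
    · intro v hv hvc
      have hcel : Cel (hp := hp) G' B X W T Zc τ b l v₀ v :=
        (cod_iff G' B X W T Zc τ b l v₀ v).1 hvc
      rw [hid v₀ hv₀ v hv hcel, Fintype.sum_prod_type]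

/-- THE CELL IDENTITY of `sm2` -/
theorem ci_sm2 (h' : ℕ) [Finite P] [NeZero q] [Finite (Sp Pa (Px c))]
    [Finite (So hp c (2 * (h' + 1) + 1) Pa)] {G : SG c (Sp Pa (Px c))}
    {G' : SG (cO hp c (2 * (h' + 1) + 1)) (So hp c (2 * (h' + 1) + 1) Pa)} {B : SD D Q A}
    {X : FD A P (Sp Pa (Px c))} {W : WF A} {Zc : Finset (Pl K)} {k Mw : ℕ}
    (hH : Hy hp G G' B X W Zc k Mw q)
    {x : (Px c → Du (Sp Pa (Px c)) q (2 * (h' + 1) + 1)) ×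
      (P → Du (Sp Pa (Px c)) q (2 * (h' + 1) + 1 + 1))}
    {Bf : ∀ i j : ℕ, Gr (Sp Pa (Px c)) i →+ Gr (Sp Pa (Px c)) j →+ ZMod q}
    {psi : So hp c (2 * (h' + 1) + 1) Pa → ZMod q}
    (hQ : Hq hp G X W q (2 * (h' + 1)) x Bf psi) (T : ℝ) (r0 : Px c) (w : Fin (h' + 1) → Px c)
    (Mr : ℕ)
    (hbad : Bf (h' + 1 + 1) (h' + 1 + 1)
      (gk (h' + 1 + 1) (H62.BL.rn (G.y r0 :: List.ofFn fun i => G.y (w i))))
      (gk (h' + 1 + 1) (H62.BL.rn (G.y r0 :: List.ofFn fun i => G.y (w i)))) ≠ 0)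
    (τ₀ : V0 B X → Sp Pa (Px c)) (e₀ : H73.S3.J0 X → El2 (Sp Pa (Px c)) P q (2 * (h' + 1)))
    (l : Fin (2 * (h' + 1) + 1) → Elb2 c (Sp Pa (Px c)) q (2 * (h' + 1)))
    (b : Pl K → Option (Elb2 c (Sp Pa (Px c)) q (2 * (h' + 1)))) :
    CI G' B (fdo hp c (2 * (h' + 1) + 1) X) W T Zc q (2 * h' + 1)
      (Lci hp c Pa q (2 * (h' + 1))) (D.S0.card + A.g + (2 * (h' + 1) + 1)) b
      (sm2 G B X W T Zc (fun f => etX G B X W T Zc f x) Bf (pat r0 w) Mr τ₀ e₀ l b) := by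
  refine ci_pt (n := 2 * h' + 1) hH.hG' (by omega) B X W T Zc
    (fun v hv => hH.okW.zs v (hH.zc hv)) hH.ze (hH.okY T) (xt0 B X τ₀) b l _
    (fun w => (owl hp c (2 * (h' + 1) + 1)).inc Pa (xt0 B X τ₀ w))
    (Ecl G' B X W T Zc psi (xt0 B X τ₀) (xeG ((0, 0), 1) X e₀) b l)
    (Ecv G' B X W T Zc psi (xt0 B X τ₀) (xeG ((0, 0), 1) X e₀) b l)
    (fun v₀ κ κ' => rcl G G' B X W T Zc psi (xt0 B X τ₀) (xeG ((0, 0), 1) X e₀) b l v₀
      (fun f => etX G B X W T Zc f x) (pat r0 w) Mr κ κ')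
    (fun v₀ κ κ' => rcl_le _ _ _ _ _ _ _ _ _ _ _ _ _ _ _ _ _ _) ?_ ?_
  · intro v₀ hv₀ κ κ' hne
    have h1 : ((Rp G B X W T Zc (pat r0 w) (xeG ((0, 0), 1) X e₀) (up b v₀ l) v₀ ∧
        Cn2 G B X W T Zc (fun f => etX G B X W T Zc f x) Mr (xeG ((0, 0), 1) X e₀)
          (up b v₀ l)) ∧
        (∀ w : sp Zc b, PPc X W T w → H62.OW.O2q hp (2 * (h' + 1) + 1) Pa b w (κ w)) ∧
        ∀ k, H62.OW.OK2 Pa (owl hp c (2 * (h' + 1) + 1)) (sy Pa (l k).1) (κ' k)) ∧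
        rhc (adx2 G B X W T Zc (up b v₀ l)) (Yq G' B X W T Zc (up b v₀ l) v₀)
          (EV hp c (2 * (h' + 1) + 1) Pa) psi (tq hp (xt0 B X τ₀) (up b v₀ l))
          (xq G' B X W T Zc (xt0 B X τ₀) (up b v₀ l) v₀)
          (ef2 (xeG ((0, 0), 1) X e₀) (up b v₀ l))
          (etq G' B X W T Zc psi (xt0 B X τ₀) (xeG ((0, 0), 1) X e₀) (up b v₀ l) v₀) ≠ 0 := by
      unfold rcl at hne
      split_ifs at hne with h2
      · exact ⟨h2, hne⟩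
      · exact absurd rfl hne
    obtain ⟨⟨⟨g1, g2⟩, -, g3⟩, g4⟩ := h1
    have g5 := H57.OW.kr2_rhc g4
    have g6 : (fun j => EV hp c (2 * (h' + 1) + 1) Pa
        (xq G' B X W T Zc (xt0 B X τ₀) (up b v₀ l) v₀ j)) =
        (adx2 G B X W T Zc (up b v₀ l)).vl (tf2 (xt0 B X τ₀) (up b v₀ l)) := funext fun j =>
      xq_ev hH.hG hH.hG' B X W T Zc (xt0 B X τ₀) (up b v₀ l) v₀ j
    rw [g6] at g5
    exact ⟨fun Qs => H57.OW.c6q (by omega) hH hQ hv₀ g1 g2 g5 hbad Qs,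
      fun k z => H62.OW.o2_br hH.hG' (g3 k) k z⟩
  · intro v₀ hv₀ v hv hc
    exact pt_id hH hQ T (pat r0 w) Mr (xt0 B X τ₀) (xeG ((0, 0), 1) X e₀) b l hv₀ hv hc

end H93.OW
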