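import Pool.Agent.H93.OW.Bxs

/-!
# [H93 OW CIG] MP_b39724_nt, THEOREM OW, (b7): the cell identity from an identity on every class of tuples

`ci_gen`: `cod v` the code of a tuple (finitely many codes, `hmis`: the indicator of a class is a product of factors which miss a variable); on the class of `v₀` the summand is a sum over the finite
type `Kp` of a constant times `FX`; the terms with nonzero constant and `FX` not identically zero on the class are good. Then `CI`.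
-/

set_option autoImplicit false

open scoped NumberField commutatorElement
open IsDedekindDomain
open scoped Classical

noncomputable section

namespace H93.OW

open H63.MA H38.BB H38.BG H57.PC H57.BRA H77.WD H77.WE H77.PC3 H35.CF H35.UB H77.S3 H71.S3 H1.S3
  H93.BY H24.RK H73.S3
open H93.BX (Mis)

variable {K : Type} [Field K] [NumberField K] {Ω : Type} [Field Ω] [Algebra K Ω]
  {p N : ℕ} {ζ : K} {D : RD0 K p ζ} {Q : DP K Ω} {A : GS D Ω} {P : Type} [Group P]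
  {c : CL p N P} {S : Type} [Group S] [MulDistribMulAction P S] {n : ℕ}

/-- the data of a class: the constant, the labels of the variables, the fixed part, the conjugators, the data of the letters, the group generated by the values -/
structure Cdt (A : GS D Ω) (P : Type) [Group P] (c : CL p N P) (S : Type) [Group S]
    [MulDistribMulAction P S] (q n : ℕ) where
  ρ : ℂ
  l : Fin (n + 1 + 1) → Elb c S q (n + 1)
  b' : Pl K → Option (Elb c S q (n + 1))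
  τ : Pl K → S
  e : Pl K ⊕ Fin A.g → El S P q (n + 1)
  Qs : Subgroup (Sd P (Du S q (n + 1 + 1)))

/-- the cell identity from the identity on the classes -/
theorem ci_gen (G : SG c S) (B : SD D Q A) (X : FD A P S) (W : WF A) (T : ℝ) (Zc : Finset (Pl K))
    (q n : ℕ) (L : ℝ) (g : ℕ) {Λ : Type} (b : Pl K → Option Λ) (F : (Fin (n + 1 + 1) → Pl K) → ℂ)
    (Cd Kp : Type) [Fintype Cd] [Fintype Kp] (cod : (Fin (n + 1 + 1) → Pl K) → Cd)
    (hcard : (Fintype.card Cd : ℝ) * Fintype.card Kp ≤ L ^ ((sp Zc b).card + X.E.card + g))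
    (hmis : ∀ v₀ ∈ H35.CF.Fr Zc (PPc X W T) b (n + 1 + 1),
      ∃ h : Fin (n + 1 + 1) → (Fin (n + 1 + 1) → Pl K) → ℂ, Mis h ∧
        ∀ v ∈ H35.CF.Fr Zc (PPc X W T) b (n + 1 + 1),
          ∏ k, h k v = if cod v = cod v₀ then 1 else 0)
    (hdat : ∀ v₀ ∈ H35.CF.Fr Zc (PPc X W T) b (n + 1 + 1), ∃ Dt : Kp → Cdt A P c S q n,
      (∀ κ, ‖(Dt κ).ρ‖ ≤ 1 ∧ ((Dt κ).ρ ≠ 0 →
        (∃ v ∈ H35.CF.Fr Zc (PPc X W T) b (n + 1 + 1), cod v = cod v₀ ∧
          FX G B X W T Zc (Dt κ).τ (Dt κ).e (up (Dt κ).b' v (Dt κ).l) ≠ 0) →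
        sp Zc (Dt κ).b' = sp Zc b ∧ Gdb G B X W T Zc (Dt κ).e (Dt κ).Qs (Dt κ).b' ∧
        ¬Ulk (Dt κ).Qs (fun k => G.y ((Dt κ).l k).1) (fun k => ((Dt κ).l k).2.2.1.1.1) ∧
        ∀ k, ∀ z : Gr S (n + 1), (((Dt κ).l k).2.2.2).ap (br (n + 1) (G.y ((Dt κ).l k).1) z) = 0)) ∧
      ∀ v ∈ H35.CF.Fr Zc (PPc X W T) b (n + 1 + 1), cod v = cod v₀ →
        F v = ∑ κ, (Dt κ).ρ * FX G B X W T Zc (Dt κ).τ (Dt κ).e (up (Dt κ).b' v (Dt κ).l)) :
    CI G B X W T Zc q n L g b F := by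
  obtain ⟨Frb, hFrb⟩ : ∃ Frb, Frb = H35.CF.Fr Zc (PPc X W T) b (n + 1 + 1) := ⟨_, rfl⟩
  rw [← hFrb] at hmis hdat
  obtain ⟨At, hAt⟩ : ∃ At : Cd → Prop, ∀ γ, At γ ↔ ∃ v ∈ Frb, cod v = γ := ⟨_, fun _ => Iff.rfl⟩
  have hmis' : ∀ γ : {γ : Cd // At γ}, ∃ h : Fin (n + 1 + 1) → (Fin (n + 1 + 1) → Pl K) → ℂ,
      Mis h ∧ ∀ v ∈ Frb, ∏ k, h k v = if cod v = γ then 1 else 0 := by
    rintro ⟨γ, hγ⟩
    obtain ⟨v₀, h1, rfl⟩ := (hAt γ).1 hγ
    exact hmis v₀ h1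
  choose hf hf1 hf2 using hmis'
  have hdat' : ∀ γ : {γ : Cd // At γ}, ∃ Dt : Kp → Cdt A P c S q n,
      (∀ κ, ‖(Dt κ).ρ‖ ≤ 1 ∧ ((Dt κ).ρ ≠ 0 → (∃ v ∈ Frb, cod v = γ ∧
          FX G B X W T Zc (Dt κ).τ (Dt κ).e (up (Dt κ).b' v (Dt κ).l) ≠ 0) →
        sp Zc (Dt κ).b' = sp Zc b ∧ Gdb G B X W T Zc (Dt κ).e (Dt κ).Qs (Dt κ).b' ∧
        ¬Ulk (Dt κ).Qs (fun k => G.y ((Dt κ).l k).1) (fun k => ((Dt κ).l k).2.2.1.1.1) ∧
        ∀ k, ∀ z : Gr S (n + 1), (((Dt κ).l k).2.2.2).ap (br (n + 1) (G.y ((Dt κ).l k).1) z) = 0)) ∧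
      ∀ v ∈ Frb, cod v = γ →
        F v = ∑ κ, (Dt κ).ρ * FX G B X W T Zc (Dt κ).τ (Dt κ).e (up (Dt κ).b' v (Dt κ).l) := by
    rintro ⟨γ, hγ⟩
    obtain ⟨v₀, h1, rfl⟩ := (hAt γ).1 hγ
    exact hdat v₀ h1
  choose Dt hDt1 hDt2 using hdat'
  obtain ⟨ok, hok⟩ : ∃ ok : {γ : Cd // At γ} × Kp → Prop, ∀ i, ok i ↔ ((Dt i.1 i.2).ρ ≠ 0 ∧
      ∃ v ∈ Frb, cod v = i.1 ∧ FX G B X W T Zc (Dt i.1 i.2).τ (Dt i.1 i.2).e
        (up (Dt i.1 i.2).b' v (Dt i.1 i.2).l) ≠ 0) := ⟨_, fun _ => Iff.rfl⟩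
  refine ⟨{γ : Cd // At γ} × Kp, Finset.univ.filter ok, fun i => (Dt i.1 i.2).ρ,
    fun i => (Dt i.1 i.2).l, fun i => (Dt i.1 i.2).b', fun i => (Dt i.1 i.2).τ,
    fun i => (Dt i.1 i.2).e, fun i => (Dt i.1 i.2).Qs, fun i => hf i.1, ?_, ?_, ?_⟩
  · refine le_trans ?_ hcard
    have h1 : (Finset.univ.filter ok).card ≤ Fintype.card Cd * Fintype.card Kp := by
      refine (Finset.card_le_univ _).trans ?_
      rw [Fintype.card_prod]
      exact Nat.mul_le_mul_right _ (Fintype.card_subtype_le _)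
    exact_mod_cast h1
  · intro i hi
    obtain ⟨h1, h2⟩ := (hok i).1 (Finset.mem_filter.1 hi).2
    obtain ⟨h3, h4⟩ := hDt1 i.1 i.2
    obtain ⟨h5, h6, h7, h8⟩ := h4 h1 h2
    exact ⟨h3, h5, h6, hf1 i.1, h7, h8⟩
  · intro v hv
    rw [← hFrb] at hv
    have hat : At (cod v) := (hAt _).2 ⟨v, hv, rfl⟩
    rw [Finset.sum_filter, Fintype.sum_prod_type, Finset.sum_eq_single ⟨cod v, hat⟩]
    · rw [hDt2 ⟨cod v, hat⟩ v hv rfl]
      refine Finset.sum_congr rfl fun κ _ => ?_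
      rw [hf2 ⟨cod v, hat⟩ v hv, if_pos rfl, mul_one]
      by_cases h : ok (⟨cod v, hat⟩, κ)
      · rw [if_pos h]
      · rw [if_neg h]
        rw [hok, not_and_or, not_not] at h
        rcases h with h | h
        · rw [h, zero_mul]
        · push Not at h
          rw [h v hv rfl, mul_zero]
    · rintro ⟨γ, hγ⟩ _ hne
      refine Finset.sum_eq_zero fun κ _ => ?_
      have h1 : ∏ k, hf ⟨γ, hγ⟩ k v = 0 := by
        rw [hf2 ⟨γ, hγ⟩ v hv]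
        exact if_neg fun h => hne (Subtype.ext h.symm)
      rw [h1, mul_zero, mul_zero, ite_self]
    · exact fun h => absurd (Finset.mem_univ _) h

end H93.OW
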