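import Pool.Agent.H93.OW.Qbm

/-!
# [H93 OW QBL] MP_b39724_nt, THEOREM OW: the box inequality for labels in any finite type, with factors

`Λ` a finite type with a map `ρ : Λ → Elb`, `mp ρ b` the configuration with the labels `ρ`. `BxL`: as `BxF` of H73/S3/Enr for the configurations `b` with labels in `Λ`, with factors `h b k`
which do not depend on the variable `k` (`Mis`). `bxl`: it follows from BLG.
-/

set_option autoImplicit false

open scoped NumberField commutatorElement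
open IsDedekindDomain
open scoped Classical

noncomputable section

namespace H93.OW

open H63.MA H38.BB H38.BG H57.PC H57.BRA H77.WD H77.WE H77.PC3 H35.CF H35.UB H77.S3 H71.S3 H1.S3
  H93.BY H24.RK H73.S3
open H93.BX (Mis)

attribute [local instance 50] Fintype.ofFinite

section df

variable {V Λ E : Type}

/-- the configuration with the labels `ρ` -/
def mp (ρ : Λ → E) (b : V → Option Λ) (v : V) : Option E := (b v).map ρ

theorem mp_up {m : ℕ} (ρ : Λ → E) (b : V → Option Λ) (v : Fin m → V) (l : Fin m → Λ)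
    (hv : Function.Injective v) : mp ρ (up b v l) = up (mp ρ b) v fun k => ρ (l k) := by
  funext w
  unfold mp
  by_cases h : ∃ k, v k = w
  · obtain ⟨k, rfl⟩ := h
    rw [up_of b v l hv k, up_of _ v (fun k => ρ (l k)) hv k]
    rfl
  · rw [up_ne b v l w fun k hk => h ⟨k, hk⟩, up_ne _ v (fun k => ρ (l k)) w fun k hk => h ⟨k, hk⟩]

theorem sp_mp (Z : Finset V) (ρ : Λ → E) (b : V → Option Λ) : sp Z (mp ρ b) = sp Z b := by
  ext v
  rw [mem_sp, mem_sp]
  unfold mp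
  cases b v with
  | none => exact ⟨fun h => absurd rfl h.2, fun h => absurd rfl h.2⟩
  | some a => exact ⟨fun h => ⟨h.1, Option.some_ne_none _⟩, fun h => ⟨h.1, Option.some_ne_none _⟩⟩

theorem fr_mp (Z : Finset V) (W : V → Prop) (ρ : Λ → E) (b : V → Option Λ) (m : ℕ) :
    H35.CF.Fr Z W (mp ρ b) m = H35.CF.Fr Z W b m := by
  ext v
  rw [mem_fr, mem_fr]
  unfold mp
  simp only [Option.map_eq_none_iff]

end df

variable {K : Type} [Field K] [NumberField K] {Ω : Type} [Field Ω] [Algebra K Ω]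
  {p N : ℕ} {ζ : K} {D : RD0 K p ζ} {Q : DP K Ω} {A : GS D Ω} {P : Type} [Group P]
  {c : CL p N P} {S : Type} [Group S] [MulDistribMulAction P S] {n : ℕ}

/-- the box inequality for labels in `Λ`, with factors -/
def BxL (G : SG c S) (B : SD D Q A) (X : FD A P S) (W : WF A) (T : ℝ) (Zc : Finset (Pl K)) {q : ℕ}
    (m : ℕ) {Λ : Type} [Fintype Λ] (ρ : Λ → Elb c S q m) (C₁ A' Y : ℝ) : Prop :=
  ∀ (τ₀ : V0 B X → S) (e₀ : J0 X → El S P q m) (l : Fin (m + 1) → Λ)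
    (h : (Pl K → Option Λ) → Fin (m + 1) → (Fin (m + 1) → Pl K) → ℂ)
    (lo hi : Fin (m + 1) → ℝ), (∀ b, Mis (h b)) →
    (∀ k, T ≤ lo k ∧ lo k ≤ hi k ∧ hi k ≤ 2 * lo k ∧ hi k ≤ Y ^ C₁) →
    ∑ b ∈ (Cf Zc Λ).filter (fun b => nr (sp Zc b) ≤ Y ^ C₁ ∧
        ((sp Zc b).card : ℝ) ≤ C₁ * (1 + Real.log (Real.log Y))),
      (nr (sp Zc b))⁻¹ * (∏ k, lo k)⁻¹ * ‖∑ v ∈ (H35.CF.Fr Zc (PPc X W T) b (m + 1)).filter
        (fun v => ∀ k, lo k < nm (v k) ∧ (nm (v k) : ℝ) ≤ hi k),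
          (if (adx G B X W T Zc (mp ρ (up b v l))).Kx ((adx G B X W T Zc (mp ρ (up b v l))).et
                (ef (xe0 X e₀) (mp ρ (up b v l)))) (kx G B X W T Zc (xe0 X e₀) (mp ρ (up b v l))) ∧
              Lk G B X W T Zc (xe0 X e₀) (mp ρ (up b v l)) v ∧ ∀ k, ∀ z : Gr S m,
              ((ρ (l k)).2.2.2).ap (br m (G.y (ρ (l k)).1) z) = 0 then
            FX G B X W T Zc (xt0 B X τ₀) (xe0 X e₀) (mp ρ (up b v l)) else 0) * ∏ k, h b k v‖ ≤
      Real.log Y ^ (-A')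

private theorem bf_zg2 (D : RD0 K p ζ) (Z E : Finset (Pl K)) : Disjoint (Zg D Z E) E := by
  unfold Zg
  rw [Finset.disjoint_left]
  intro v hv hv'
  rw [Finset.mem_filter, Finset.mem_sdiff] at hv
  exact hv.1.2 hv'

/-- linkedness does not depend on the new places -/
private theorem bf_lk {q : ℕ} (G : SG c S) (B : SD D Q A) (X : FD A P S) (W : WF A) (T : ℝ)
    (Zc : Finset (Pl K)) (hZE : Disjoint Zc X.E) (e₀ : Pl K ⊕ Fin A.g → El S P q (n + 1))
    (l : Fin (n + 1 + 1) → Elb c S q (n + 1)) (b : Pl K → Option (Elb c S q (n + 1)))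
    (v : Fin (n + 1 + 1) → Pl K) (hv : v ∈ H35.CF.Fr Zc (PPc X W T) b (n + 1 + 1)) :
    Lk G B X W T Zc e₀ (up b v l) v ↔
      ¬Ulk ((adx G B X W T Zc b).Qp (kx G B X W T Zc e₀ b)) (fun k => G.y (l k).1)
        fun k => (l k).2.2.1.1.1 := by
  have hv' := mem_fr.1 hv
  have h1 : (fun k => (adx G B X W T Zc (up b v l)).y (Sum.inl (v k))) =
      fun k => G.y (l k).1 := by
    funext k
    have e1 : v k ∉ X.E := fun h2 => Finset.disjoint_left.1 hZE (hv'.1 k).1 h2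
    have e2 : (adx G B X W T Zc (up b v l)).t (Sum.inl (v k)) = il (G.y (l k).1) := by
      show (if v k ∈ X.E then (⟨X.sv (v k), X.φ (W.L.t (v k))⟩ : SP S P) else
        (if v k ∈ Zc then lf (up b v l) (v k) else none).elim 1 fun s => il (G.y s)) = _
      rw [if_neg e1, if_pos (hv'.1 k).1]
      unfold lf
      rw [up_of b v l hv'.2 k]
      rfl
    unfold AD.y
    rw [e2]
    rfl
  have h2 : (fun k => (ef e₀ (up b v l) (Sum.inl (v k))).1.1) = fun k => (l k).2.2.1.1.1 := by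
    funext k
    show ((up b v l (v k)).elim (e₀ (Sum.inl (v k))) fun a => a.2.2.1).1.1 = _
    rw [up_of b v l hv'.2 k]
    rfl
  unfold Lk
  rw [qp_up G B X W T Zc hZE e₀ l b v hv, h1, h2]

/-- the summand in terms of the fixed part -/
private theorem bf_sum {q : ℕ} (G : SG c S) (B : SD D Q A) (X : FD A P S) (W : WF A) (T : ℝ)
    (Zc : Finset (Pl K)) (hZE : Disjoint Zc X.E) (τ₀ : Pl K → S)
    (e₀ : Pl K ⊕ Fin A.g → El S P q (n + 1))
    (l : Fin (n + 1 + 1) → Elb c S q (n + 1))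
    (hO : ∀ k, ∀ z : Gr S (n + 1), ((l k).2.2.2).ap (br (n + 1) (G.y (l k).1) z) = 0)
    (b : Pl K → Option (Elb c S q (n + 1)))
    (v : Fin (n + 1 + 1) → Pl K) (hv : v ∈ H35.CF.Fr Zc (PPc X W T) b (n + 1 + 1))
    (Qs : Subgroup (Sd P (Du S q (n + 1 + 1))))
    (hQs : (adx G B X W T Zc b).Qp (kx G B X W T Zc e₀ b) = Qs) :
    FX G B X W T Zc τ₀ e₀ (up b v l) = 0 ∨
      (((adx G B X W T Zc (up b v l)).Kx ((adx G B X W T Zc (up b v l)).et
                (ef e₀ (up b v l))) (kx G B X W T Zc e₀ (up b v l)) ∧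
              Lk G B X W T Zc e₀ (up b v l) v ∧ ∀ k, ∀ z : Gr S (n + 1),
              ((l k).2.2.2).ap (br (n + 1) (G.y (l k).1) z) = 0) ↔
      Gdb G B X W T Zc e₀ Qs b ∧
        ¬Ulk Qs (fun k => G.y (l k).1) (fun k => (l k).2.2.1.1.1)) := by
  have hkc : (adx G B X W T Zc (up b v l)).Kx ((adx G B X W T Zc (up b v l)).et
        (ef e₀ (up b v l))) (kx G B X W T Zc e₀ (up b v l)) ↔
      (adx G B X W T Zc b).Kx ((adx G B X W T Zc b).et (ef e₀ b)) (kx G B X W T Zc e₀ b) := by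
    rw [kx_up G B X W T Zc hZE e₀ l b v hv]
    exact kx_iff G B X W T Zc hZE e₀ l b v hv _
  have hlk := bf_lk G B X W T Zc hZE e₀ l b v hv
  rw [hQs] at hlk
  by_cases h0 : FX G B X W T Zc τ₀ e₀ (up b v l) = 0
  · exact Or.inl h0
  · refine Or.inr ⟨fun h => ⟨⟨hkc.1 h.1, ?_, ?_, hQs⟩, hlk.1 h.2.1⟩,
      fun h => ⟨hkc.2 h.1.kc, hlk.2 h.2, hO⟩⟩
    · have h1 : ∀ w ∈ W.l, kx G B X W T Zc e₀ (up b v l) (wd FreeGroup.of
          (adx G B X W T Zc (up b v l)).W ((adx G B X W T Zc (up b v l)).bl w)) = 0 := by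
        by_contra hc
        refine h0 ?_
        unfold FX
        rw [if_neg]
        exact fun hh => hc hh.1
      rw [kx_up G B X W T Zc hZE e₀ l b v hv] at h1
      exact h1
    · have h1 : ∀ w ∈ sp Zc (up b v l), kf (up b v l) w =
          if PPc X W T w then kx G B X W T Zc e₀ (up b v l) (W.Wv w) else 0 := by
        by_contra hc
        refine h0 ?_
        unfold FX
        rw [if_neg]
        exact fun hh => hc hh.2
      intro w hw hpp
      have hv' := mem_fr.1 hv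
      have hne : ∀ k, v k ≠ w := by
        rintro k rfl
        exact (mem_sp.1 hw).2 (hv'.1 k).2.2
      have h2 : up b v l w = b w := H35.CF.up_ne b v l w hne
      have h3 := h1 w (by
        rw [mem_sp, h2]
        exact mem_sp.1 hw)
      rw [if_neg hpp] at h3
      unfold kf at h3 ⊢
      rw [h2] at h3
      exact h3

/-- the number of configurations with a given support -/
private theorem bl_card {V Λ : Type} [Fintype Λ] (Z : Finset V) (s : Finset V)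
    (I : Finset (V → Option Λ)) (hI : ∀ b ∈ I, b ∈ Cf Z Λ ∧ sp Z b = s) :
    I.card ≤ (Fintype.card Λ + 1) ^ s.card := by
  have h1 : (Finset.univ : Finset (s → Option Λ)).card = (Fintype.card Λ + 1) ^ s.card := by
    rw [Finset.card_univ, Fintype.card_fun, Fintype.card_option, Fintype.card_coe]
  rw [← h1]
  refine Finset.card_le_card_of_injOn (fun b v => b v) (fun _ _ => Finset.mem_univ _) ?_
  intro b hb b' hb' h
  funext v
  by_cases hv : v ∈ s
  · exact congrFun h ⟨v, hv⟩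
  · have key : ∀ a ∈ I, a v = none := by
      intro a ha
      obtain ⟨h2, h3⟩ := hI a ha
      by_contra hc
      refine hv ?_
      rw [← h3, mem_sp]
      refine ⟨?_, hc⟩
      by_contra h4
      exact hc (mem_cf.1 h2 v h4)
    rw [key b hb, key b' hb']

private theorem bl_an (C₁ L : ℝ) (hL : 1 ≤ L) (Y : ℝ) (hY : Real.exp (Real.exp 1) ≤ Y) (k : ℕ)
    (hk : (k : ℝ) ≤ C₁ * (1 + Real.log (Real.log Y))) :
    L ^ k ≤ Real.log Y ^ (2 * |C₁| * Real.log L) := by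
  have hY0 : 0 < Y := lt_of_lt_of_le (Real.exp_pos _) hY
  have h1 : Real.exp 1 ≤ Real.log Y := (Real.le_log_iff_exp_le hY0).2 hY
  have hl0 : 0 < Real.log Y := lt_of_lt_of_le (Real.exp_pos _) h1
  have h4 : 1 ≤ Real.log (Real.log Y) := (Real.le_log_iff_exp_le hl0).2 h1
  have hLl : 0 ≤ Real.log L := Real.log_nonneg hL
  have h9 : (k : ℝ) ≤ |C₁| * (2 * Real.log (Real.log Y)) := by
    refine hk.trans ?_
    calc C₁ * (1 + Real.log (Real.log Y)) ≤ |C₁| * (1 + Real.log (Real.log Y)) :=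
          mul_le_mul_of_nonneg_right (le_abs_self _) (by linarith)
      _ ≤ _ := mul_le_mul_of_nonneg_left (by linarith) (abs_nonneg _)
  rw [← Real.log_le_log_iff (pow_pos (by linarith) _) (Real.rpow_pos_of_pos hl0 _), Real.log_pow,
    Real.log_rpow hl0]
  calc (k : ℝ) * Real.log L ≤ |C₁| * (2 * Real.log (Real.log Y)) * Real.log L :=
        mul_le_mul_of_nonneg_right h9 hLl
    _ = (2 * |C₁| * Real.log L) * Real.log (Real.log Y) := by ring

theorem bxl [IsAlgClosure K Ω] [Finite S] [Finite P] (hp : p.Prime) (hζ : IsPrimitiveRoot ζ p)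
    {κ mm c₁ N₁ : ℕ} {z : K} [NeZero (p ^ κ)] (B : SD D Q A) (hB : BLG D Ω Q A B κ mm c₁ N₁ z)
    (G : SG c S) (hS : IsPGroup p S) (hP : IsPGroup p P) (hq : ∀ s : S, s ^ p ^ κ = 1)
    (hn : n + 1 ≤ mm) (hg : A.g ≤ c₁)
    (h1 : Nat.card S * (Nat.card P * Nat.card (Du S (p ^ κ) (n + 1 + 1))) ≤ mm)
    (h2 : Nat.card (Px c) * Nat.card (Du S (p ^ κ) (n + 1)) ≤ mm) (L₀ : ℕ) (C₁ A' ε : ℝ)
    (hε : 0 < ε) :
    ∃ C₂ : ℕ, ∀ C' : ℕ, ∃ Y₀ : ℝ, ∀ Y : ℝ, Y₀ ≤ Y → ∀ (k Mw : ℕ) (X : FD A P S) (W : WF A)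
      (T : ℝ), BxH G B X W κ mm N₁ z C₁ C₂ C' ε Y k Mw T → ∀ (Λ : Type) [Fintype Λ],
      Fintype.card Λ ≤ L₀ → ∀ ρ : Λ → Elb c S (p ^ κ) (n + 1),
      BxL G B X W T (Zg D W.Z X.E) (n + 1) ρ C₁ A' Y := by
  obtain ⟨L, hLd⟩ : ∃ L : ℝ, L = (L₀ : ℝ) + 1 := ⟨_, rfl⟩
  have hL : 1 ≤ L := by
    rw [hLd]
    have := Nat.cast_nonneg (α := ℝ) L₀
    linarith
  obtain ⟨C₂, hqb⟩ := bxm hp hζ B hB G hS hP hq hn hg h1 h2 C₁ (2 * |C₁| * Real.log L) A' ε hε
  refine ⟨C₂, fun C' => ?_⟩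
  obtain ⟨Y₀, hY₀⟩ := hqb C'
  refine ⟨max Y₀ (Real.exp (Real.exp 1)), fun Y hY k Mw X W T hH Λ _ hΛ ρ => ?_⟩
  unfold BxL
  intro τ₀ e₀ l h lo hi hh hlh
  have hYa := le_trans (le_max_left _ _) hY
  have hYb := le_trans (le_max_right _ _) hY
  have hY0 : 0 < Y := lt_of_lt_of_le (Real.exp_pos _) hYb
  have hl0 : 0 < Real.log Y := lt_of_lt_of_le (Real.exp_pos _) ((Real.le_log_iff_exp_le hY0).2 hYb)
  have hZ := bf_zg2 D W.Z X.E
  by_cases hO : ∀ k, ∀ z : Gr S (n + 1), ((ρ (l k)).2.2.2).ap (br (n + 1) (G.y (ρ (l k)).1) z) = 0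
  swap
  · rw [Finset.sum_eq_zero]
    · exact (Real.rpow_pos_of_pos hl0 _).le
    · intro b _
      rw [Finset.sum_eq_zero, norm_zero, mul_zero]
      intro v _
      rw [if_neg fun h => hO h.2.2, zero_mul]
  obtain ⟨Qb, hQb⟩ : ∃ Qb : (Pl K → Option Λ) → Subgroup (Sd P (Du S (p ^ κ) (n + 1 + 1))),
      Qb = fun b => (adx G B X W T (Zg D W.Z X.E) (mp ρ b)).Qp
        (kx G B X W T (Zg D W.Z X.E) (xe0 X e₀) (mp ρ b)) := ⟨_, rfl⟩
  obtain ⟨J, hJ⟩ : ∃ J, J = ((Cf (Zg D W.Z X.E) Λ).filter (fun b =>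
      nr (sp (Zg D W.Z X.E) b) ≤ Y ^ C₁ ∧
        ((sp (Zg D W.Z X.E) b).card : ℝ) ≤ C₁ * (1 + Real.log (Real.log Y)))) := ⟨_, rfl⟩
  obtain ⟨I, hI⟩ : ∃ I, I = J.filter (fun b =>
      Gdb G B X W T (Zg D W.Z X.E) (xe0 X e₀) (Qb b) (mp ρ b) ∧
        ¬Ulk (Qb b) (fun k => G.y (ρ (l k)).1) (fun k => (ρ (l k)).2.2.1.1.1)) := ⟨_, rfl⟩
  have hI1 : ∀ b ∈ I, b ∈ Cf (Zg D W.Z X.E) Λ ∧ (nr (sp (Zg D W.Z X.E) b) ≤ Y ^ C₁ ∧
      ((sp (Zg D W.Z X.E) b).card : ℝ) ≤ C₁ * (1 + Real.log (Real.log Y))) ∧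
      Gdb G B X W T (Zg D W.Z X.E) (xe0 X e₀) (Qb b) (mp ρ b) ∧
        ¬Ulk (Qb b) (fun k => G.y (ρ (l k)).1) (fun k => (ρ (l k)).2.2.1.1.1) := by
    intro b hb
    rw [hI, Finset.mem_filter, hJ, Finset.mem_filter] at hb
    exact ⟨hb.1.1, hb.1.2, hb.2⟩
  have hF : Fmy G B X W T (Zg D W.Z X.E) C₁ (2 * |C₁| * Real.log L) Y I (fun b => mp ρ b)
      (fun _ => xe0 X e₀) Qb h := by
    refine ⟨fun b hb => ?_, fun b hb => ?_, fun b hb => (hI1 b hb).2.2.1, fun s => ?_,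
      fun b _ => hh b⟩
    · rw [sp_mp]
      exact (hI1 b hb).2.1.1
    · rw [sp_mp]
      exact (hI1 b hb).2.1.2
    · simp only [sp_mp]
      rcases (I.filter fun b => sp (Zg D W.Z X.E) b = s).eq_empty_or_nonempty with h3 | ⟨b₀, h3⟩
      · rw [h3, Finset.card_empty, Nat.cast_zero]
        exact (Real.rpow_pos_of_pos hl0 _).le
      · rw [Finset.mem_filter] at h3
        have h4 := bl_card (Zg D W.Z X.E) s (I.filter fun b => sp (Zg D W.Z X.E) b = s)
          fun b hb => ⟨(hI1 b (Finset.mem_filter.1 hb).1).1, (Finset.mem_filter.1 hb).2⟩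
        have h5 := (hI1 b₀ h3.1).2.1.2
        rw [h3.2] at h5
        calc ((I.filter fun b => sp (Zg D W.Z X.E) b = s).card : ℝ)
            ≤ (((Fintype.card Λ + 1) ^ s.card : ℕ) : ℝ) := by exact_mod_cast h4
          _ ≤ L ^ s.card := by
              rw [hLd]
              push_cast
              refine pow_le_pow_left₀ (by positivity) ?_ _
              have h6 : (Fintype.card Λ : ℝ) ≤ L₀ := by exact_mod_cast hΛ
              linarith
          _ ≤ _ := bl_an C₁ L hL Y hYb _ h5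
  have hmain := hY₀ Y hYa k Mw X W T hH (fun k => ρ (l k)) hO (Pl K → Option Λ) I
    (fun b => mp ρ b) (fun _ => xt0 B X τ₀) (fun _ => xe0 X e₀) Qb h lo hi hF
    (fun b hb => (hI1 b hb).2.2.2) hlh
  refine le_trans (le_of_eq ?_) hmain
  rw [← hJ, hI, ← Finset.sum_filter_of_ne (p := fun b =>
    Gdb G B X W T (Zg D W.Z X.E) (xe0 X e₀) (Qb b) (mp ρ b) ∧
        ¬Ulk (Qb b) (fun k => G.y (ρ (l k)).1) (fun k => (ρ (l k)).2.2.1.1.1))]
  · refine Finset.sum_congr rfl fun b hb => ?_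
    have hG := (Finset.mem_filter.1 hb).2
    rw [sp_mp, fr_mp]
    congr 2
    refine Finset.sum_congr rfl fun v hv => ?_
    congr 1
    have hv1 := (Finset.mem_filter.1 hv).1
    have hv2 := (mem_fr.1 hv1).2
    rw [mp_up ρ b v l hv2]
    rcases bf_sum G B X W T _ hZ (xt0 B X τ₀) _ (fun k => ρ (l k)) hO (mp ρ b) v
      (by rw [fr_mp]; exact hv1) (Qb b) hG.1.qp with h3 | h3
    · split_ifs
      · rfl
      · exact h3.symm
    · exact if_pos (h3.2 hG)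
  · intro b hb hne
    by_contra hG
    refine hne ?_
    rw [Finset.sum_eq_zero, norm_zero, mul_zero]
    intro v hv
    have hv1 := (Finset.mem_filter.1 hv).1
    have hv2 := (mem_fr.1 hv1).2
    rw [mp_up ρ b v l hv2]
    rcases bf_sum G B X W T _ hZ (xt0 B X τ₀) _ (fun k => ρ (l k)) hO (mp ρ b) v
      (by rw [fr_mp]; exact hv1) (Qb b) (by rw [hQb]) with h3 | h3
    · rw [h3]
      split_ifs
      · exact zero_mul _
      · exact zero_mul _
    · rw [if_neg fun hh => hG (h3.1 hh), zero_mul]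

end H93.OW
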