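import Pool.Agent.H73.S3.Bxf

/-!
# [H93 OW QBM] MP_b39724_nt, THEOREM OW, chapter S4: the box inequality from BLG for a family with factors

Generalises `qbx`, `bxf` of H73/S3 (same frame, any `P`, `c`, `S`; to be used for `P × C`, own letters). `n + 2` variables with the labels `l`, index set `I`: for every `i ∈ I` a fixed part `b i`
with the data `τ₀ i`, `e₀ i`, and factors `h i k` which do not depend on the variable `k` (`Mis`).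
* `Fmy`: the hypotheses: `nr`, `card` as in `BxF`, `Gdb`, at most `(log Y)^C₃` indices with the same support.
* `qbm`: one subgroup `Qs`, one instance of `LGx`. `bxm`: all subgroups, for tuples `l` which are not unlinked (`Ulk`).
-/

set_option autoImplicit false

open scoped NumberField commutatorElement
open IsDedekindDomain
open scoped Classical

noncomputable section

namespace H93.OW

open H63.MA H38.BB H38.BG H57.PC H57.BRA H77.WD H77.WE H77.PC3 H35.CF H35.UB H77.S3 H71.S3 H1.S3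
  H93.BX H93.BY H24.RK H73.S3

attribute [local instance 50] Fintype.ofFinite

variable {K : Type} [Field K] [NumberField K] {Ω : Type} [Field Ω] [Algebra K Ω]
  {p N : ℕ} {ζ : K} {D : RD0 K p ζ} {Q : DP K Ω} {A : GS D Ω} {P : Type} [Group P]
  {c : CL p N P} {S : Type} [Group S] [MulDistribMulAction P S] {n : ℕ}

private theorem bf_an (C₁ C₃ : ℝ) (C₂ : ℕ)
    (hC : 2 * |C₁| + |C₃| + 3 ≤ C₂) (Y : ℝ) (hY : Real.exp (Real.exp 1) ≤ Y) :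
    1 ≤ Real.log (Real.log Y) ∧ 1 ≤ Real.log Y ∧ Y ^ C₁ * Real.log Y ≤ Y ^ C₂ ∧
      Y ^ C₁ ≤ Y ^ C₂ ∧ Real.log Y ^ C₃ ≤ Real.log Y ^ C₂ ∧
      ∀ k e : ℕ, (k : ℝ) ≤ C₁ * (1 + Real.log (Real.log Y)) → (2 : ℝ) ^ e ≤ Real.log Y →
        ((k + e : ℕ) : ℝ) ≤ C₂ * Real.log (Real.log Y) := by
  have hY0 : 0 < Y := lt_of_lt_of_le (Real.exp_pos _) hY
  have h1 : Real.exp 1 ≤ Real.log Y := (Real.le_log_iff_exp_le hY0).2 hY
  have h2 : (2 : ℝ) ≤ Real.exp 1 := by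
    have := Real.add_one_le_exp (1 : ℝ)
    linarith
  have h3 : (1 : ℝ) ≤ Real.log Y := by linarith
  have hl0 : 0 < Real.log Y := by linarith
  have h4 : 1 ≤ Real.log (Real.log Y) := (Real.le_log_iff_exp_le hl0).2 h1
  have h5 : Real.log Y ≤ Y := Real.log_le_self hY0.le
  have h6 : 1 ≤ Y := h3.trans h5
  have hab : 0 ≤ |C₁| := abs_nonneg _
  have hab3 : 0 ≤ |C₃| := abs_nonneg _
  have hC' : |C₁| + 1 ≤ (C₂ : ℝ) := by linarith
  have hC3 : 2 * |C₁| + 2 ≤ (C₂ : ℝ) := by linarith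
  have hC4 : C₃ ≤ (C₂ : ℝ) := by linarith [le_abs_self C₃]
  have h7 : Y ^ C₁ * Real.log Y ≤ Y ^ C₂ := by
    calc Y ^ C₁ * Real.log Y ≤ Y ^ |C₁| * Y := by
          refine mul_le_mul (Real.rpow_le_rpow_of_exponent_le h6 (le_abs_self _)) h5 hl0.le ?_
          exact (Real.rpow_pos_of_pos hY0 _).le
      _ = Y ^ (|C₁| + 1) := by rw [Real.rpow_add hY0, Real.rpow_one]
      _ ≤ Y ^ (C₂ : ℝ) := Real.rpow_le_rpow_of_exponent_le h6 hC'
      _ = Y ^ C₂ := Real.rpow_natCast _ _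
  have h8 : Y ^ C₁ ≤ Y ^ C₂ := by
    refine le_trans ?_ h7
    exact le_mul_of_one_le_right (Real.rpow_pos_of_pos hY0 _).le h3
  have h9 : ∀ k : ℕ, (k : ℝ) ≤ C₁ * (1 + Real.log (Real.log Y)) →
      (k : ℝ) ≤ |C₁| * (2 * Real.log (Real.log Y)) := by
    intro k hk
    refine hk.trans ?_
    calc C₁ * (1 + Real.log (Real.log Y)) ≤ |C₁| * (1 + Real.log (Real.log Y)) :=
          mul_le_mul_of_nonneg_right (le_abs_self _) (by linarith)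
      _ ≤ _ := mul_le_mul_of_nonneg_left (by linarith) hab
  refine ⟨h4, h3, h7, h8, ?_, fun k e hk he => ?_⟩
  · calc Real.log Y ^ C₃ ≤ Real.log Y ^ (C₂ : ℝ) := Real.rpow_le_rpow_of_exponent_le h3 hC4
      _ = Real.log Y ^ C₂ := Real.rpow_natCast _ _
  · have h10 : (e : ℝ) * Real.log 2 ≤ Real.log (Real.log Y) := by
      rw [← Real.log_pow]
      exact Real.log_le_log (by positivity) he
    have h11 : (e : ℝ) ≤ 2 * Real.log (Real.log Y) := by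
      have := Real.log_two_gt_d9
      have he0 : (0 : ℝ) ≤ e := Nat.cast_nonneg _
      nlinarith
    push_cast
    calc (k : ℝ) + e ≤ |C₁| * (2 * Real.log (Real.log Y)) + 2 * Real.log (Real.log Y) :=
          add_le_add (h9 k hk) h11
      _ = (2 * |C₁| + 2) * Real.log (Real.log Y) := by ring
      _ ≤ _ := mul_le_mul_of_nonneg_right hC3 (by linarith)

private theorem bf_zg (D : RD0 K p ζ) (Z E : Finset (Pl K)) :
    Disjoint (Zg D Z E) E ∧ Zg D Z E ⊆ Z := by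
  unfold Zg
  constructor
  · rw [Finset.disjoint_left]
    intro v hv hv'
    rw [Finset.mem_filter, Finset.mem_sdiff] at hv
    exact hv.1.2 hv'
  · intro v hv
    rw [Finset.mem_filter, Finset.mem_sdiff] at hv
    exact hv.1.1

/-- the norm of the fixed places -/
private theorem bf_two (E : Finset (Pl K)) : (2 : ℝ) ^ E.card ≤ nr E := by
  unfold nr
  rw [← Finset.prod_const]
  refine Finset.prod_le_prod (fun _ _ => by norm_num) fun v _ => ?_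
  exact_mod_cast one_lt_nm v

/-- the inner sums agree -/
private theorem qb_in [Finite P] (G : SG c S) (B : SD D Q A) (X : FD A P S) (W : WF A)
    {k Mw : ℕ} (hX : X.Ok G B W)
    (hW : W.Ok B k Mw) (hP : Sml p k Mw P) (T : ℝ) (hE : X.E ⊆ W.Z) (τ₀ : Pl K → S) {q : ℕ}
    (e₀ : Pl K ⊕ Fin A.g → El S P q (n + 1))
    (Qs : Subgroup (Sd P (Du S q (n + 1 + 1))))
    (b : Pl K → Option (Elb c S q (n + 1)))
    (h : Gdb G B X W T (Zg D W.Z X.E) e₀ Qs b) {PQ Lm : Type} [Group PQ]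
    [MulAction Qs Lm] {μ : SP S Qs →* PQ} {lm : Px c → Du S q (n + 1) → Lm}
    {Dx : LGx q n PQ Qs Lm} (hI : LgI G Qs μ lm Dx) (Φ : Gal(Ω/K) →* Qs)
    (hΦ : Hon G B X W T (Zg D W.Z X.E) e₀ Qs b Φ) (M : ℕ)
    (l : Fin (n + 1 + 1) → Elb c S q (n + 1)) (lo hi : Fin (n + 1 + 1) → ℝ)
    (hlo : ∀ k, T ≤ lo k) (F : (Fin (n + 1 + 1) → Pl K) → ℂ) :
    ∑ x ∈ Fintype.piFinset (fun k => H62.BL.BX D W.Z (sp (Zg D W.Z X.E) b ∪ X.E) (lo k) (hi k)),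
        Fq (wy B W M) (rdb G B X W T (Zg D W.Z X.E) τ₀ e₀ Qs μ b Φ) (vdl G Qs μ lm l) x * F x =
      ∑ v ∈ (H35.CF.Fr (Zg D W.Z X.E) (PPc X W T) b (n + 1 + 1)).filter
        (fun v => ∀ k, lo k < nm (v k) ∧ (nm (v k) : ℝ) ≤ hi k),
        FX G B X W T (Zg D W.Z X.E) τ₀ e₀ (up b v l) * F v := by
  obtain ⟨hZ, hZc⟩ := bf_zg D W.Z X.E
  rw [Finset.sum_congr rfl fun v hv => congrArg (· * F v) (fxe G B X W hX hW hP T _ hZ hZc hE τ₀ e₀ Qs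
    b h hI Φ hΦ M l v (Finset.mem_filter.1 hv).1)]
  symm
  refine Finset.sum_subset ?_ ?_
  · intro x hx
    rw [Finset.mem_filter, mem_fr] at hx
    rw [Fintype.mem_piFinset]
    intro k
    obtain ⟨⟨h1, h2⟩, h3⟩ := hx
    have h4 := (h1 k).1
    unfold Zg at h4
    rw [Finset.mem_filter, Finset.mem_sdiff] at h4
    unfold H62.BL.BX
    rw [Finset.mem_filter, Finset.mem_union, mem_sp]
    exact ⟨h4.1.1, h4.2, fun h5 => h5.elim (fun h6 => h6.2 (h1 k).2.2) h4.1.2, h3 k⟩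
  · intro x hx hx'
    rw [Fintype.mem_piFinset] at hx
    have hx1 : ∀ k, x k ∈ W.Z ∧ D.Gd (x k) ∧ x k ∉ sp (Zg D W.Z X.E) b ∪ X.E ∧
        lo k < (nm (x k) : ℝ) ∧ (nm (x k) : ℝ) ≤ hi k := by
      intro k
      have h1 := hx k
      unfold H62.BL.BX at h1
      exact Finset.mem_filter.1 h1
    by_cases hF : ∀ j, X.φ (W.Fr.F (x j)) = 1
    · by_cases hi' : Function.Injective x
      · exfalso
        refine hx' ?_
        rw [Finset.mem_filter, mem_fr]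
        refine ⟨⟨fun k => ?_, hi'⟩, fun k => (hx1 k).2.2.2⟩
        obtain ⟨h1, h2, h3, h4, h5⟩ := hx1 k
        rw [Finset.mem_union, not_or] at h3
        have h6 : x k ∈ Zg D W.Z X.E := by
          unfold Zg
          rw [Finset.mem_filter, Finset.mem_sdiff]
          exact ⟨⟨h1, h3.2⟩, h2⟩
        refine ⟨h6, ⟨lt_of_le_of_lt (hlo k) h4, hF k⟩, ?_⟩
        by_contra h7
        exact h3.1 (mem_sp.2 ⟨h6, h7⟩)
      · unfold Fq
        rw [if_neg, zero_mul]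
        exact fun h1 => hi' h1.1
    · push Not at hF
      obtain ⟨j, hj⟩ := hF
      rw [fqz G B X W hX hW hP T _ hZ hZc hE τ₀ e₀ Qs b h hI Φ hΦ M l x (fun j => (hx1 j).1) j hj,
        zero_mul]

/-- the hypotheses on the family of the fixed parts, one subgroup -/
structure Fmy (G : SG c S) (B : SD D Q A) (X : FD A P S) (W : WF A) (T : ℝ) (Zc : Finset (Pl K)) {q : ℕ}
    (C₁ C₃ Y : ℝ) {ι : Type} (I : Finset ι) (b : ι → Pl K → Option (Elb c S q (n + 1)))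
    (e₀ : ι → Pl K ⊕ Fin A.g → El S P q (n + 1)) (Qs : ι → Subgroup (Sd P (Du S q (n + 1 + 1))))
    (h : ι → Fin (n + 1 + 1) → (Fin (n + 1 + 1) → Pl K) → ℂ) : Prop where
  nr : ∀ i ∈ I, nr (sp Zc (b i)) ≤ Y ^ C₁
  card : ∀ i ∈ I, ((sp Zc (b i)).card : ℝ) ≤ C₁ * (1 + Real.log (Real.log Y))
  gd : ∀ i ∈ I, Gdb G B X W T Zc (e₀ i) (Qs i) (b i)
  mul : ∀ s : Finset (Pl K), ((I.filter fun i => sp Zc (b i) = s).card : ℝ) ≤ Real.log Y ^ C₃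
  mis : ∀ i ∈ I, Mis (h i)

/-- one subgroup -/
theorem qbm [IsAlgClosure K Ω] [Finite S] [Finite P] (hp : p.Prime) (hζ : IsPrimitiveRoot ζ p)
    {κ mm c₁ N₁ : ℕ} {z : K} [NeZero (p ^ κ)] (B : SD D Q A) (hB : BLG D Ω Q A B κ mm c₁ N₁ z)
    (G : SG c S) (hS : IsPGroup p S) (hP : IsPGroup p P) (hn : n + 1 ≤ mm) (hg : A.g ≤ c₁)
    (hc : Nat.card P * Nat.card (Du S (p ^ κ) (n + 1 + 1)) ≤ mm) (C₁ C₃ A' ε : ℝ) (hε : 0 < ε) :
    ∃ C₂ : ℕ, ∀ C' : ℕ, ∃ Y₀ : ℝ, ∀ Y : ℝ, Y₀ ≤ Y → ∀ (k Mw : ℕ) (X : FD A P S) (W : WF A)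
      (T : ℝ), BxH G B X W κ mm N₁ z C₁ C₂ C' ε Y k Mw T →
      ∀ (Qs : Subgroup (Sd P (Du S (p ^ κ) (n + 1 + 1)))) (PQ Lm : Type) [Group PQ] [Finite PQ]
        [Fintype Lm] [MulAction Qs Lm] (μ : SP S Qs →* PQ) (lm : Px c → Du S (p ^ κ) (n + 1) → Lm)
        (Dx : LGx (p ^ κ) n PQ Qs Lm), LgI G Qs μ lm Dx → IsPGroup p PQ → Nat.card PQ ≤ mm →
        Nat.card Lm ≤ mm →
      ∀ l : Fin (n + 1 + 1) → Elb c S (p ^ κ) (n + 1),
        (∀ k, ∀ z : Gr S (n + 1), ((l k).2.2.2).ap (br (n + 1) (G.y (l k).1) z) = 0) →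
        (Dx.Lk fun k => lm (l k).1 (l k).2.2.1.1.1) →
      ∀ (ι : Type) (I : Finset ι) (b : ι → Pl K → Option (Elb c S (p ^ κ) (n + 1)))
        (τ₀ : ι → Pl K → S) (e₀ : ι → Pl K ⊕ Fin A.g → El S P (p ^ κ) (n + 1))
        (h : ι → Fin (n + 1 + 1) → (Fin (n + 1 + 1) → Pl K) → ℂ) (lo hi : Fin (n + 1 + 1) → ℝ),
        Fmy G B X W T (Zg D W.Z X.E) C₁ C₃ Y I b e₀ (fun _ => Qs) h →
        (∀ k, T ≤ lo k ∧ lo k ≤ hi k ∧ hi k ≤ 2 * lo k ∧ hi k ≤ Y ^ C₁) →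
      ∑ i ∈ I, (nr (sp (Zg D W.Z X.E) (b i)))⁻¹ * (∏ k, lo k)⁻¹ *
          ‖∑ v ∈ (H35.CF.Fr (Zg D W.Z X.E) (PPc X W T) (b i) (n + 1 + 1)).filter
            (fun v => ∀ k, lo k < nm (v k) ∧ (nm (v k) : ℝ) ≤ hi k),
            FX G B X W T (Zg D W.Z X.E) (τ₀ i) (e₀ i) (up (b i) v l) * ∏ k, h i k v‖ ≤
        Real.log Y ^ (-A') := by
  obtain ⟨C₂, hC₂⟩ := exists_nat_ge (2 * |C₁| + |C₃| + 3)
  obtain ⟨A₁, hA₁⟩ := exists_nat_ge (A' + 1)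
  refine ⟨C₂, fun C' => ?_⟩
  obtain ⟨Y₀, hY₀, hbl⟩ := hB C₂ A₁ C' ε hε
  refine ⟨max Y₀ (Real.exp (Real.exp 1)), fun Y hY k Mw X W T hH Qs PQ Lm _ _ _ _ μ lm Dx hI hPQ
    hcP hcL l hO hLk ι I b τ₀ e₀ h lo hi hF hlh => ?_⟩
  have hYa := le_trans (le_max_left _ _) hY
  obtain ⟨a1, a2, a3, a4, a5, a6⟩ := bf_an C₁ C₃ C₂ hC₂ Y (le_trans (le_max_right _ _) hY)
  obtain ⟨hZ, hZc⟩ := bf_zg D W.Z X.E
  have hmm : mm ≤ Mx (p ^ κ) mm := by
    unfold Mx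
    exact Nat.le_mul_of_pos_right _ (Nat.pow_pos (Nat.pow_pos hp.pos))
  have hD1 : 1 ≤ Nat.card (Du S (p ^ κ) (n + 1 + 1)) := Nat.card_pos
  have hcPM : Nat.card P * Nat.card (Du S (p ^ κ) (n + 1 + 1)) ≤ Mw :=
    hc.trans (hmm.trans hH.mM)
  have hSP : Sml p k Mw P := sml_of hp hH.kM hP
    ((Nat.le_mul_of_pos_right _ hD1).trans hcPM)
  -- the honest homomorphisms
  obtain ⟨Φ, hΦ⟩ : ∃ Φ : ι → (Gal(Ω/K) →* Qs),
      ∀ i ∈ I, Hon G B X W T (Zg D W.Z X.E) (e₀ i) Qs (b i) (Φ i) := by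
    have h1 : ∀ i : ι, ∃ Φ : Gal(Ω/K) →* Qs,
        i ∈ I → Hon G B X W T (Zg D W.Z X.E) (e₀ i) Qs (b i) Φ := by
      intro i
      by_cases hb : i ∈ I
      · obtain ⟨Φ, h2⟩ := hon_ex hp hζ G B X W hH.okX hH.okW T _ hZ hZc hH.ez hP hS ⟨κ, rfl⟩ hH.kM
          hcPM (e₀ i) Qs (b i) (hF.gd i hb)
        exact ⟨Φ, fun _ => h2⟩
      · exact ⟨1, fun h => absurd h hb⟩
    choose Φ hΦ using h1
    exact ⟨Φ, hΦ⟩
  have hnrE : 0 < nr X.E := lt_of_lt_of_le (by positivity) (bf_two X.E)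
  have hdsj : ∀ b : Pl K → Option (Elb c S (p ^ κ) (n + 1)),
      Disjoint (sp (Zg D W.Z X.E) b) X.E := fun b =>
    Finset.disjoint_of_subset_left (Finset.filter_subset _ _) hZ
  have hnr : ∀ b : Pl K → Option (Elb c S (p ^ κ) (n + 1)),
      nr (sp (Zg D W.Z X.E) b ∪ X.E) = nr (sp (Zg D W.Z X.E) b) * nr X.E := fun b => by
    unfold nr
    rw [Finset.prod_union (hdsj b)]
  have hl0 : 0 < Real.log Y := by linarith
  have hY0 : 0 < Y := lt_of_lt_of_le (Real.exp_pos _) (le_trans (le_max_right _ _) hY)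
  have hR : Rfx (wy B W (Mx (p ^ κ) mm)) B id Dx C₂ Y I
      (fun i => rdb G B X W T (Zg D W.Z X.E) (τ₀ i) (e₀ i) Qs μ (b i) (Φ i)) := by
    refine ⟨fun i hi => ?_, fun i hi => ?_, fun i hi => ?_, fun s => ?_⟩
    · exact rox G B X W hH.okX hH.okW T _ hZ hZc hH.ez (τ₀ i) (e₀ i) Qs (b i) (hF.gd i hi) hI (Φ i)
        (hΦ i hi) _
    · show nr (sp (Zg D W.Z X.E) (b i) ∪ X.E) ≤ Y ^ C₂
      rw [hnr]
      exact (mul_le_mul (hF.nr i hi) hH.ne hnrE.le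
        (Real.rpow_pos_of_pos hY0 _).le).trans a3
    · show (((sp (Zg D W.Z X.E) (b i) ∪ X.E).card : ℕ) : ℝ) ≤ C₂ * Real.log (Real.log Y)
      rw [Finset.card_union_of_disjoint (hdsj (b i))]
      exact a6 _ _ (hF.card i hi) ((bf_two X.E).trans hH.ne)
    · show ((I.filter fun i => sp (Zg D W.Z X.E) (b i) ∪ X.E = s).card : ℝ) ≤ Real.log Y ^ C₂
      refine le_trans ?_ ((hF.mul (s \ X.E)).trans a5)
      have h2 : I.filter (fun i => sp (Zg D W.Z X.E) (b i) ∪ X.E = s) ⊆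
          I.filter fun i => sp (Zg D W.Z X.E) (b i) = s \ X.E := by
        intro i hi
        rw [Finset.mem_filter] at hi ⊢
        refine ⟨hi.1, ?_⟩
        rw [← hi.2, Finset.union_sdiff_cancel_right (hdsj (b i))]
      exact_mod_cast Finset.card_le_card h2
  have hfin := hbl Y hYa (Fin A.g) (wy B W (Mx (p ^ κ) mm)) id W.l
    (by rw [Fintype.card_fin]; exact hg)
    (wy_val hp B W hH.okW hH.mM hH.kM) rfl (wy_rlk hp B W hH.okW hH.mM hH.kM) hH.nl hH.gl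
    hH.okW.zs (Y ^ C₁) a4 hH.all n PQ Qs Lm Dx (vdl G Qs μ lm l) hn hcP hcL hPQ
    (vox hI l hO) hLk ι I
    (fun i => rdb G B X W T (Zg D W.Z X.E) (τ₀ i) (e₀ i) Qs μ (b i) (Φ i)) h (fun _ => lo)
    (fun _ => hi) hR hF.mis
    (fun _ _ k => ⟨hH.lT.trans (hlh k).1, (hlh k).2.1, (hlh k).2.2.1, (hlh k).2.2.2⟩)
  calc ∑ i ∈ I, (nr (sp (Zg D W.Z X.E) (b i)))⁻¹ * (∏ k, lo k)⁻¹ *
          ‖∑ v ∈ (H35.CF.Fr (Zg D W.Z X.E) (PPc X W T) (b i) (n + 1 + 1)).filter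
            (fun v => ∀ k, lo k < nm (v k) ∧ (nm (v k) : ℝ) ≤ hi k),
            FX G B X W T (Zg D W.Z X.E) (τ₀ i) (e₀ i) (up (b i) v l) * ∏ k, h i k v‖
      = nr X.E * ∑ i ∈ I, (nr (sp (Zg D W.Z X.E) (b i) ∪ X.E))⁻¹ * (∏ k, lo k)⁻¹ *
        ‖∑ x ∈ Fintype.piFinset (fun k => H62.BL.BX D W.Z (sp (Zg D W.Z X.E) (b i) ∪ X.E) (lo k)
            (hi k)),
          Fq (wy B W (Mx (p ^ κ) mm)) (rdb G B X W T (Zg D W.Z X.E) (τ₀ i) (e₀ i) Qs μ (b i) (Φ i))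
            (vdl G Qs μ lm l) x * ∏ k, h i k x‖ := by
        rw [Finset.mul_sum]
        refine Finset.sum_congr rfl fun i hi' => ?_
        rw [qb_in G B X W hH.okX hH.okW hSP T hH.ez (τ₀ i) (e₀ i) Qs (b i) (hF.gd i hi') hI
          (Φ i) (hΦ i hi') _ l lo hi (fun k => (hlh k).1) fun x => ∏ k, h i k x, hnr, mul_inv]
        field_simp
    _ ≤ Real.log Y * Real.log Y ^ (-(A₁ : ℝ)) := by
        refine mul_le_mul hH.ne hfin ?_ hl0.le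
        refine Finset.sum_nonneg fun b _ => mul_nonneg (mul_nonneg ?_ ?_) (norm_nonneg _)
        · exact inv_nonneg.2 (Finset.prod_nonneg fun _ _ => Nat.cast_nonneg _)
        · refine inv_nonneg.2 (Finset.prod_nonneg fun k _ => ?_)
          exact ((Real.exp_pos _).le.trans hH.lT).trans (hlh k).1
    _ = Real.log Y ^ (1 + -(A₁ : ℝ)) := by rw [Real.rpow_add hl0, Real.rpow_one]
    _ ≤ Real.log Y ^ (-A') := Real.rpow_le_rpow_of_exponent_le a2 (by linarith)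

/-- all subgroups -/
theorem bxm [IsAlgClosure K Ω] [Finite S] [Finite P] (hp : p.Prime) (hζ : IsPrimitiveRoot ζ p)
    {κ mm c₁ N₁ : ℕ} {z : K} [NeZero (p ^ κ)] (B : SD D Q A) (hB : BLG D Ω Q A B κ mm c₁ N₁ z)
    (G : SG c S) (hS : IsPGroup p S) (hP : IsPGroup p P) (hq : ∀ s : S, s ^ p ^ κ = 1)
    (hn : n + 1 ≤ mm) (hg : A.g ≤ c₁)
    (h1 : Nat.card S * (Nat.card P * Nat.card (Du S (p ^ κ) (n + 1 + 1))) ≤ mm)
    (h2 : Nat.card (Px c) * Nat.card (Du S (p ^ κ) (n + 1)) ≤ mm) (C₁ C₃ A' ε : ℝ) (hε : 0 < ε) :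
    ∃ C₂ : ℕ, ∀ C' : ℕ, ∃ Y₀ : ℝ, ∀ Y : ℝ, Y₀ ≤ Y → ∀ (k Mw : ℕ) (X : FD A P S) (W : WF A)
      (T : ℝ), BxH G B X W κ mm N₁ z C₁ C₂ C' ε Y k Mw T →
      ∀ l : Fin (n + 1 + 1) → Elb c S (p ^ κ) (n + 1),
        (∀ k, ∀ z : Gr S (n + 1), ((l k).2.2.2).ap (br (n + 1) (G.y (l k).1) z) = 0) →
      ∀ (ι : Type) (I : Finset ι) (b : ι → Pl K → Option (Elb c S (p ^ κ) (n + 1)))
        (τ₀ : ι → Pl K → S) (e₀ : ι → Pl K ⊕ Fin A.g → El S P (p ^ κ) (n + 1))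
        (Qs : ι → Subgroup (Sd P (Du S (p ^ κ) (n + 1 + 1))))
        (h : ι → Fin (n + 1 + 1) → (Fin (n + 1 + 1) → Pl K) → ℂ) (lo hi : Fin (n + 1 + 1) → ℝ),
        Fmy G B X W T (Zg D W.Z X.E) C₁ C₃ Y I b e₀ Qs h →
        (∀ i ∈ I, ¬Ulk (Qs i) (fun k => G.y (l k).1) fun k => (l k).2.2.1.1.1) →
        (∀ k, T ≤ lo k ∧ lo k ≤ hi k ∧ hi k ≤ 2 * lo k ∧ hi k ≤ Y ^ C₁) →
      ∑ i ∈ I, (nr (sp (Zg D W.Z X.E) (b i)))⁻¹ * (∏ k, lo k)⁻¹ *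
          ‖∑ v ∈ (H35.CF.Fr (Zg D W.Z X.E) (PPc X W T) (b i) (n + 1 + 1)).filter
            (fun v => ∀ k, lo k < nm (v k) ∧ (nm (v k) : ℝ) ≤ hi k),
            FX G B X W T (Zg D W.Z X.E) (τ₀ i) (e₀ i) (up (b i) v l) * ∏ k, h i k v‖ ≤
        Real.log Y ^ (-A') := by
  have hS1 : 1 ≤ Nat.card S := Nat.card_pos
  have hc : Nat.card P * Nat.card (Du S (p ^ κ) (n + 1 + 1)) ≤ mm :=
    (Nat.le_mul_of_pos_left _ hS1).trans h1
  obtain ⟨C₂, hqb⟩ := qbm hp hζ B hB G hS hP hn hg hc C₁ C₃ (A' + 1) ε hε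
  refine ⟨C₂, fun C' => ?_⟩
  obtain ⟨Y₀, hY₀⟩ := hqb C'
  obtain ⟨NQ, hNQ⟩ : ∃ NQ : ℕ, NQ = Fintype.card (Subgroup (Sd P (Du S (p ^ κ) (n + 1 + 1)))) :=
    ⟨_, rfl⟩
  refine ⟨max Y₀ (Real.exp (NQ + 1)), fun Y hY k Mw X W T hH l hO ι I b τ₀ e₀ Qs h lo hi hF hU
    hlh => ?_⟩
  have hYa := le_trans (le_max_left _ _) hY
  have hYb := le_trans (le_max_right _ _) hY
  have hY0 : 0 < Y := lt_of_lt_of_le (Real.exp_pos _) hYb
  have hlN : (NQ : ℝ) + 1 ≤ Real.log Y := (Real.le_log_iff_exp_le hY0).2 hYb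
  have hN0 : (0 : ℝ) ≤ NQ := Nat.cast_nonneg _
  have hl0 : 0 < Real.log Y := by linarith
  rw [← Finset.sum_fiberwise _ Qs]
  have hone : ∀ R : Subgroup (Sd P (Du S (p ^ κ) (n + 1 + 1))),
      ∑ i ∈ I.filter (fun i => Qs i = R),
        (nr (sp (Zg D W.Z X.E) (b i)))⁻¹ * (∏ k, lo k)⁻¹ *
          ‖∑ v ∈ (H35.CF.Fr (Zg D W.Z X.E) (PPc X W T) (b i) (n + 1 + 1)).filter
            (fun v => ∀ k, lo k < nm (v k) ∧ (nm (v k) : ℝ) ≤ hi k),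
            FX G B X W T (Zg D W.Z X.E) (τ₀ i) (e₀ i) (up (b i) v l) * ∏ k, h i k v‖ ≤
        Real.log Y ^ (-(A' + 1)) := by
    intro R
    rcases (I.filter fun i => Qs i = R).eq_empty_or_nonempty with he | ⟨i₀, hi₀⟩
    · rw [he, Finset.sum_empty]
      exact (Real.rpow_pos_of_pos hl0 _).le
    rw [Finset.mem_filter] at hi₀
    have hU' := hU i₀ hi₀.1
    rw [hi₀.2] at hU'
    obtain ⟨PQ, Lm, _, _, _, _, μ, lm, Dx, hI, hpq, hc1, hc2, hlk⟩ :=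
      lgi (q := p ^ κ) (n := n) hp G hS hP hq ⟨κ, rfl⟩ R
    refine hY₀ Y hYa k Mw X W T hH R PQ Lm μ lm Dx hI hpq (hc1.trans h1)
      (hc2.trans h2) l hO (hlk _ _ hU') ι (I.filter fun i => Qs i = R) b τ₀ e₀ h lo hi ?_ hlh
    refine ⟨fun i hi => hF.nr i (Finset.mem_filter.1 hi).1, fun i hi => hF.card i
      (Finset.mem_filter.1 hi).1, fun i hi => ?_, fun s => ?_, fun i hi => hF.mis i
      (Finset.mem_filter.1 hi).1⟩
    · have h3 := hF.gd i (Finset.mem_filter.1 hi).1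
      rw [(Finset.mem_filter.1 hi).2] at h3
      exact h3
    · refine le_trans ?_ (hF.mul s)
      exact_mod_cast Finset.card_le_card (Finset.filter_subset_filter _ (Finset.filter_subset _ _))
  refine (Finset.sum_le_card_nsmul _ _ _ fun R _ => hone R).trans ?_
  rw [nsmul_eq_mul, Finset.card_univ, ← hNQ]
  calc (NQ : ℝ) * Real.log Y ^ (-(A' + 1)) ≤ Real.log Y * Real.log Y ^ (-(A' + 1)) :=
        mul_le_mul_of_nonneg_right (by linarith) (Real.rpow_pos_of_pos hl0 _).le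
    _ = Real.log Y ^ (1 + -(A' + 1)) := by rw [Real.rpow_add hl0, Real.rpow_one]
    _ = Real.log Y ^ (-A') := by
        congr 1
        ring

end H93.OW
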